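import Pool.Agent.Lib.H53Y.IDE
import Pool.Agent.Lib.H49D.DD

set_option autoImplicit false

/-!
# H53R: second main theorem with TOTAL truncation level one on products of projective spaces
(MP_2a5ae2_ag, weight 25; replaces AllTypesBranching)

Definitions.  See PROOF.md.  Everything of `Lib/H53Y` (blocks `Co m`, factors `Cf m sb dg`, `PropG`, `fv`, `bj`, ...) is
reused; `H49D.wtb e s μ` is the weight of the monomial `μ` in the jets of the block `s`.
New: operators of MULTI-weight (a bound for every block), curves `w s` in the blocks which need not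
come from one curve.
-/

open MvPolynomial

namespace Pool.Agent.H53R

open Pool.Agent.H89T Pool.Agent.H78G Pool.Agent.H67T Pool.Agent.H53Y Pool.Agent.H49D

/-- Polynomials in the jets of weight at most `d s` in the jets of the block `s`, for all `s`. -/
def HasWtB {β : Type} [DecidableEq β] {m : β → ℕ} {n r : ℕ} {R : Type} [CommRing R] (e : Co m ≃ Fin n)
    (d : β → ℕ) (P : MvPolynomial (JV n r) R) : Prop :=
  ∀ s, ∀ μ ∈ P.support, wtb e s μ ≤ d s

theorem HasWtB.mono {β : Type} [DecidableEq β] {m : β → ℕ} {n r : ℕ} {R : Type} [CommRing R]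
    {e : Co m ≃ Fin n} {d d' : β → ℕ} {P : MvPolynomial (JV n r) R} (h : HasWtB e d P)
    (hd : ∀ s, d s ≤ d' s) : HasWtB e d' P :=
  fun s μ hμ => (h s μ hμ).trans (hd s)

/-- The algebraic theorem (multi-weights).  `T s = true`: the block `s` is small (all factors are
linear polynomials), `T s = false`: it is large (all factors are of large degree).  `Db s ≥ 1` is an
upper bound for the total degree of the factors of the block `s`. -/
def AlgP {β : Type} [Fintype β] [DecidableEq β] (m : β → ℕ) (T : β → Bool) {n : ℕ}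
    (e : Co m ≃ Fin n) (α : ℝ) : Prop :=
  ∃ (r C : ℕ) (hr : ∀ s, m s ≤ r), 1 ≤ r ∧
    ∀ (ι : Type) [Fintype ι] [DecidableEq ι] (sb : ι → β) (dg : ι → ℕ) (Db : β → ℕ),
      (∀ i, T (sb i) = true → dg i = 1) → (∀ i, T (sb i) = false → C ≤ dg i) →
      (∀ s, 1 ≤ Db s) → (∀ s, Dg sb dg s ≤ Db s) →
      ∃ W : MvPolynomial (Fin n ⊕ Cf m sb dg) ℂ, W ≠ 0 ∧
        ∀ (a : Cf m sb dg → ℂ) (ξ : JV n r → ℂ),
          eval (Sum.elim (fun b => ξ (b, 0)) a) W ≠ 0 →
          (∀ i, fv e a (fun b => ξ (b, 0)) i ≠ 0) →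
          (∀ s, T s = true → Wd (hr s) (bj e ξ s) ≠ 0) →
          (∀ s, T s = false → ∃ b, ∃ l : Fin (r + 1), (l : ℕ) = 1 ∧ bj e ξ s (b, l) ≠ 0) →
          ∃ (d : β → ℕ) (P : MvPolynomial (JV n r) ℂ),
            (∀ s, (d s : ℝ) ≤ α * r * Db s + C) ∧ HasWtB e d P ∧ PropG e a r P ∧ eval ξ P ≠ 0

/-- The data of one curve (Part D).  `w s` is the curve in the block `s`, `F i` the factors. -/
structure CurveW {β : Type} (m : β → ℕ) (ι : Type) [Fintype ι] (sb : ι → β) (dg : ι → ℕ) where
  /-- the coordinates in the blocks -/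
  w : (s : β) → ℂ → Fin (m s + 1) → ℂ
  /-- the factors -/
  F : (i : ι) → MvPolynomial (Fin (m (sb i) + 1)) ℂ
  hw : ∀ s, IsHol (w s)
  hw0 : ∀ s j, ∃ z, w s z j ≠ 0
  hF : ∀ i, (F i).IsHomogeneous (dg i)
  hF0 : ∀ i, ∃ z, eval (w (sb i) z) (F i) ≠ 0

namespace CurveW

variable {β : Type} {m : β → ℕ} {ι : Type} [Fintype ι] {sb : ι → β} {dg : ι → ℕ}
variable (D : CurveW m ι sb dg)

/-- The function `F i (w)`. -/
noncomputable def φ (i : ι) (z : ℂ) : ℂ := eval (D.w (sb i) z) (D.F i)

/-- The coefficients of the factors in the charts `0`. -/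
noncomputable def a (x : Cf m sb dg) : ℂ := cfF (dg x.1) 0 (D.F x.1) x.2

/-- The coefficient vectors of the factors of the block `s`, for small blocks (linear forms). -/
noncomputable def θ (s : β) (x : {i : ι // sb i = s}) : Fin (m s + 1) → ℂ :=
  fun b => coeff (Finsupp.single (Fin.cast (by rw [x.2]) b) 1) (D.F x.1)

/-- All affine coordinates in the charts `0`. -/
noncomputable def f {n : ℕ} (e : Co m ≃ Fin n) (z : ℂ) (b : Fin n) : ℂ :=
  ch 0 (D.w (e.symm b).1) z (e.symm b).2

end CurveW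

end Pool.Agent.H53R
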