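import Pool.Agent.Lib.H53Y.F01
import Pool.Agent.Lib.H53Y.D0

set_option autoImplicit false

/-!
H53R, chunk F01 (S/M): one scale for all factors.
-/

namespace Pool.Agent.H53R

open Pool.Agent.H53Y

/-- CHUNK F01.  Port of `H53Y.scales` (Lib/H53Y/F01.lean) with `J = ⌈(card τ) / ε⌉₊ + 1` scales: for every
`t` the sets `A j t = {i | src i = t ∧ E j < d i ∧ d i ≤ Φ (E j)}`, `j < J`, are disjoint, so the number
of the `j < J` with `∑_(A j t) d i > ε ∑_(src i = t) d i` is at most `1 / ε` (if `∑_(src i = t) d i = 0` it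
is `0`); if every `j < J` were bad for some `t` we would have `J ≤ card τ / ε`.  (Or: apply the pigeonhole
principle to `j ↦ t`: some `t` is bad for more than `1 / ε` of the `j`, and then the argument of
`scales`.)  `Dg src d t = ∑ i ∈ univ.filter (src i = t), d i` (H53Y.D0). -/
theorem scalesP (τ : Type) [Fintype τ] [DecidableEq τ] (Φ : ℕ → ℕ) {ε : ℝ} (hε : 0 < ε) :
    ∃ T : Finset ℕ, ∀ (ι : Type) [Fintype ι] (src : ι → τ) (d : ι → ℕ), ∃ E ∈ T, ∀ t,
      ((∑ i ∈ Finset.univ.filter (fun i => src i = t ∧ (E < d i ∧ d i ≤ Φ E)), d i : ℕ) : ℝ) ≤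
        ε * (Dg src d t : ℕ) := by
  classical
  obtain ⟨E, hE⟩ : ∃ E : ℕ → ℕ, ∀ j, E (j + 1) = max (E j) (Φ (E j)) :=
    ⟨fun j => Nat.rec 0 (fun _ e => max e (Φ e)) j, fun j => rfl⟩
  have hmono : Monotone E := monotone_nat_of_le_succ (fun j => by rw [hE]; exact le_max_left _ _)
  set J : ℕ := ⌈(Fintype.card τ : ℝ) / ε⌉₊ + 1 with hJ
  have hJ1 : (Fintype.card τ : ℝ) < (J : ℝ) * ε := by
    have h := Nat.le_ceil ((Fintype.card τ : ℝ) / ε)
    rw [div_le_iff₀ hε] at h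
    rw [hJ]
    push_cast
    nlinarith
  refine ⟨(Finset.range J).image E, ?_⟩
  intro ι _ src d
  by_contra hcon
  push Not at hcon
  have h1 : ∀ j ∈ Finset.range J, ∃ t, ε * ((Dg src d t : ℕ) : ℝ) <
      ((∑ i ∈ Finset.univ.filter (fun i => src i = t ∧ (E j < d i ∧ d i ≤ Φ (E j))), d i : ℕ) : ℝ) :=
    fun j hj => hcon (E j) (Finset.mem_image_of_mem _ hj)
  have hdis : ∀ a b, a < b → ∀ i, (E a < d i ∧ d i ≤ Φ (E a)) →
      (E b < d i ∧ d i ≤ Φ (E b)) → False := by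
    intro a b hab i h2 h3
    have h4 : Φ (E a) ≤ E (a + 1) := by rw [hE]; exact le_max_right _ _
    have h5 : E (a + 1) ≤ E b := hmono hab
    have h6 := h2.2
    have h7 := h3.1
    omega
  obtain ⟨A, hA⟩ : ∃ A : ℕ → τ → ℕ, ∀ j t, A j t =
      ∑ i ∈ Finset.univ.filter (fun i => src i = t ∧ (E j < d i ∧ d i ≤ Φ (E j))), d i :=
    ⟨_, fun _ _ => rfl⟩
  have h2 : ∀ t, ∑ j ∈ Finset.range J, A j t ≤ Dg src d t := by
    intro t
    have e1 : ∑ j ∈ Finset.range J, A j t = ∑ j ∈ Finset.range J,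
        ∑ i ∈ Finset.univ.filter (fun i => src i = t ∧ (E j < d i ∧ d i ≤ Φ (E j))), d i :=
      Finset.sum_congr rfl fun j _ => hA j t
    rw [e1, ← Finset.sum_biUnion]
    · unfold Dg
      refine Finset.sum_le_sum_of_subset ?_
      intro i hi
      rw [Finset.mem_biUnion] at hi
      obtain ⟨j, _, hj⟩ := hi
      rw [Finset.mem_filter] at hj ⊢
      exact ⟨Finset.mem_univ _, hj.2.1⟩
    · intro a _ b _ hab
      rw [Function.onFun, Finset.disjoint_left]
      intro i hi hj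
      rw [Finset.mem_filter] at hi hj
      rcases lt_or_gt_of_ne hab with h | h
      · exact hdis a b h i hi.2.2 hj.2.2
      · exact hdis b a h i hj.2.2 hi.2.2
  have h3 : ∀ t, ∑ j ∈ Finset.range J, (A j t : ℝ) / (Dg src d t : ℕ) ≤ 1 := by
    intro t
    rw [← Finset.sum_div]
    refine div_le_one_of_le₀ ?_ (Nat.cast_nonneg _)
    exact_mod_cast h2 t
  have h4 : ∀ j ∈ Finset.range J, ε ≤ ∑ t, (A j t : ℝ) / (Dg src d t : ℕ) := by
    intro j hj
    obtain ⟨t, ht⟩ := h1 j hj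
    rw [← hA j t] at ht
    have h5 : ε ≤ (A j t : ℝ) / (Dg src d t : ℕ) := by
      have h6 : (0 : ℝ) ≤ (Dg src d t : ℕ) := Nat.cast_nonneg _
      have h7 : (0 : ℝ) < (A j t : ℝ) := lt_of_le_of_lt (by positivity) ht
      have h8 : A j t ≤ Dg src d t :=
        le_trans (Finset.single_le_sum (f := fun j => A j t) (fun _ _ => Nat.zero_le _) hj) (h2 t)
      have h9 : (0 : ℝ) < (Dg src d t : ℕ) := lt_of_lt_of_le h7 (by exact_mod_cast h8)
      rw [le_div_iff₀ h9]
      exact ht.le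
    refine le_trans h5 ?_
    exact Finset.single_le_sum (f := fun t => (A j t : ℝ) / (Dg src d t : ℕ))
      (fun _ _ => by positivity) (Finset.mem_univ t)
  have h5 : (J : ℝ) * ε ≤ ∑ j ∈ Finset.range J, ∑ t, (A j t : ℝ) / (Dg src d t : ℕ) := by
    have h6 := Finset.sum_le_sum h4
    rw [Finset.sum_const, Finset.card_range, nsmul_eq_mul] at h6
    exact h6
  rw [Finset.sum_comm] at h5
  have h6 : ∑ t, ∑ j ∈ Finset.range J, (A j t : ℝ) / (Dg src d t : ℕ) ≤ ∑ _t : τ, (1 : ℝ) :=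
    Finset.sum_le_sum fun t _ => h3 t
  rw [Finset.sum_const, Finset.card_univ, nsmul_eq_mul, mul_one] at h6
  linarith

end Pool.Agent.H53R
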