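import Pool.Agent.Lib.H53R.IDE
import Pool.Agent.Lib.H89T.DH
import Pool.Agent.Lib.H67T.GH2
import Pool.Agent.Lib.H53Y.F13b

set_option autoImplicit false

/-!
H53R, chunk F02 (M, two theorems): the Segre curve; the last step for several heights.
-/

open MvPolynomial Real MeasureTheory

namespace Pool.Agent.H53R

open Pool.Agent.H89T Pool.Agent.H78G Pool.Agent.H67T Pool.Agent.H53Y Pool.Agent.H49D

theorem f02_norm {τ : Type} [Fintype τ] {n : τ → ℕ} (x : (t : τ) → Fin (n t + 1) → ℂ) {N : ℕ}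
    (e : ((t : τ) → Fin (n t + 1)) ≃ Fin N) :
    ‖fun k : Fin N => ∏ t, x t (e.symm k t)‖ = ∏ t, ‖x t‖ := by
  apply le_antisymm
  · refine (pi_norm_le_iff_of_nonneg (Finset.prod_nonneg fun t _ => norm_nonneg _)).2 fun k => ?_
    rw [norm_prod]
    exact Finset.prod_le_prod (fun t _ => norm_nonneg _) fun t _ => norm_le_pi_norm (x t) _
  · have hex : ∀ t, ∃ i, ‖x t‖ = ‖x t i‖ := by
      intro t
      obtain ⟨i, hi⟩ := Finite.exists_max fun i => ‖x t i‖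
      exact ⟨i, le_antisymm ((pi_norm_le_iff_of_nonneg (norm_nonneg _)).2 hi)
        (norm_le_pi_norm (x t) i)⟩
    choose φ hφ using hex
    have h1 := norm_le_pi_norm (fun k : Fin N => ∏ t, x t (e.symm k t)) (e φ)
    have h2 : ∏ t, ‖x t‖ = ‖∏ t, x t (e.symm (e φ) t)‖ := by
      rw [norm_prod, e.symm_apply_apply]
      exact Finset.prod_congr rfl fun t _ => hφ t
    rw [h2]
    exact h1

theorem f02_err {n m : ℕ} {y : ℂ → Fin n → ℂ} {Y : ℂ → Fin m → ℂ} {K r R : ℝ} (hK : 0 ≤ K)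
    (h1 : - K ≤ chi y R) (h2 : chi y R ≤ chi Y R + K) :
    err y r R ≤ (1 + log 2 + log⁺ K) * err Y r R := by
  have h3 : |chi y R| ≤ |chi Y R| + K := by
    rw [abs_le]
    have h4 := abs_nonneg (chi Y R)
    have h5 := le_abs_self (chi Y R)
    constructor <;> linarith
  have h6 : log⁺ (chi y R) ≤ log 2 + log⁺ (chi Y R) + log⁺ K := by
    calc log⁺ (chi y R) = log⁺ |chi y R| := (posLog_abs _).symm
      _ ≤ log⁺ (|chi Y R| + K) :=
        monotoneOn_posLog (Set.mem_Ici.2 (abs_nonneg (chi y R)))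
          (Set.mem_Ici.2 (add_nonneg (abs_nonneg (chi Y R)) hK)) h3
      _ ≤ log 2 + log⁺ |chi Y R| + log⁺ K := posLog_add
      _ = _ := by rw [posLog_abs]
  have h7 : err y r R ≤ err Y r R + (log 2 + log⁺ K) := by
    unfold err
    linarith
  have h8 := f13b_err Y r R
  have h9 : 0 ≤ log 2 + log⁺ K :=
    add_nonneg (log_nonneg (by norm_num)) posLog_nonneg
  nlinarith

/-- CHUNK F02a.  The Segre curve.  `Y z (e φ) = ∏ t, y t z (φ t)` for `φ : (t : τ) → Fin (n t + 1)`, `e` a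
numbering of these `φ` (`Fintype.equivFin`).  `‖Y z‖ = ∏ t, ‖y t z‖` (supremum norms: `≤` is clear, for `≥`
choose `φ t` with `‖y t z (φ t)‖ = ‖y t z‖`; compare `norm_ver` in Lib/H53Y/F04.lean), so `Y z ≠ 0` and
`log ‖Y z‖ = ∑ t, log ‖y t z‖`, and the circle averages add (`circleAverage_fun_sum` or similar;
`log ‖y t ·‖` is continuous, see the lemmas on `chi` in Lib/H67T). -/
theorem segre {τ : Type} [Fintype τ] {n : τ → ℕ} (y : (t : τ) → ℂ → Fin (n t + 1) → ℂ)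
    (hy : ∀ t, IsHol (y t)) :
    ∃ (N : ℕ) (Y : ℂ → Fin N → ℂ), IsHol Y ∧ ∀ r : ℝ, chi Y r = ∑ t, chi (y t) r := by
  classical
  let e := Fintype.equivFin ((t : τ) → Fin (n t + 1))
  have hnorm : ∀ z, ‖fun k => ∏ t, y t z (e.symm k t)‖ = ∏ t, ‖y t z‖ := fun z =>
    f02_norm (fun t => y t z) e
  refine ⟨_, fun z k => ∏ t, y t z (e.symm k t), ⟨fun k => ?_, fun z h => ?_⟩, fun r => ?_⟩
  · exact Differentiable.fun_finsetProd fun t _ => (hy t).diff (e.symm k t)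
  · have h1 := hnorm z
    rw [h, norm_zero] at h1
    exact (Finset.prod_ne_zero_iff.2 fun t _ => norm_ne_zero_iff.2 ((hy t).ne_zero z)) h1.symm
  · have h2 : (fun z => log ‖fun k => ∏ t, y t z (e.symm k t)‖) =
        fun z => ∑ t, log ‖y t z‖ := by
      funext z
      rw [hnorm z]
      exact log_prod fun t _ => norm_ne_zero_iff.2 ((hy t).ne_zero z)
    unfold chi
    rw [h2]
    exact circleAverage_fun_sum fun t _ => NM3_inty (hy t) 0 r

/-- CHUNK F02b.  Port of `H53Y.finish_smt` (Lib/H53Y/F13b.lean).  `Y` from `segre`.  Let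
`K = ∑ t, |chi (y t) 1|`, so `- K ≤ chi (y t) ρ` for `ρ ≥ 1` (`chi_mono`) and
`chi (y t) R ≤ chi Y R + K`.  Hence `err (y t) ρ R ≤ K' * err Y ρ R` (`log⁺ (a + K) ≤ log⁺ a + log⁺ K + log 2`,
`1 ≤ err`).  With `t0 t = r κ' t - cost t - (b t + δ t) r ≥ 0`:
`r ∑ (b t + δ t) chi (y t) ≤ r N + C ∑ err (y t) + ∑ t0 t K`, so with `δ = min δ t > 0` (if `τ` is empty take
`δ = 1`)
`δ * chi Y ρ ≤ (N' ρ - ∑ t, b t * chi (y t) ρ) + C'' * err Y ρ R`; apply `H89T.absorb` to `Y` with `a = δ`,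
`b = 0` and `N := fun ρ => N' ρ - ∑ t, b t * chi (y t) ρ`. -/
theorem finish_smtP {τ : Type} [Fintype τ] {n : ℕ} {y : τ → ℂ → Fin (n + 1) → ℂ} (hy : ∀ t, IsHol (y t))
    {r : ℕ} (κ' cost : τ → ℕ) (b δ : τ → ℝ) (hr : 1 ≤ r) (hδ : ∀ t, 0 < δ t)
    (hcost : ∀ t, (cost t : ℝ) ≤ r * κ' t - b t * r - δ t * r)
    {N N' : ℝ → ℝ} (hN : ∀ ρ, 1 ≤ ρ → N ρ ≤ N' ρ) {C : ℝ} (hC : 0 ≤ C)
    (h : ∀ ρ R : ℝ, 1 ≤ ρ → ρ < R →
      r * ∑ t, (κ' t : ℝ) * chi (y t) ρ ≤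
        r * N ρ + ∑ t, (cost t : ℝ) * chi (y t) ρ + C * ∑ t, err (y t) ρ R) :
    ∃ (C' : ℝ) (E : Set ℝ), volume E < ⊤ ∧ ∀ ρ : ℝ, 2 ≤ ρ → ρ ∉ E →
      ∑ t, b t * chi (y t) ρ ≤ N' ρ + C' * log ρ := by
  classical
  obtain ⟨M, Y, hY, hchi⟩ := segre y hy
  obtain ⟨δ₀, hδ₀, hδt⟩ : ∃ δ₀ : ℝ, 0 < δ₀ ∧ ∀ t, δ₀ ≤ δ t := by
    rcases isEmpty_or_nonempty τ with h0 | h0
    · exact ⟨1, one_pos, fun t => (h0.false t).elim⟩
    · obtain ⟨t, ht⟩ := Finite.exists_min δ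
      exact ⟨δ t, hδ t, ht⟩
  set K : ℝ := ∑ t, |chi (y t) 1| with hK
  have hK0 : 0 ≤ K := Finset.sum_nonneg fun t _ => abs_nonneg _
  have hr0 : (0 : ℝ) < r := by exact_mod_cast hr
  have hlow' : ∀ t ρ, 1 ≤ ρ → -|chi (y t) 1| ≤ chi (y t) ρ := fun t ρ hρ =>
    (neg_abs_le _).trans (chi_mono (hy t) one_pos hρ)
  have hlow : ∀ t ρ, 1 ≤ ρ → -K ≤ chi (y t) ρ := fun t ρ hρ => by
    have h1 := hlow' t ρ hρ
    have h2 : |chi (y t) 1| ≤ K :=
      Finset.single_le_sum (f := fun t => |chi (y t) 1|) (fun i _ => abs_nonneg _)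
        (Finset.mem_univ t)
    linarith
  have hup : ∀ t ρ, 1 ≤ ρ → chi (y t) ρ ≤ chi Y ρ + K := fun t ρ hρ => by
    have h1 : chi (y t) ρ + |chi (y t) 1| ≤ ∑ s, (chi (y s) ρ + |chi (y s) 1|) :=
      Finset.single_le_sum (f := fun s => chi (y s) ρ + |chi (y s) 1|)
        (fun i _ => by linarith [hlow' i ρ hρ]) (Finset.mem_univ t)
    rw [Finset.sum_add_distrib, ← hchi, ← hK] at h1
    have h2 := abs_nonneg (chi (y t) 1)
    linarith
  set K' : ℝ := 1 + log 2 + log⁺ K with hK'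
  have hK'0 : 0 ≤ K' := by
    have h1 : 0 ≤ log 2 := log_nonneg (by norm_num)
    have h2 := posLog_nonneg (x := K)
    rw [hK']
    linarith
  set T : τ → ℝ := fun t => r * κ' t - cost t - (b t + δ₀) * r with hT
  have hT0 : ∀ t, 0 ≤ T t := fun t => by
    have h1 := hcost t
    have h2 := hδt t
    have h3 : δ₀ * r ≤ δ t * r := mul_le_mul_of_nonneg_right h2 hr0.le
    simp only [hT]
    linarith
  have hT1 : 0 ≤ ∑ t, T t := Finset.sum_nonneg fun t _ => hT0 t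
  set C₁ : ℝ := C * (Fintype.card τ * K') + (∑ t, T t) * K with hC₁
  have hC₁0 : 0 ≤ C₁ :=
    add_nonneg (mul_nonneg hC (mul_nonneg (Nat.cast_nonneg _) hK'0)) (mul_nonneg hT1 hK0)
  obtain ⟨C', E, hE, hmain⟩ := absorb hY (a := δ₀) (b := 0) (C := C₁ / r) hδ₀
    (div_nonneg hC₁0 hr0.le) (N := fun ρ => N' ρ - ∑ t, b t * chi (y t) ρ) (by
      intro ρ R hρ hR
      have h1 := h ρ R hρ hR
      have h2 : ∑ t, err (y t) ρ R ≤ Fintype.card τ * K' * err Y ρ R := by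
        calc ∑ t, err (y t) ρ R ≤ ∑ _t : τ, K' * err Y ρ R :=
              Finset.sum_le_sum fun t _ =>
                f02_err hK0 (hlow t R (hρ.trans hR.le)) (hup t R (hρ.trans hR.le))
          _ = _ := by
              rw [Finset.sum_const, Finset.card_univ, nsmul_eq_mul, mul_assoc]
      have h3 : -((∑ t, T t) * K) ≤ ∑ t, T t * chi (y t) ρ := by
        rw [Finset.sum_mul, ← Finset.sum_neg_distrib]
        refine Finset.sum_le_sum fun t _ => ?_
        have h4 := mul_le_mul_of_nonneg_left (hlow t ρ hρ) (hT0 t)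
        linarith
      have h5 : ∑ t, T t * chi (y t) ρ = r * ∑ t, (κ' t : ℝ) * chi (y t) ρ -
          ∑ t, (cost t : ℝ) * chi (y t) ρ - r * ∑ t, b t * chi (y t) ρ - r * (δ₀ * chi Y ρ) := by
        rw [hchi, Finset.mul_sum, Finset.mul_sum, Finset.mul_sum, Finset.mul_sum,
          ← Finset.sum_sub_distrib, ← Finset.sum_sub_distrib, ← Finset.sum_sub_distrib]
        refine Finset.sum_congr rfl fun t _ => ?_
        simp only [hT]
        ring
      have h6 := f13b_err Y ρ R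
      have h7 : (∑ t, T t) * K ≤ (∑ t, T t) * K * err Y ρ R :=
        le_mul_of_one_le_right (mul_nonneg hT1 hK0) h6
      have h8 : C * ∑ t, err (y t) ρ R ≤ C * (Fintype.card τ * K' * err Y ρ R) :=
        mul_le_mul_of_nonneg_left h2 hC
      have h9 : (r : ℝ) * N ρ ≤ r * N' ρ := mul_le_mul_of_nonneg_left (hN ρ hρ) hr0.le
      have h10 : r * (C₁ / r * err Y ρ R) =
          C * (Fintype.card τ * K' * err Y ρ R) + (∑ t, T t) * K * err Y ρ R := by
        rw [← mul_assoc, mul_div_cancel₀ _ hr0.ne', hC₁]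
        ring
      refine le_of_mul_le_mul_left ?_ hr0
      rw [mul_add, h10, mul_sub]
      linarith)
  refine ⟨C', E, hE, fun ρ hρ hρE => ?_⟩
  have h1 := hmain ρ hρ hρE
  rw [zero_mul] at h1
  linarith

end Pool.Agent.H53R
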