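import Pool.Agent.Lib.H53R.FD
import Pool.Agent.Lib.H53Y.F09

set_option autoImplicit false

/-!
H53R, chunk F09 (S/M): the base point.
-/

open MvPolynomial Real MeasureTheory

namespace Pool.Agent.H53R

open Pool.Agent.H89T Pool.Agent.H78G Pool.Agent.H67T Pool.Agent.H53Y Pool.Agent.H49D

/-- CHUNK F09.  Port of `H53Y.exists_base` (Lib/H53Y/F09.lean): the same proof, `f09_chart (em (tl j)) ..`
for the form `j`. -/
theorem exists_baseP {nt N : ℕ} {τ ιL : Type} [Finite ιL] (tl : ιL → τ) (d : ιL → ℕ)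
    (em : τ → Fin N → Fin nt)
    (hem : ∀ t, Function.Injective (em t)) {J : Type} [Finite J] {υ : J → Type}
    (W : ∀ j, MvPolynomial (Fin nt ⊕ υ j) ℂ) (hW : ∀ j, W j ≠ 0)
    (WB : ∀ j : ιL, MvPolynomial (Fin N ⊕ Idx N (d j)) ℂ) (hWB : ∀ j, WB j ≠ 0) :
    ∃ x : Fin nt → ℂ, (∀ b, x b ≠ 0) ∧ (∀ j, ∃ a, eval (Sum.elim x a) (W j) ≠ 0) ∧
      ∀ (j : ιL) (k : Fin (N + 1)), ∃ G : MvPolynomial (Fin (N + 1)) ℂ, G.IsHomogeneous (d j) ∧
        eval (Sum.elim (bpt (fun b => x (em (tl j) b)) k) (cfF (d j) k G)) (WB j) ≠ 0 := by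
  choose pW hpW0 hpW using fun j => f09_W (W j) (hW j)
  choose pB hpB0 hpB using fun q : ιL × Fin (N + 1) =>
    f09_chart (em (tl q.1)) (hem (tl q.1)) q.2 (WB q.1) (hWB q.1)
  obtain ⟨x, hx⟩ := f09_family (Sum.elim (fun b : Fin nt => (X b : MvPolynomial (Fin nt) ℂ))
      (Sum.elim pW pB)) (by
    rintro (b | j | q)
    · exact X_ne_zero b
    · exact hpW0 j
    · exact hpB0 q)
  refine ⟨x, fun b => ?_, fun j => hpW j x (hx (Sum.inr (Sum.inl j))),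
    fun j k => hpB (j, k) x (hx (Sum.inr (Sum.inr (j, k))))⟩
  have h := hx (Sum.inl b)
  rw [Sum.elim_inl, eval_X] at h
  exact h

end Pool.Agent.H53R
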