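import Pool.Agent.Lib.H53R.FD
import Pool.Agent.Lib.H53Y.F10

set_option autoImplicit false

/-!
H53R, chunk F10 (M, three theorems): the coefficients of the factors are linear in `(g, θ)`.
-/

open MvPolynomial Real MeasureTheory

namespace Pool.Agent.H53R

open Pool.Agent.H89T Pool.Agent.H78G Pool.Agent.H67T Pool.Agent.H53Y Pool.Agent.H49D

variable {ιL κ τ σ : Type} {n c : ℕ} {m : σ → ℕ} {tl : ιL → τ} {sx : κ → σ} {d : ιL → ℕ}

/-- CHUNK F10a.  All forms occur, for all `j` at once.  As `H53Y.mvF_surj` (Lib/H53Y/F10.lean) with the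
base point `x (tl j)` for the form `j` (`mvF x g j` depends only on the `g ⟨j, δ⟩`; take
`g ⟨j, δ⟩ = coeff δ (rename (eqc n c).symm (shear (x (tl j)) (G j)))`). -/
theorem mvF_surjP (x : τ → Fin (n + c) → ℂ) (G : ιL → MvPolynomial (Fin (n + c + 1)) ℂ)
    (hG : ∀ j, (G j).IsHomogeneous (d j)) :
    ∃ g : FV (Fin (n + 1) ⊕ Fin c) d → ℂ, ∀ j, mvF (x (tl j)) g j = G j := by
  refine ⟨fun y => coeff y.2.1 (rename (eqc n c).symm (shear (x (tl y.1)) (G y.1))), fun j => ?_⟩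
  have h1 : ((rename (eqc n c).symm (shear (x (tl j)) (G j))) : MvPolynomial (Fin (n + 1) ⊕ Fin c) ℂ).IsHomogeneous
      (d j) := (shear_homogeneous (x (tl j)) (hG j)).rename_isHomogeneous
  rw [mvF, fmj, fm_coeff h1, rename_rename, Equiv.self_comp_symm, rename_id_apply]
  have h2 := shear_shear (fun b => - x (tl j) b) (G j)
  simp only [neg_neg] at h2
  exact h2

/-- CHUNK F10b.  Port of `H53Y.aO_poly`; `H53Y.mvF_poly` is reused. -/
theorem aP_poly (x : τ → Fin (n + c) → ℂ) (y : Cf (mP (n + c) m) (sbP tl sx) (dgO (κ := κ) d)) :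
    ∃ A : MvPolynomial (FV (Fin (n + 1) ⊕ Fin c) d ⊕ LV (fun t : κ => m (sx t))) ℂ,
      ∀ g θ, eval (Sum.elim g θ) A = aP x g θ y := by
  obtain ⟨j | t, α⟩ := y
  · obtain ⟨A, hA⟩ := mvF_poly (ιL := ιL) (d := d) (x (tl j)) j (ext (0 : Fin (n + c + 1)) (k := d j) α)
    refine ⟨rename Sum.inl A, fun g θ => ?_⟩
    rw [eval_rename, Sum.elim_comp_inl, hA]
    rfl
  · refine ⟨∑ b, X (Sum.inr ⟨t, b⟩) *
      C (coeff (ext (0 : Fin (m (sx t) + 1)) (k := 1) α) (X b : MvPolynomial (Fin (m (sx t) + 1)) ℂ)), fun g θ => ?_⟩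
    have h : aP (tl := tl) x g θ ⟨Sum.inr t, α⟩ =
        coeff (ext (0 : Fin (m (sx t) + 1)) (k := 1) α) (linF (fun b => θ ⟨t, b⟩)) := rfl
    rw [h, linF, coeff_sum, map_sum]
    refine Finset.sum_congr rfl fun b _ => ?_
    rw [map_mul, eval_X, eval_C, coeff_C_mul]
    rfl

/-- CHUNK F10c.  Port of `H53Y.aO_surj`; `H53Y.f10_lin` is reused. -/
theorem aP_surj (x : τ → Fin (n + c) → ℂ)
    (a : Cf (mP (n + c) m) (sbP tl sx) (dgO (κ := κ) d) → ℂ) :
    ∃ g θ, aP (tl := tl) (sx := sx) x g θ = a := by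
  choose G hG hGa using fun j : ιL => exists_form (n := n + c) (k := d j) 0 fun α => a ⟨Sum.inl j, α⟩
  choose H hH hHa using fun t : κ => exists_form (n := m (sx t)) (k := 1) 0 fun α => a ⟨Sum.inr t, α⟩
  obtain ⟨g, hg⟩ := mvF_surjP (tl := tl) x G hG
  refine ⟨g, fun y => coeff (Finsupp.single y.2 1) (H y.1), ?_⟩
  funext y
  obtain ⟨j | t, α⟩ := y
  · have h : aP (tl := tl) x g (fun y : LV (fun y : κ => m (sx y)) => coeff (Finsupp.single y.2 1) (H y.1))
        ⟨Sum.inl j, α⟩ = cfF (d j) 0 (mvF (x (tl j)) g j) α := rfl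
    rw [h, hg, hGa]
  · have h : aP (tl := tl) x g (fun y : LV (fun y : κ => m (sx y)) => coeff (Finsupp.single y.2 1) (H y.1))
        ⟨Sum.inr t, α⟩ = cfF 1 0 (linF (fun b => coeff (Finsupp.single b 1) (H t))) α := rfl
    rw [h, f10_lin (hH t), hHa]

end Pool.Agent.H53R
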