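import Pool.Agent.Lib.H53R.F09
import Pool.Agent.Lib.H53R.F10
import Pool.Agent.Lib.H53Y.F11

set_option autoImplicit false

/-!
H53R, chunk F11 (M, two theorems): the good polynomials `Θ S`.
-/

open MvPolynomial Real MeasureTheory

namespace Pool.Agent.H53R

open Pool.Agent.H89T Pool.Agent.H78G Pool.Agent.H67T Pool.Agent.H53Y Pool.Agent.H49D

theorem f11_idxP {ιL κ τ σ : Type} {tl : ιL → τ} {sx : κ → σ} {s : σ}
    (y : {i : ιL ⊕ κ // sbP tl sx i = Sum.inr s}) :
    ∃ x : κ, y.1 = Sum.inr x ∧ sx x = s := by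
  obtain ⟨i, hi⟩ := y
  rcases i with j | x
  · exact absurd hi (by
      intro h
      have h1 : (Sum.inl (tl j) : τ ⊕ σ) = Sum.inr s := h
      exact absurd h1 (by simp))
  · exact ⟨x, rfl, Sum.inr.inj hi⟩

/-- The entries of `thP` are variables. -/
theorem f11_thP {ιL κ τ σ : Type} {N : ℕ} {m : σ → ℕ} {tl : ιL → τ} {sx : κ → σ} {s : σ}
    (y : {i : ιL ⊕ κ // sbP tl sx i = Sum.inr s}) (x : κ) (hx : y.1 = Sum.inr x)
    (hs : m s + 1 = m (sx x) + 1)
    (G : ιL → MvPolynomial (Fin (N + 1)) ℂ) (θ : LV (fun x : κ => m (sx x)) → ℂ) (b : Fin (m s + 1)) :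
    thP (m := m) (tl := tl) (sx := sx) G θ s y b = θ ⟨x, Fin.cast hs b⟩ := by
  obtain ⟨i, hi⟩ := y
  obtain rfl : i = Sum.inr x := hx
  exact f11_coeff (fun b => θ ⟨x, b⟩) (Fin.cast hs b)

/-- CHUNK F11a.  Port of `H53Y.exists_gen` (Lib/H53Y/F11.lean; `f11_coeff`, `f11_cast` are reused, `f11_idx`,
`f11_thO` have to be ported to `sbP`, `thP`). -/
theorem exists_genP {ιL κ τ σ : Type} [Finite ιL] [Finite κ] {N : ℕ} {m : σ → ℕ} {tl : ιL → τ}
    {sx : κ → σ} (s : σ) :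
    ∃ Θ : MvPolynomial (LV (fun x : κ => m (sx x))) ℂ, Θ ≠ 0 ∧
      ∀ (G : ιL → MvPolynomial (Fin (N + 1)) ℂ) (θ : LV (fun x : κ => m (sx x)) → ℂ),
        eval θ Θ ≠ 0 → GenPos (thP (m := m) (tl := tl) (sx := sx) G θ s) := by
  classical
  have hft := Fintype.ofFinite {i : ιL ⊕ κ // sbP tl sx i = Sum.inr s}
  choose ix hix hsx using fun y : {i : ιL ⊕ κ // sbP tl sx i = Sum.inr s} => f11_idxP y
  have hms : ∀ y, m s + 1 = m (sx (ix y)) + 1 := fun y => by rw [hsx]
  have hinj : Function.Injective ix := by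
    intro y y' h
    apply Subtype.ext
    rw [hix y, hix y', h]
  refine ⟨∏ f : Fin (m s + 1) ↪ {i : ιL ⊕ κ // sbP tl sx i = Sum.inr s},
    Matrix.det (Matrix.of fun a b : Fin (m s + 1) =>
      (X ⟨ix (f a), Fin.cast (hms (f a)) b⟩ : MvPolynomial (LV (fun x : κ => m (sx x))) ℂ)), ?_, ?_⟩
  · refine Finset.prod_ne_zero_iff.2 fun f _ h0 => ?_
    have h1 := congrArg (eval (fun p : LV (fun x : κ => m (sx x)) =>
      if ∃ a : Fin (m s + 1), p.1 = ix (f a) ∧ (p.2 : ℕ) = a then (1 : ℂ) else 0)) h0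
    rw [map_zero, RingHom.map_det] at h1
    have h2 : (eval (fun p : LV (fun x : κ => m (sx x)) =>
        if ∃ a : Fin (m s + 1), p.1 = ix (f a) ∧ (p.2 : ℕ) = a then (1 : ℂ) else 0)).mapMatrix
        (Matrix.of fun a b : Fin (m s + 1) =>
          (X ⟨ix (f a), Fin.cast (hms (f a)) b⟩ : MvPolynomial (LV (fun x : κ => m (sx x))) ℂ)) = 1 := by
      ext a b
      rw [RingHom.mapMatrix_apply, Matrix.map_apply, Matrix.of_apply, eval_X, Matrix.one_apply]
      by_cases hab : a = b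
      · rw [if_pos hab, if_pos]
        exact ⟨a, rfl, by rw [f11_cast, hab]⟩
      · rw [if_neg hab, if_neg]
        rintro ⟨a', h3, h4⟩
        have h5 : a = a' := f.injective (hinj h3)
        rw [f11_cast] at h4
        apply hab
        rw [h5]
        exact Fin.ext h4.symm
    rw [h2, Matrix.det_one] at h1
    exact one_ne_zero h1
  · intro G θ hθ f hf
    rw [map_prod, Finset.prod_ne_zero_iff] at hθ
    have h1 := hθ ⟨f, hf⟩ (Finset.mem_univ _)
    rw [RingHom.map_det] at h1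
    intro h0
    apply h1
    refine Eq.trans ?_ h0
    congr 1
    ext a b
    rw [RingHom.mapMatrix_apply, Matrix.map_apply, Matrix.of_apply, Matrix.of_apply, eval_X]
    exact (f11_thP (f a) (ix (f a)) (hix (f a)) (hms (f a)) G θ b).symm

/-- CHUNK F11b.  Port of `H53Y.exists_good` with `em t b = e ⟨inl t, b⟩`, `exists_baseP`, `aP_poly`,
`aP_surj`, `mvF_surjP`, `exists_genP`. -/
theorem exists_goodP {n c nt nb : ℕ} {ιL τ σ κ : Type} [Fintype ιL] [Fintype σ] [DecidableEq σ]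
    [Fintype τ] [DecidableEq τ] [Fintype κ] (tl : ιL → τ) (d : ιL → ℕ) (m : σ → ℕ) (sx : κ → σ)
    (part : κ → Fin nb) (e : Co (mP (τ := τ) (n + c) m) ≃ Fin nt)
    (W : (S : Finset (Fin nb)) → MvPolynomial (Fin nt ⊕ Cf (mP (n + c) m)
      (sbP tl (fun x : {x : κ // part x ∉ S} => sx x.1)) (dgO d)) ℂ)
    (hW : ∀ S, W S ≠ 0)
    (WB : ∀ j : ιL, MvPolynomial (Fin (n + c) ⊕ Idx (n + c) (d j)) ℂ) (hWB : ∀ j, WB j ≠ 0) :
    ∃ x : Fin nt → ℂ, (∀ b, x b ≠ 0) ∧
      ∃ Θ : (S : Finset (Fin nb)) → MvPolynomial (FV (Fin (n + 1) ⊕ Fin c) d ⊕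
        LV (fun x : {x : κ // part x ∉ S} => m (sx x.1))) ℂ, (∀ S, Θ S ≠ 0) ∧
      ∀ S g θ, eval (Sum.elim g θ) (Θ S) ≠ 0 →
        eval (Sum.elim x (aP (tl := tl) (fun t b => x (e ⟨Sum.inl t, b⟩)) g θ)) (W S) ≠ 0 ∧
        (∀ (j : ιL) (k : Fin (n + c + 1)),
          eval (Sum.elim (bpt (fun b => x (e ⟨Sum.inl (tl j), b⟩)) k)
            (cfF (d j) k (mvF (fun b => x (e ⟨Sum.inl (tl j), b⟩)) g j))) (WB j) ≠ 0) ∧
        ∀ s, GenPos (thP (m := m) (tl := tl) (sx := fun x : {x : κ // part x ∉ S} => sx x.1)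
          (fun j => mvF (fun b => x (e ⟨Sum.inl (tl j), b⟩)) g j) θ s) := by
  classical
  have hem : ∀ t : τ, Function.Injective fun b : Fin (n + c) => e ⟨Sum.inl t, b⟩ := by
    intro t b b' h
    have h1 : (⟨Sum.inl t, b⟩ : Co (mP (τ := τ) (n + c) m)) = ⟨Sum.inl t, b'⟩ := e.injective h
    exact eq_of_heq (Sigma.mk.inj h1).2
  obtain ⟨x, hx0, hxW, hxB⟩ := exists_baseP (N := n + c) tl d
    (fun (t : τ) (b : Fin (n + c)) => e ⟨Sum.inl t, b⟩) hem W hW WB hWB
  refine ⟨x, hx0, ?_⟩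
  have key : ∀ S : Finset (Fin nb), ∃ Θ : MvPolynomial (FV (Fin (n + 1) ⊕ Fin c) d ⊕
        LV (fun x : {x : κ // part x ∉ S} => m (sx x.1))) ℂ, Θ ≠ 0 ∧
      ∀ g θ, eval (Sum.elim g θ) Θ ≠ 0 →
        eval (Sum.elim x (aP (tl := tl) (fun t b => x (e ⟨Sum.inl t, b⟩)) g θ)) (W S) ≠ 0 ∧
        (∀ (j : ιL) (k : Fin (n + c + 1)),
          eval (Sum.elim (bpt (fun b => x (e ⟨Sum.inl (tl j), b⟩)) k)
            (cfF (d j) k (mvF (fun b => x (e ⟨Sum.inl (tl j), b⟩)) g j))) (WB j) ≠ 0) ∧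
        ∀ s, GenPos (thP (m := m) (tl := tl) (sx := fun x : {x : κ // part x ∉ S} => sx x.1)
          (fun j => mvF (fun b => x (e ⟨Sum.inl (tl j), b⟩)) g j) θ s) := by
    intro S
    choose A hA using fun y => aP_poly (κ := {x : κ // part x ∉ S}) (m := m) (tl := tl)
      (sx := fun x : {x : κ // part x ∉ S} => sx x.1) (d := d)
      (fun (t : τ) (b : Fin (n + c)) => x (e ⟨Sum.inl t, b⟩)) y
    choose B hB using fun (j : ιL) (γ : Fin (n + c + 1) →₀ ℕ) =>
      mvF_poly (d := d) (fun b => x (e ⟨Sum.inl (tl j), b⟩)) j γ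
    choose T hT0 hT using fun s : σ => exists_genP (ιL := ιL) (κ := {x : κ // part x ∉ S})
      (N := n + c) (m := m) (tl := tl) (sx := fun x : {x : κ // part x ∉ S} => sx x.1) s
    obtain ⟨P1, hP1⟩ : ∃ P1 : MvPolynomial (FV (Fin (n + 1) ⊕ Fin c) d ⊕
        LV (fun x : {x : κ // part x ∉ S} => m (sx x.1))) ℂ,
        P1 = aeval (Sum.elim (fun b => C (x b)) A) (W S) := ⟨_, rfl⟩
    have hP1e : ∀ g θ, eval (Sum.elim g θ) P1 =
        eval (Sum.elim x (aP (tl := tl) (fun t b => x (e ⟨Sum.inl t, b⟩)) g θ)) (W S) := by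
      intro g θ
      rw [hP1, f09_ea]
      congr 2
      funext i
      rcases i with i | i
      · exact eval_C _
      · exact hA i g θ
    obtain ⟨P2, hP2⟩ : ∃ P2 : ιL × Fin (n + c + 1) → MvPolynomial (FV (Fin (n + 1) ⊕ Fin c) d) ℂ,
        ∀ q, P2 q = aeval (Sum.elim (fun b => C (bpt (fun b => x (e ⟨Sum.inl (tl q.1), b⟩)) q.2 b))
          (fun α => B q.1 (ext q.2 α))) (WB q.1) := ⟨_, fun _ => rfl⟩
    have hP2e : ∀ q g, eval g (P2 q) = eval (Sum.elim (bpt (fun b => x (e ⟨Sum.inl (tl q.1), b⟩)) q.2)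
        (cfF (d q.1) q.2 (mvF (fun b => x (e ⟨Sum.inl (tl q.1), b⟩)) g q.1))) (WB q.1) := by
      intro q g
      rw [hP2]
      refine (f09_ea _ _ _).trans ?_
      congr 2
      funext i
      rcases i with i | i
      · exact eval_C _
      · exact hB q.1 (ext q.2 i) g
    refine ⟨P1 * (∏ q, rename Sum.inl (P2 q)) * ∏ s, rename Sum.inr (T s), ?_, ?_⟩
    · refine mul_ne_zero (mul_ne_zero ?_ ?_) ?_
      · intro h0
        obtain ⟨a, ha⟩ := hxW S
        obtain ⟨g, θ, hg⟩ := aP_surj (κ := {x : κ // part x ∉ S}) (m := m) (tl := tl)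
          (sx := fun x : {x : κ // part x ∉ S} => sx x.1) (d := d)
          (fun (t : τ) (b : Fin (n + c)) => x (e ⟨Sum.inl t, b⟩)) a
        have h1 := hP1e g θ
        rw [h0, map_zero, hg] at h1
        exact ha h1.symm
      · refine Finset.prod_ne_zero_iff.2 fun q _ h0 => ?_
        have h0' : P2 q = 0 := rename_injective _ Sum.inl_injective (by rw [h0, map_zero])
        obtain ⟨G, hG, hGne⟩ := hxB q.1 q.2
        obtain ⟨g, hg⟩ := mvF_surjP (tl := tl) (d := d)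
          (fun (t : τ) (b : Fin (n + c)) => x (e ⟨Sum.inl t, b⟩))
          (fun j => if j = q.1 then G else 0) (fun j => by
            by_cases hj : j = q.1
            · rw [if_pos hj, hj]
              exact hG
            · rw [if_neg hj]
              exact isHomogeneous_zero _ _ _)
        have h1 := hP2e q g
        have h2 := (hg q.1).trans (if_pos rfl)
        rw [h0', map_zero] at h1
        apply hGne
        refine Eq.trans ?_ h1.symm
        exact congrArg (fun G' => eval (Sum.elim (bpt (fun b => x (e ⟨Sum.inl (tl q.1), b⟩)) q.2)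
          (cfF (d q.1) q.2 G')) (WB q.1)) h2.symm
      · refine Finset.prod_ne_zero_iff.2 fun s _ h0 => ?_
        exact hT0 s (rename_injective _ Sum.inr_injective (by rw [h0, map_zero]))
    · intro g θ h
      rw [map_mul, map_mul, map_prod, map_prod] at h
      have h1 := left_ne_zero_of_mul (left_ne_zero_of_mul h)
      have h2 := Finset.prod_ne_zero_iff.1 (right_ne_zero_of_mul (left_ne_zero_of_mul h))
      have h3 := Finset.prod_ne_zero_iff.1 (right_ne_zero_of_mul h)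
      refine ⟨?_, fun j k => ?_, fun s => ?_⟩
      · rw [← hP1e]
        exact h1
      · have h4 := h2 (j, k) (Finset.mem_univ _)
        rw [eval_rename] at h4
        have h5 := hP2e (j, k) g
        rw [← h5]
        exact h4
      · have h4 := h3 s (Finset.mem_univ _)
        rw [eval_rename] at h4
        exact hT s _ θ h4
  choose Θ hΘ0 hΘ using key
  exact ⟨Θ, hΘ0, hΘ⟩

end Pool.Agent.H53R
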