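import Pool.Agent.Lib.H53R.FD
import Pool.Agent.Lib.H53Y.F12

set_option autoImplicit false

/-!
H53R, chunk F12 (S/M, two theorems): the values of the factors on the curve.
-/

open MvPolynomial Real MeasureTheory

namespace Pool.Agent.H53R

open Pool.Agent.H89T Pool.Agent.H78G Pool.Agent.H67T Pool.Agent.H53Y Pool.Agent.H49D

variable {n c nt : ℕ} {ιL τ σ κ : Type} [Fintype ιL] [Fintype κ]
variable {d : ιL → ℕ} {m de : σ → ℕ} {tl : ιL → τ} {ts : σ → τ} {sx : κ → σ}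

/-- CHUNK F12a.  Port of `H53Y.eval_FO_inl` (Lib/H53Y/F12.lean): `eval_crv` (H53Y/F06) for
`extC f (A (tl j)) lam (sE (tl j)) E`; `mvF x g j` depends only on the `g ⟨j, δ⟩`, and
`extP tl f A lam sE E ⟨j, δ⟩ = extC f (A (tl j)) lam (sE (tl j)) E ⟨j, δ⟩` by definition. -/
theorem eval_FP_inl (hd : ∀ j, 1 ≤ d j) (xL : τ → Fin (n + c) → ℂ) (sE : τ → Fin c → Fin n → ℂ)
    {A A' : τ → Matrix (Fin (n + 1)) (Fin (n + 1)) ℂ} (hAA : ∀ t, A t * A' t = 1)
    (Lb : (s : σ) → Matrix (Fin (m s + 1)) (Fin (NV n (de s) + 1)) ℂ)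
    (f : FV (Fin (n + 1)) d → ℂ) (lam : ιL → ℂ)
    (E : ιL → Fin c → MvPolynomial (Fin (n + 1) ⊕ Fin c) ℂ)
    (hE : ∀ j i, (E j i).IsHomogeneous (d j - 1)) (y : τ → ℂ → Fin (n + 1) → ℂ)
    (θ : LV (fun t : κ => m (sx t)) → ℂ) (j : ιL) (z : ℂ) :
    eval (wP ts xL sE A' Lb y (sbP tl sx (Sum.inl j : ιL ⊕ κ)) z)
      (FP (N := n + c) (m := m) (tl := tl) (sx := sx)
        (fun j => mvF (xL (tl j)) (extP tl f A lam sE E) j) θ (Sum.inl j)) =
      lam j * eval (y (tl j) z) (fmj f j) := by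
  have h := eval_crv hd (xL (tl j)) (sE (tl j)) f (A (tl j)) lam E hE
    (fun z => (A' (tl j)).mulVec (y (tl j) z)) z j
  rw [Matrix.mulVec_mulVec, hAA, Matrix.one_mulVec] at h
  have e0 : (fun δ : Ex (Fin (n + 1) ⊕ Fin c) (d j) => extP tl f A lam sE E ⟨j, δ⟩) =
      fun δ => extC f (A (tl j)) lam (sE (tl j)) E ⟨j, δ⟩ := by
    funext δ
    rw [extP, extC]
  have e1 : fmj (extP tl f A lam sE E) j = fmj (extC f (A (tl j)) lam (sE (tl j)) E) j := by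
    rw [fmj, fmj, e0]
  have e2 : mvF (xL (tl j)) (extP tl f A lam sE E) j =
      mvF (xL (tl j)) (extC f (A (tl j)) lam (sE (tl j)) E) j := by
    rw [mvF, mvF, e1]
  show eval (crv (xL (tl j)) (sE (tl j)) (fun z => (A' (tl j)).mulVec (y (tl j) z)) z)
    (mvF (xL (tl j)) (extP tl f A lam sE E) j) = _
  rw [e2]
  exact h

/-- CHUNK F12b.  Port of `H53Y.eval_FO_inr`. -/
theorem eval_FP_inr (xL : τ → Fin (n + c) → ℂ) (sE : τ → Fin c → Fin n → ℂ)
    (A' : τ → Matrix (Fin (n + 1)) (Fin (n + 1)) ℂ)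
    {Lam : (s : σ) → Matrix (Fin (NV n (de s) + 1)) (Fin (m s + 1)) ℂ}
    {Lb : (s : σ) → Matrix (Fin (m s + 1)) (Fin (NV n (de s) + 1)) ℂ}
    {y : τ → ℂ → Fin (n + 1) → ℂ}
    (hspan : ∀ s z, (Lam s).mulVec ((Lb s).mulVec (ver n (de s) (y (ts s) z))) =
      ver n (de s) (y (ts s) z))
    (G : ιL → MvPolynomial (Fin (n + c + 1)) ℂ)
    (η : LV (fun t : κ => NV n (de (sx t))) → ℂ) (t : κ) (z : ℂ) :
    eval (wP ts xL sE A' Lb y (sbP tl sx (Sum.inr t : ιL ⊕ κ)) z)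
      (FP (N := n + c) (m := m) (tl := tl) (sx := sx) G (thR η Lam) (Sum.inr t)) =
      lin (fun l => η ⟨t, l⟩) (ver n (de (sx t)) (y (ts (sx t)) z)) := by
  have h1 : ∀ {M : ℕ} (v w : Fin (M + 1) → ℂ), eval w (linF v) = ∑ b, v b * w b := by
    intro M v w
    rw [linF, map_sum]
    exact Finset.sum_congr rfl fun b _ => by rw [map_mul, eval_C, eval_X]
  have h2 := h1 (fun b => thR η Lam ⟨t, b⟩)
    ((Lb (sx t)).mulVec (ver n (de (sx t)) (y (ts (sx t)) z)))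
  have h3 : ∑ b, thR η Lam ⟨t, b⟩ * (Lb (sx t)).mulVec (ver n (de (sx t)) (y (ts (sx t)) z)) b =
      lin (fun l => η ⟨t, l⟩) (ver n (de (sx t)) (y (ts (sx t)) z)) := by
    have h4 := hspan (sx t) z
    calc ∑ b, thR η Lam ⟨t, b⟩ * (Lb (sx t)).mulVec (ver n (de (sx t)) (y (ts (sx t)) z)) b
        = ∑ b, ∑ l, η ⟨t, l⟩ *
            (Lam (sx t) l b * (Lb (sx t)).mulVec (ver n (de (sx t)) (y (ts (sx t)) z)) b) := by
          refine Finset.sum_congr rfl fun b _ => ?_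
          rw [thR, Finset.sum_mul]
          exact Finset.sum_congr rfl fun l _ => mul_assoc _ _ _
      _ = ∑ l, η ⟨t, l⟩ *
            ((Lam (sx t)).mulVec ((Lb (sx t)).mulVec (ver n (de (sx t)) (y (ts (sx t)) z)))) l := by
          rw [Finset.sum_comm]
          refine Finset.sum_congr rfl fun l _ => ?_
          rw [← Finset.mul_sum]
          rfl
      _ = lin (fun l => η ⟨t, l⟩) (ver n (de (sx t)) (y (ts (sx t)) z)) := by
          rw [h4]
          rfl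
  exact h2.trans h3

end Pool.Agent.H53R
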