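import Pool.Agent.Lib.H53R.F12
import Pool.Agent.Lib.H53Y.F12b

set_option autoImplicit false

/-!
H53R, chunk F12b (M/L): the data of the curve.
-/

open MvPolynomial Real MeasureTheory

namespace Pool.Agent.H53R

open Pool.Agent.H89T Pool.Agent.H78G Pool.Agent.H67T Pool.Agent.H53Y Pool.Agent.H49D

/-- CHUNK F12b1.  Two nonvanishing curves of comparable size (from the bounds of the norms, as in the
proof of `H53Y.exists_curveY`): if `‖w z‖ ≤ A ‖y z‖ ^ e` and `δ ‖y z‖ ^ e ≤ ‖w z‖` with `δ > 0` then the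
characteristics differ by a constant: `|log ‖w z‖ - e log ‖y z‖| ≤ K`, take circle averages (the
functions are continuous).  `err w ρ R = 1 + log⁺ (chi w R) + .. ≤ K (1 + log⁺ (chi y R) + ..)` because
`chi w R ≤ e chi y R + K`: `log⁺ (a b) ≤ log⁺ a + log⁺ b`, `log⁺ (a + K) ≤ log⁺ a + log⁺ K + log 2`. -/
theorem chi_compare {M N : ℕ} {w : ℂ → Fin M → ℂ} {y : ℂ → Fin N → ℂ} (hw : IsHol w) (hy : IsHol y)
    {e : ℕ} {A δ : ℝ} (hδ : 0 < δ) (h1 : ∀ z, ‖w z‖ ≤ A * ‖y z‖ ^ e)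
    (h2 : ∀ z, δ * ‖y z‖ ^ e ≤ ‖w z‖) :
    ∃ K : ℝ, 0 ≤ K ∧ (∀ ρ, |chi w ρ - e * chi y ρ| ≤ K) ∧
      ∀ ρ R, 1 ≤ ρ → ρ < R → err w ρ R ≤ K * err y ρ R := by
  have hyc : Continuous fun z => log ‖y z‖ := NM3_cont hy
  have hwc : Continuous fun z => log ‖w z‖ := NM3_cont hw
  have hy0 : ∀ z, 0 < ‖y z‖ := fun z => norm_pos_iff.2 (hy.ne_zero z)
  have hw0 : ∀ z, 0 < ‖w z‖ := fun z => norm_pos_iff.2 (hw.ne_zero z)
  have hA : 0 < A := by
    by_contra hA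
    have h3 := h1 0
    have h4 : A * ‖y 0‖ ^ e ≤ 0 :=
      mul_nonpos_of_nonpos_of_nonneg (not_lt.1 hA) (pow_nonneg (norm_nonneg _) _)
    linarith [hw0 0]
  have hup : ∀ z, log ‖w z‖ ≤ e * log ‖y z‖ + log A := by
    intro z
    have h3 := Real.log_le_log (hw0 z) (h1 z)
    rw [Real.log_mul hA.ne' (pow_pos (hy0 z) _).ne', Real.log_pow] at h3
    linarith
  have hlo : ∀ z, e * log ‖y z‖ + log δ ≤ log ‖w z‖ := by
    intro z
    have h3 := Real.log_le_log (mul_pos hδ (pow_pos (hy0 z) e)) (h2 z)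
    rw [Real.log_mul hδ.ne' (pow_pos (hy0 z) _).ne', Real.log_pow] at h3
    linarith
  have hiy : ∀ ρ, CircleIntegrable (fun z => (e : ℝ) * log ‖y z‖) 0 ρ := fun ρ =>
    (continuous_const.mul hyc).continuousOn.circleIntegrable'
  have hiw : ∀ ρ, CircleIntegrable (fun z => log ‖w z‖) 0 ρ := fun ρ =>
    hwc.continuousOn.circleIntegrable'
  have hic : ∀ (c : ℝ) ρ, CircleIntegrable (fun _ : ℂ => c) 0 ρ := fun c ρ =>
    continuousOn_const.circleIntegrable'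
  have hav : ∀ (c : ℝ) ρ, circleAverage (fun z => (e : ℝ) * log ‖y z‖ + c) 0 ρ =
      e * chi y ρ + c := by
    intro c ρ
    rw [Real.circleAverage_fun_add (hiy ρ) (hic c ρ), Real.circleAverage_const]
    have h3 : circleAverage (fun z => (e : ℝ) • log ‖y z‖) 0 ρ =
        (e : ℝ) • circleAverage (fun z => log ‖y z‖) 0 ρ := Real.circleAverage_fun_smul
    simp only [smul_eq_mul] at h3
    rw [h3]
    rfl
  have hb : ∀ ρ, |chi w ρ - e * chi y ρ| ≤ |log A| + |log δ| := by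
    intro ρ
    have h3 : chi w ρ ≤ e * chi y ρ + log A := by
      rw [← hav]
      exact Real.circleAverage_mono (hiw ρ) ((hiy ρ).add (hic _ ρ)) fun z _ => hup z
    have h4 : e * chi y ρ + log δ ≤ chi w ρ := by
      rw [← hav]
      exact Real.circleAverage_mono ((hiy ρ).add (hic _ ρ)) (hiw ρ) fun z _ => hlo z
    have h5 := le_abs_self (log A)
    have h6 := neg_abs_le (log δ)
    have h7 := abs_nonneg (log A)
    have h8 := abs_nonneg (log δ)
    rw [abs_le]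
    constructor <;> linarith
  set K0 : ℝ := |log A| + |log δ| with hK0
  have hK0' : 0 ≤ K0 := by positivity
  have hp1 : 0 ≤ log⁺ (e : ℝ) := posLog_nonneg
  have hp2 : 0 ≤ log⁺ K0 := posLog_nonneg
  have hp3 : 0 ≤ log (2 : ℝ) := Real.log_nonneg (by norm_num)
  refine ⟨K0 + (1 + (log 2 + log⁺ (e : ℝ) + log⁺ K0)), by positivity, fun ρ => ?_, ?_⟩
  · exact (hb ρ).trans (by linarith)
  · intro ρ R hρ hR
    have h3 : |chi w R| ≤ e * |chi y R| + K0 := by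
      have h4 := hb R
      have h5 : chi w R = (chi w R - e * chi y R) + e * chi y R := by ring
      have h6 : |(e : ℝ) * chi y R| = e * |chi y R| := by
        rw [abs_mul, Nat.abs_cast]
      calc |chi w R| = |(chi w R - e * chi y R) + e * chi y R| := by rw [← h5]
        _ ≤ |chi w R - e * chi y R| + |(e : ℝ) * chi y R| := abs_add_le _ _
        _ ≤ e * |chi y R| + K0 := by rw [h6]; linarith
    have h4 : log⁺ (chi w R) ≤ log 2 + (log⁺ (e : ℝ) + log⁺ (chi y R)) + log⁺ K0 := by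
      rw [← posLog_abs (chi w R)]
      refine (posLog_le_posLog (abs_nonneg _) h3).trans ?_
      refine posLog_add.trans ?_
      have h5 : log⁺ ((e : ℝ) * |chi y R|) ≤ log⁺ (e : ℝ) + log⁺ (chi y R) := by
        refine posLog_mul.trans ?_
        rw [posLog_abs]
      linarith
    have hq1 : 0 ≤ log⁺ (chi y R) := posLog_nonneg
    have hq2 : 0 ≤ log⁺ (1 / (R - ρ)) := posLog_nonneg
    have hq3 : 0 ≤ log⁺ R := posLog_nonneg
    unfold err
    set c0 : ℝ := log 2 + log⁺ (e : ℝ) + log⁺ K0 with hc0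
    have hc0' : 0 ≤ c0 := by positivity
    set T : ℝ := 1 + log⁺ (chi y R) + log⁺ (1 / (R - ρ)) + log⁺ R with hT
    have hT1 : 1 ≤ T := by linarith
    have h6 : 0 ≤ K0 * T := mul_nonneg hK0' (by linarith)
    have h7 : c0 * 1 ≤ c0 * T := mul_le_mul_of_nonneg_left hT1 hc0'
    have h8 : 1 + log⁺ (chi w R) + log⁺ (1 / (R - ρ)) + log⁺ R ≤ T + c0 := by
      rw [hT, hc0]
      linarith
    calc 1 + log⁺ (chi w R) + log⁺ (1 / (R - ρ)) + log⁺ R ≤ T + c0 := h8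
      _ ≤ (K0 + (1 + c0)) * T := by nlinarith

/-- CHUNK F12b2 (M/L).  Port of `H53Y.exists_curveY` (Lib/H53Y/F12b.lean); the new structure `CurveW` has no
field `y`.  Fields: `w := wP ts xL sE A' Lb y`, `F := FP .. (thR η Lam)`.
* `hw (inl t)`: `linear_image` (twice), as in the old proof; `hw (inr s)`: the coordinates are entire, and
  `Lb v ≠ 0` for `v = ver .. ≠ 0` because `Lam (Lb v) = v`.
* `hw0`, `hF`, `hF0`: as before at `z₀` with `eval_FP_inl`, `eval_FP_inr`.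
* the comparison of the norms: as before (for `inl t` the exponent is `1`, for `inr s` it is `de s`). -/
theorem exists_curveW {n c nt : ℕ} {ιL τ σ κ : Type} [Fintype ιL] [Fintype κ]
    {d : ιL → ℕ} {m de : σ → ℕ} {tl : ιL → τ} {ts : σ → τ} {sx : κ → σ} (hd : ∀ j, 1 ≤ d j)
    (e : Co (mP (τ := τ) (n + c) m) ≃ Fin nt)
    {y : τ → ℂ → Fin (n + 1) → ℂ} (hy : ∀ t, IsHol (y t))
    {A A' : τ → Matrix (Fin (n + 1)) (Fin (n + 1)) ℂ} (hAA : ∀ t, A t * A' t = 1)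
    (hA'A : ∀ t, A' t * A t = 1)
    {z₀ : ℂ} (hz₀ : ∀ t, (A' t).mulVec (y t z₀) = Pi.single 0 1)
    {Lam : (s : σ) → Matrix (Fin (NV n (de s) + 1)) (Fin (m s + 1)) ℂ}
    {Lb : (s : σ) → Matrix (Fin (m s + 1)) (Fin (NV n (de s) + 1)) ℂ}
    (hspan : ∀ s z, (Lam s).mulVec ((Lb s).mulVec (ver n (de s) (y (ts s) z))) =
      ver n (de s) (y (ts s) z))
    {x : Fin nt → ℂ} (hx : ∀ b, x b ≠ 0)
    (hw : ∀ s, (Lb s).mulVec (ver n (de s) (y (ts s) z₀)) =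
      Fin.cons 1 (fun b => x (e ⟨Sum.inr s, b⟩)))
    (f : FV (Fin (n + 1)) d → ℂ) (η : LV (fun t : κ => NV n (de (sx t))) → ℂ)
    (hf0 : ∀ j, eval (y (tl j) z₀) (fmj f j) ≠ 0)
    (hη0 : ∀ t, lin (fun l => η ⟨t, l⟩) (ver n (de (sx t)) (y (ts (sx t)) z₀)) ≠ 0)
    {lam : ιL → ℂ} (sE : τ → Fin c → Fin n → ℂ)
    {E : ιL → Fin c → MvPolynomial (Fin (n + 1) ⊕ Fin c) ℂ} (hlam : ∀ j, lam j ≠ 0)
    (hE : ∀ j i, (E j i).IsHomogeneous (d j - 1)) :
    (∃ D : CurveW (mP (n + c) m) (ιL ⊕ κ) (sbP tl sx) (dgO d),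
      D.w = wP ts (fun t b => x (e ⟨Sum.inl t, b⟩)) sE A' Lb y ∧
      D.F = FP (fun j => mvF (fun b => x (e ⟨Sum.inl (tl j), b⟩)) (extP tl f A lam sE E) j)
        (thR η Lam)) ∧
    ∀ s : τ ⊕ σ, ∃ B δ : ℝ, 0 < δ ∧
      (∀ z, ‖wP ts (fun t b => x (e ⟨Sum.inl t, b⟩)) sE A' Lb y s z‖ ≤
        B * ‖y (srcP ts s) z‖ ^ egP de s) ∧
      ∀ z, δ * ‖y (srcP ts s) z‖ ^ egP de s ≤
        ‖wP ts (fun t b => x (e ⟨Sum.inl t, b⟩)) sE A' Lb y s z‖ := by
  have hlarge : ∀ t : τ, IsHol (crv (fun b => x (e ⟨Sum.inl t, b⟩)) (sE t)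
      (fun z => (A' t).mulVec (y t z))) ∧
      (∃ B : ℝ, ∀ z, ‖crv (fun b => x (e ⟨Sum.inl t, b⟩)) (sE t)
        (fun z => (A' t).mulVec (y t z)) z‖ ≤ B * ‖y t z‖ ^ 1) ∧
      ∃ δ : ℝ, 0 < δ ∧ ∀ z, δ * ‖y t z‖ ^ 1 ≤ ‖crv (fun b => x (e ⟨Sum.inl t, b⟩)) (sE t)
        (fun z => (A' t).mulVec (y t z)) z‖ := by
    intro t
    obtain ⟨L, L', hL, hcrv⟩ := crv_linear (fun b => x (e ⟨Sum.inl t, b⟩)) (sE t)
    obtain ⟨hol1, ⟨A1, hA1⟩, ⟨δ1, hδ1, hδ1'⟩, -⟩ := linear_image (hAA t) (hy t)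
    obtain ⟨hol2, ⟨A2, hA2⟩, ⟨δ2, hδ2, hδ2'⟩, -⟩ := linear_image hL hol1
    have hfun : crv (fun b => x (e ⟨Sum.inl t, b⟩)) (sE t) (fun z => (A' t).mulVec (y t z)) =
        fun z => L.mulVec ((A' t).mulVec (y t z)) := funext fun z => hcrv _ z
    rw [hfun]
    refine ⟨hol2, ⟨|A2| * |A1|, fun z => ?_⟩, ⟨δ2 * δ1, mul_pos hδ2 hδ1, fun z => ?_⟩⟩
    · show ‖L.mulVec ((A' t).mulVec (y t z))‖ ≤ |A2| * |A1| * ‖y t z‖ ^ 1
      rw [pow_one]
      calc ‖L.mulVec ((A' t).mulVec (y t z))‖ ≤ A2 * ‖(A' t).mulVec (y t z)‖ := hA2 z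
        _ ≤ |A2| * ‖(A' t).mulVec (y t z)‖ :=
            mul_le_mul_of_nonneg_right (le_abs_self _) (norm_nonneg _)
        _ ≤ |A2| * (|A1| * ‖y t z‖) := by
            refine mul_le_mul_of_nonneg_left ?_ (abs_nonneg _)
            exact (hA1 z).trans (mul_le_mul_of_nonneg_right (le_abs_self _) (norm_nonneg _))
        _ = |A2| * |A1| * ‖y t z‖ := by ring
    · show δ2 * δ1 * ‖y t z‖ ^ 1 ≤ ‖L.mulVec ((A' t).mulVec (y t z))‖
      rw [pow_one, mul_assoc]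
      exact (mul_le_mul_of_nonneg_left (hδ1' z) hδ2.le).trans (hδ2' z)
  have hsmall : ∀ s : σ, IsHol (fun z => (Lb s).mulVec (ver n (de s) (y (ts s) z))) ∧
      (∃ B : ℝ, ∀ z, ‖(Lb s).mulVec (ver n (de s) (y (ts s) z))‖ ≤ B * ‖y (ts s) z‖ ^ de s) ∧
      ∃ δ : ℝ, 0 < δ ∧ ∀ z, δ * ‖y (ts s) z‖ ^ de s ≤
        ‖(Lb s).mulVec (ver n (de s) (y (ts s) z))‖ := by
    intro s
    refine ⟨⟨fun j => ?_, fun z hz => ?_⟩, ?_, ?_⟩
    · have h3 : Differentiable ℂ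
          fun z => ∑ l, Lb s j l * ver n (de s) (y (ts s) z) l :=
        Differentiable.fun_sum fun l _ => ((isHol_ver (hy (ts s)) (de s)).diff l).const_mul _
      exact h3
    · have h3 := hspan s z
      have hz' : (Lb s).mulVec (ver n (de s) (y (ts s) z)) = 0 := hz
      rw [hz', Matrix.mulVec_zero] at h3
      exact (isHol_ver (hy (ts s)) (de s)).ne_zero z h3.symm
    · obtain ⟨C, hC, hCb⟩ := f12b_bound (Lb s)
      refine ⟨C, fun z => ?_⟩
      rw [← norm_ver]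
      exact hCb _
    · obtain ⟨C, hC, hCb⟩ := f12b_bound (Lam s)
      refine ⟨(C + 1)⁻¹, by positivity, fun z => ?_⟩
      have h2 := hCb ((Lb s).mulVec (ver n (de s) (y (ts s) z)))
      rw [hspan, norm_ver] at h2
      rw [inv_mul_le_iff₀ (by positivity)]
      refine h2.trans ?_
      exact mul_le_mul_of_nonneg_right (by linarith) (norm_nonneg _)
  refine ⟨⟨{
    w := wP ts (fun t b => x (e ⟨Sum.inl t, b⟩)) sE A' Lb y
    F := FP (fun j => mvF (fun b => x (e ⟨Sum.inl (tl j), b⟩)) (extP tl f A lam sE E) j)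
        (thR η Lam)
    hw := ?_
    hw0 := ?_
    hF := ?_
    hF0 := ?_ }, rfl, rfl⟩, ?_⟩
  · intro s
    cases s with
    | inl t => exact (hlarge t).1
    | inr s => exact (hsmall s).1
  · intro s
    cases s with
    | inl t =>
      have h1 := crv_base (fun b => x (e ⟨Sum.inl t, b⟩)) (sE t)
        (y := fun z => (A' t).mulVec (y t z)) (hz₀ t)
      have h2 : ∀ j : Fin (n + c + 1), crv (fun b => x (e ⟨Sum.inl t, b⟩)) (sE t)
          (fun z => (A' t).mulVec (y t z)) z₀ j ≠ 0 := by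
        intro j
        rw [h1]
        refine Fin.cases ?_ (fun b => ?_) j
        · simp
        · rw [Fin.cons_succ]
          exact hx _
      exact fun j => ⟨z₀, h2 j⟩
    | inr s =>
      have h2 : ∀ j : Fin (m s + 1), (Lb s).mulVec (ver n (de s) (y (ts s) z₀)) j ≠ 0 := by
        intro j
        rw [hw s]
        refine Fin.cases ?_ (fun b => ?_) j
        · exact (one_ne_zero : (1 : ℂ) ≠ 0)
        · exact hx (e ⟨Sum.inr s, b⟩)
      exact fun j => ⟨z₀, h2 j⟩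
  · intro i
    cases i with
    | inl j => exact mvF_homogeneous _ _ j
    | inr t =>
      have h1 : ∀ {M : ℕ} (v : Fin (M + 1) → ℂ), (linF v).IsHomogeneous 1 := by
        intro M v
        rw [linF]
        exact IsHomogeneous.sum _ _ _ fun b _ => isHomogeneous_C_mul_X _ _
      exact h1 _
  · intro i
    refine ⟨z₀, ?_⟩
    cases i with
    | inl j =>
      have h1 := eval_FP_inl (m := m) (tl := tl) (ts := ts) (sx := sx) hd
        (fun t b => x (e ⟨Sum.inl t, b⟩)) sE hAA Lb f lam E hE y (thR η Lam) j z₀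
      rw [h1]
      exact mul_ne_zero (hlam j) (hf0 j)
    | inr t =>
      have h1 := eval_FP_inr (tl := tl) (ts := ts) (sx := sx) (fun t b => x (e ⟨Sum.inl t, b⟩)) sE A'
        hspan
        (fun j => mvF (fun b => x (e ⟨Sum.inl (tl j), b⟩)) (extP tl f A lam sE E) j) η t z₀
      rw [h1]
      exact hη0 t
  · intro s
    cases s with
    | inl t =>
      obtain ⟨-, ⟨B, hB⟩, ⟨δ, hδ, hδ'⟩⟩ := hlarge t
      exact ⟨B, δ, hδ, hB, hδ'⟩
    | inr s =>
      obtain ⟨-, ⟨B, hB⟩, ⟨δ, hδ, hδ'⟩⟩ := hsmall s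
      exact ⟨B, δ, hδ, hB, hδ'⟩

end Pool.Agent.H53R
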