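import Pool.Agent.Lib.H53R.F12b
import Pool.Agent.Lib.H53Y.F12c

set_option autoImplicit false

/-!
H53R, chunk F12c (L): the estimate for one tuple of curves.
-/

open MvPolynomial Real MeasureTheory

namespace Pool.Agent.H53R

open Pool.Agent.H89T Pool.Agent.H78G Pool.Agent.H67T Pool.Agent.H53Y Pool.Agent.H49D

/-- The costs: the coefficient of `chi (y t)` in the error term (`M t` = bound for the weights in the
blocks over `t`, `k0 = card (τ ⊕ σ) * (n μ + μ ^ 2)`). -/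
def costP {τ σ ιL : Type} [DecidableEq τ] [Fintype σ] [Fintype ιL] (ts : σ → τ) (tl : ιL → τ)
    (de : σ → ℕ) (dB : ιL → ℕ) (k0 r μ : ℕ) (M : τ → ℕ) (t : τ) : ℕ :=
  k0 * (M t * (1 + Dg ts de t)) + r * ((μ + 1) * Dg tl dB t) + r * ((1 + Dg ts de t) * (μ + 1))

/-- auxiliary: sums over the fibres. -/
theorem F12c_fib {τ ι : Type} [Fintype τ] [DecidableEq τ] [Fintype ι] (g : ι → τ) (d : ι → ℕ)
    (c : τ → ℝ) : ∑ i, (d i : ℝ) * c (g i) = ∑ t, (Dg g d t : ℝ) * c t := by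
  rw [← Finset.sum_fiberwise Finset.univ g]
  refine Finset.sum_congr rfl fun t _ => ?_
  unfold Dg
  rw [Nat.cast_sum, Finset.sum_mul]
  refine Finset.sum_congr rfl fun i hi => ?_
  rw [(Finset.mem_filter.1 hi).2]

/-- auxiliary: sums over the blocks. -/
theorem F12c_blk {τ σ : Type} [Fintype τ] [DecidableEq τ] [Fintype σ] (ts : σ → τ) (de : σ → ℕ)
    (c : τ → ℝ) : ∑ s : τ ⊕ σ, ((egP de s : ℝ) * c (srcP ts s)) =
      ∑ t, ((1 + Dg ts de t : ℕ) : ℝ) * c t := by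
  rw [Fintype.sum_sum_type]
  have h1 : ∑ s : σ, ((egP (τ := τ) de (Sum.inr s) : ℝ) * c (srcP ts (Sum.inr s))) =
      ∑ t, (Dg ts de t : ℝ) * c t := F12c_fib ts de c
  have h2 : ∑ t : τ, ((egP de (Sum.inl t : τ ⊕ σ) : ℝ) * c (srcP ts (Sum.inl t))) = ∑ t, c t := by
    refine Finset.sum_congr rfl fun t _ => ?_
    change ((1 : ℕ) : ℝ) * c t = c t
    rw [Nat.cast_one, one_mul]
  rw [h1, h2, ← Finset.sum_add_distrib]
  refine Finset.sum_congr rfl fun t _ => ?_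
  push_cast
  ring

theorem F12c_err {n : ℕ} (y : ℂ → Fin n → ℂ) (r R : ℝ) : 1 ≤ err y r R := by
  unfold err
  have h1 := posLog_nonneg (x := chi y R)
  have h2 := posLog_nonneg (x := 1 / (R - r))
  have h3 := posLog_nonneg (x := R)
  linarith

/-- auxiliary: absorbing the constants. -/
theorem F12c_absorb {B I τ : Type} [Fintype B] [Fintype I] [Fintype τ] (hBτ : IsEmpty τ → IsEmpty B)
    (sb : I → B) (dg mu : I → ℝ) (M : B → ℝ) (hdg : ∀ i, 0 ≤ dg i) (hmu : ∀ i, 0 ≤ mu i)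
    (hM : ∀ s, 0 ≤ M s) {r k0 μ1 N C : ℝ} (hr : 0 ≤ r) (hk0 : 0 ≤ k0) (hμ1 : 0 ≤ μ1) (hC : 0 ≤ C)
    (src : B → τ) (K : B → ℝ) (hK : ∀ s, 0 ≤ K s) {u v : B → ℝ} {ew : B → ℝ} {ey : τ → ℝ}
    (huv : ∀ s, |u s - v s| ≤ K s) (hew : ∀ s, ew s ≤ K s * ey (src s)) (hey : ∀ t, 1 ≤ ey t)
    (h : r * ∑ i, dg i * u (sb i) ≤ r * N + k0 * ∑ s, M s * u s +
      r * ∑ i, mu i * u (sb i) + r * ∑ s, μ1 * u s + C * ∑ s, ew s) :
    r * ∑ i, dg i * v (sb i) ≤ r * N + (k0 * ∑ s, M s * v s +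
      r * ∑ i, mu i * v (sb i) + r * ∑ s, μ1 * v s) +
      ((∑ s, K s) * (r * ∑ i, dg i + k0 * ∑ s, M s + r * ∑ i, mu i + r * ∑ _s : B, μ1) +
        C * ∑ s, K s) * ∑ t, ey t := by
  set KK := ∑ s, K s with hKK
  set S := ∑ t, ey t with hS
  have hKK0 : 0 ≤ KK := Finset.sum_nonneg fun s _ => hK s
  have hKs : ∀ s, K s ≤ KK := fun s =>
    Finset.single_le_sum (f := K) (fun s _ => hK s) (Finset.mem_univ s)
  have hey0 : ∀ t, 0 ≤ ey t := fun t => zero_le_one.trans (hey t)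
  have hS0 : 0 ≤ S := Finset.sum_nonneg fun t _ => hey0 t
  have hSt : ∀ t, ey t ≤ S := fun t =>
    Finset.single_le_sum (f := ey) (fun t _ => hey0 t) (Finset.mem_univ t)
  have hKS : KK ≤ KK * S := by
    rcases isEmpty_or_nonempty τ with hτ | ⟨⟨t⟩⟩
    · have hB := hBτ hτ
      have h0 : KK = 0 := by
        rw [hKK]
        exact Finset.sum_eq_zero fun s _ => (hB.false s).elim
      rw [h0, zero_mul]
    · have h1 : 1 ≤ S := (hey t).trans (hSt t)
      nlinarith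
  have hu : ∀ s, u s ≤ v s + KK := fun s => by
    have h1 := (abs_le.1 (huv s)).2
    have h2 := hKs s
    linarith
  have hv : ∀ s, v s ≤ u s + KK := fun s => by
    have h1 := (abs_le.1 (huv s)).1
    have h2 := hKs s
    linarith
  have e1 : ∑ i, dg i * v (sb i) ≤ ∑ i, dg i * u (sb i) + (∑ i, dg i) * KK := by
    rw [Finset.sum_mul, ← Finset.sum_add_distrib]
    refine Finset.sum_le_sum fun i _ => ?_
    have h1 := mul_le_mul_of_nonneg_left (hv (sb i)) (hdg i)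
    linarith
  have e2 : ∑ s, M s * u s ≤ ∑ s, M s * v s + (∑ s, M s) * KK := by
    rw [Finset.sum_mul, ← Finset.sum_add_distrib]
    refine Finset.sum_le_sum fun s _ => ?_
    have h1 := mul_le_mul_of_nonneg_left (hu s) (hM s)
    linarith
  have e3 : ∑ i, mu i * u (sb i) ≤ ∑ i, mu i * v (sb i) + (∑ i, mu i) * KK := by
    rw [Finset.sum_mul, ← Finset.sum_add_distrib]
    refine Finset.sum_le_sum fun i _ => ?_
    have h1 := mul_le_mul_of_nonneg_left (hu (sb i)) (hmu i)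
    linarith
  have e4 : ∑ s, μ1 * u s ≤ ∑ s, μ1 * v s + (∑ _s : B, μ1) * KK := by
    rw [Finset.sum_mul, ← Finset.sum_add_distrib]
    refine Finset.sum_le_sum fun s _ => ?_
    have h1 := mul_le_mul_of_nonneg_left (hu s) hμ1
    linarith
  have e5 : ∑ s, ew s ≤ KK * S := by
    rw [hKK, Finset.sum_mul]
    refine Finset.sum_le_sum fun s _ => (hew s).trans ?_
    exact mul_le_mul_of_nonneg_left (hSt _) (hK s)
  have hG0 : 0 ≤ r * ∑ i, dg i + k0 * ∑ s, M s + r * ∑ i, mu i + r * ∑ _s : B, μ1 := by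
    have g1 := mul_nonneg hr (Finset.sum_nonneg fun i (_ : i ∈ Finset.univ) => hdg i)
    have g2 := mul_nonneg hk0 (Finset.sum_nonneg fun s (_ : s ∈ Finset.univ) => hM s)
    have g3 := mul_nonneg hr (Finset.sum_nonneg fun i (_ : i ∈ Finset.univ) => hmu i)
    have g4 := mul_nonneg hr (Finset.sum_nonneg fun s (_ : s ∈ (Finset.univ : Finset B)) => hμ1)
    linarith
  have f1 := mul_le_mul_of_nonneg_left e1 hr
  have f2 := mul_le_mul_of_nonneg_left e2 hk0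
  have f3 := mul_le_mul_of_nonneg_left e3 hr
  have f4 := mul_le_mul_of_nonneg_left e4 hr
  have f5 := mul_le_mul_of_nonneg_left e5 hC
  have f6 := mul_le_mul_of_nonneg_left hKS hG0
  have f7 : ((KK * (r * ∑ i, dg i + k0 * ∑ s, M s + r * ∑ i, mu i + r * ∑ _s : B, μ1) +
      C * KK) * S) = (r * ∑ i, dg i + k0 * ∑ s, M s + r * ∑ i, mu i + r * ∑ _s : B, μ1) *
      (KK * S) + C * (KK * S) := by ring
  rw [f7]
  have f8 : (r * ∑ i, dg i + k0 * ∑ s, M s + r * ∑ i, mu i + r * ∑ _s : B, μ1) * KK =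
      r * ((∑ i, dg i) * KK) + k0 * ((∑ s, M s) * KK) + r * ((∑ i, mu i) * KK) +
      r * ((∑ _s : B, μ1) * KK) := by ring
  rw [mul_add] at f1 f2 f3 f4
  linarith

/-- CHUNK F12c1 (M).  Regrouping: for `τ ⊕ σ`-indexed sums over the blocks.  `Fintype.sum_sum_type`,
`Finset.sum_fiberwise` (`Dg ts de t = ∑ s with ts s = t, de s`). -/
theorem regroup {τ σ ιL κ : Type} [Fintype τ] [DecidableEq τ] [Fintype σ] [Fintype ιL] [Fintype κ]
    (ts : σ → τ) (tl : ιL → τ) (sx : κ → σ) (d : ιL → ℕ) (de : σ → ℕ) (dB : ιL → ℕ) (k0 r μ : ℕ)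
    (M : τ → ℕ) (c : τ → ℝ) :
    (∑ i : ιL ⊕ κ, (dgO d i : ℝ) * ((egP de (sbP tl sx i) : ℝ) * c (srcP ts (sbP tl sx i))) =
      ∑ t, ((Dg tl d t + Dg (fun x => ts (sx x)) (fun x => de (sx x)) t : ℕ) : ℝ) * c t) ∧
    ((k0 : ℝ) * ∑ s : τ ⊕ σ, (M (srcP ts s) : ℝ) * ((egP de s : ℝ) * c (srcP ts s)) +
        r * ∑ i : ιL ⊕ κ, (((μ + 1) * (Sum.elim dB (fun _ => 0) : ιL ⊕ κ → ℕ) i : ℕ) : ℝ) *
          ((egP de (sbP tl sx i) : ℝ) * c (srcP ts (sbP tl sx i))) +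
        r * ∑ s : τ ⊕ σ, ((μ + 1 : ℕ) : ℝ) * ((egP de s : ℝ) * c (srcP ts s)) =
      ∑ t, (costP ts tl de dB k0 r μ M t : ℝ) * c t) := by
  have hL : ∀ (g : ιL → ℕ), ∑ j, (g j : ℝ) * c (tl j) = ∑ t, (Dg tl g t : ℝ) * c t :=
    fun g => F12c_fib tl g c
  refine ⟨?_, ?_⟩
  · rw [Fintype.sum_sum_type]
    have h1 : ∑ j : ιL, ((dgO (κ := κ) d (Sum.inl j) : ℕ) : ℝ) *
        ((egP de (sbP (κ := κ) tl sx (Sum.inl j)) : ℝ) *
          c (srcP ts (sbP (κ := κ) tl sx (Sum.inl j)))) = ∑ t, (Dg tl d t : ℝ) * c t := by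
      rw [← hL]
      refine Finset.sum_congr rfl fun j _ => ?_
      change (d j : ℝ) * (((1 : ℕ) : ℝ) * c (tl j)) = _
      rw [Nat.cast_one, one_mul]
    have h2 : ∑ x : κ, ((dgO (ιL := ιL) (κ := κ) d (Sum.inr x) : ℕ) : ℝ) *
        ((egP de (sbP (ιL := ιL) tl sx (Sum.inr x)) : ℝ) *
          c (srcP ts (sbP (ιL := ιL) tl sx (Sum.inr x)))) =
        ∑ t, (Dg (fun x => ts (sx x)) (fun x => de (sx x)) t : ℝ) * c t := by
      rw [← F12c_fib (fun x => ts (sx x)) (fun x => de (sx x)) c]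
      refine Finset.sum_congr rfl fun x _ => ?_
      change ((1 : ℕ) : ℝ) * ((de (sx x) : ℝ) * c (ts (sx x))) = _
      rw [Nat.cast_one, one_mul]
    rw [h1, h2, ← Finset.sum_add_distrib]
    refine Finset.sum_congr rfl fun t _ => ?_
    push_cast
    ring
  · have h1 : ∑ s : τ ⊕ σ, (M (srcP ts s) : ℝ) * ((egP de s : ℝ) * c (srcP ts s)) =
        ∑ t, ((1 + Dg ts de t : ℕ) : ℝ) * ((M t : ℝ) * c t) := by
      rw [← F12c_blk ts de (fun t => (M t : ℝ) * c t)]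
      refine Finset.sum_congr rfl fun s _ => ?_
      ring
    have h2 : ∑ i : ιL ⊕ κ, (((μ + 1) * (Sum.elim dB (fun _ => 0) : ιL ⊕ κ → ℕ) i : ℕ) : ℝ) *
        ((egP de (sbP tl sx i) : ℝ) * c (srcP ts (sbP tl sx i))) =
        ∑ t, (((μ + 1) * Dg tl dB t : ℕ) : ℝ) * c t := by
      rw [Fintype.sum_sum_type]
      have g1 : ∑ x : κ, (((μ + 1) * (Sum.elim dB (fun _ => 0) : ιL ⊕ κ → ℕ) (Sum.inr x) : ℕ) : ℝ) *
          ((egP de (sbP (ιL := ιL) tl sx (Sum.inr x)) : ℝ) *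
            c (srcP ts (sbP (ιL := ιL) tl sx (Sum.inr x)))) = 0 :=
        Finset.sum_eq_zero fun x _ => by rw [Sum.elim_inr, mul_zero, Nat.cast_zero, zero_mul]
      have g2 : ∑ j : ιL, (((μ + 1) * (Sum.elim dB (fun _ => 0) : ιL ⊕ κ → ℕ) (Sum.inl j) : ℕ) : ℝ) *
          ((egP de (sbP (κ := κ) tl sx (Sum.inl j)) : ℝ) *
            c (srcP ts (sbP (κ := κ) tl sx (Sum.inl j)))) =
          ∑ t, (((μ + 1) * Dg tl dB t : ℕ) : ℝ) * c t := by
        have g3 : ∑ t, (((μ + 1) * Dg tl dB t : ℕ) : ℝ) * c t =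
            ((μ + 1 : ℕ) : ℝ) * ∑ t, (Dg tl dB t : ℝ) * c t := by
          rw [Finset.mul_sum]
          refine Finset.sum_congr rfl fun t _ => ?_
          rw [Nat.cast_mul, mul_assoc]
        rw [g3, ← hL, Finset.mul_sum]
        refine Finset.sum_congr rfl fun j _ => ?_
        change (((μ + 1) * dB j : ℕ) : ℝ) * (((1 : ℕ) : ℝ) * c (tl j)) = _
        rw [Nat.cast_one, one_mul, Nat.cast_mul, mul_assoc]
      rw [g1, g2, add_zero]
    have h3 : ∑ s : τ ⊕ σ, ((μ + 1 : ℕ) : ℝ) * ((egP de s : ℝ) * c (srcP ts s)) =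
        ∑ t, (((1 + Dg ts de t) * (μ + 1) : ℕ) : ℝ) * c t := by
      rw [← Finset.mul_sum, F12c_blk, Finset.mul_sum]
      refine Finset.sum_congr rfl fun t _ => ?_
      rw [Nat.cast_mul]
      ring
    rw [h1, h2, h3, Finset.mul_sum, Finset.mul_sum, Finset.mul_sum, ← Finset.sum_add_distrib,
      ← Finset.sum_add_distrib]
    refine Finset.sum_congr rfl fun t _ => ?_
    unfold costP
    push_cast
    ring

/-- CHUNK F12c2 (L).  Port of `H53Y.one_curve` (Lib/H53Y/F12c.lean; read its docstring).  Apply `hD` to the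
structure `D` of `exists_curveW` with `T := tyP`, `k := n`, `M := fun s => M (srcP ts s)`,
`dB' := Sum.elim dB 0`.  Differences:
* the base point of the large block `inl t` is `x (e ⟨inl t, b⟩)`; `hz₀`, `hns`, `hzL` for all `t`;
* in the large block `inl t`: `{i // sbP tl sx i = inl t ∧ D.φ i z = 0}` has at most as many elements as
  `{j // eval (y t z) (fmj f j) = 0}` (an injection: if `tl j = t` ..), so `hk` is enough;
* the conclusion of `hD` is in terms of `chi (D.w s)`, `err (D.w s)`: replace them with `chi_compare`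
  (constants `K s`): `|chi (D.w s) ρ - eg s * chi (y (src s)) ρ| ≤ K s`, `err (D.w s) ρ R ≤ K s * err (y (src s)) ρ R`;
  all constants are absorbed in `C * ∑ t, err (y t) ρ R` (`1 ≤ err (y t)`: `f13b_err` of H53Y/F13b, and `τ` is
  not empty because `srcP ts s ∈ τ`; if the index type of blocks is empty everything is `0`);
* then `regroup` with `c t = chi (y t) ρ`. -/
theorem one_curveP (hD : D_P) {n c nt r μ : ℕ} {ιL τ σ κ : Type} [Fintype ιL] [Fintype τ] [Fintype σ]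
    [Fintype κ] [DecidableEq (ιL ⊕ κ)] [DecidableEq τ] [DecidableEq σ] {d : ιL → ℕ} {m de : σ → ℕ}
    {tl : ιL → τ} {ts : σ → τ} {sx : κ → σ} {M : τ → ℕ}
    (hn : 1 ≤ n) (hd : ∀ j, 1 ≤ d j) (hm : ∀ s, 1 ≤ m s)
    (e : Co (mP (τ := τ) (n + c) m) ≃ Fin nt) (hr1 : 1 ≤ r) (hr : ∀ s, mP (τ := τ) (n + c) m s ≤ r)
    (hμ : ∀ s, mP (τ := τ) (n + c) m s ≤ μ)
    -- the curve
    {y : τ → ℂ → Fin (n + 1) → ℂ} (hy : ∀ t, IsHol (y t))
    {A A' : τ → Matrix (Fin (n + 1)) (Fin (n + 1)) ℂ} (hAA : ∀ t, A t * A' t = 1)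
    (hA'A : ∀ t, A' t * A t = 1)
    {z₀ : ℂ} (hz₀ : ∀ t, (A' t).mulVec (y t z₀) = Pi.single 0 1) (hns : ∀ t, NonStat (y t) z₀)
    {Lam : (s : σ) → Matrix (Fin (NV n (de s) + 1)) (Fin (m s + 1)) ℂ}
    {Lb : (s : σ) → Matrix (Fin (m s + 1)) (Fin (NV n (de s) + 1)) ℂ}
    (hspan : ∀ s z, (Lam s).mulVec ((Lb s).mulVec (ver n (de s) (y (ts s) z))) =
      ver n (de s) (y (ts s) z))
    (hWr : ∀ s, Wr (fun z => (Lb s).mulVec (ver n (de s) (y (ts s) z))) z₀ ≠ 0)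
    {x : Fin nt → ℂ} (hx : ∀ b, x b ≠ 0)
    (hw : ∀ s, (Lb s).mulVec (ver n (de s) (y (ts s) z₀)) =
      Fin.cons 1 (fun b => x (e ⟨Sum.inr s, b⟩)))
    -- the forms
    (f : FV (Fin (n + 1)) d → ℂ) (η : LV (fun t : κ => NV n (de (sx t))) → ℂ)
    (hf0 : ∀ j, eval (y (tl j) z₀) (fmj f j) ≠ 0)
    (hη0 : ∀ t, lin (fun l => η ⟨t, l⟩) (ver n (de (sx t)) (y (ts (sx t)) z₀)) ≠ 0)
    {lam : ιL → ℂ} (sE : τ → Fin c → Fin n → ℂ)
    {E : ιL → Fin c → MvPolynomial (Fin (n + 1) ⊕ Fin c) ℂ} (hlam : ∀ j, lam j ≠ 0)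
    (hE : ∀ j i, (E j i).IsHomogeneous (d j - 1))
    (hk : ∀ t z, Nat.card {j : ιL // eval (y t z) (fmj f j) = 0} ≤ n)
    (hgen : ∀ s, GenPos (thP (m := m) (tl := tl) (sx := sx)
      (fun j => mvF (fun b => x (e ⟨Sum.inl (tl j), b⟩)) (extP tl f A lam sE E) j) (thR η Lam) s))
    (hcard : ∀ s, (∃ t, sx t = s) → m s + 1 ≤ Nat.card {t : κ // sx t = s})
    -- the charts
    (hzL : ∀ z, ((∃ j, eval (y (tl j) z) (fmj f j) = 0) ∨
        ∃ t, lin (fun l => η ⟨t, l⟩) (ver n (de (sx t)) (y (ts (sx t)) z)) = 0) →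
      (∀ t, (A' t).mulVec (y t z) 0 ≠ 0) ∧
        ∀ s, (Lb s).mulVec (ver n (de s) (y (ts s) z)) 0 ≠ 0)
    -- the operators
    (dB : ιL → ℕ)
    (hB : ∀ (j : ιL) (k : Fin (n + c + 1)) (ξ : JV (n + c) (n + c) → ℂ),
      (∀ b, ξ (b, 0) = bpt (fun b => x (e ⟨Sum.inl (tl j), b⟩)) k b) →
      ev (cfF (d j) k (mvF (fun b => x (e ⟨Sum.inl (tl j), b⟩)) (extP tl f A lam sE E) j))
        (fun b => ξ (b, 0)) ≠ 0 →
      (∃ b, ∃ l : Fin (n + c + 1), (l : ℕ) = 1 ∧ ξ (b, l) ≠ 0) →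
      ∃ Q : MvPolynomial (JV (n + c) (n + c)) ℂ, HasWt (dB j) Q ∧
        PropB (cfF (d j) k
          (mvF (fun b => x (e ⟨Sum.inl (tl j), b⟩)) (extP tl f A lam sE E) j)) Q ∧
        eval ξ Q ≠ 0)
    (hP : ∀ ξ : JV nt r → ℂ, (∀ b, ξ (b, 0) = x b) →
      (∀ i : ιL ⊕ κ, fv e (aP (tl := tl) (fun t b => x (e ⟨Sum.inl t, b⟩))
        (extP tl f A lam sE E) (thR η Lam)) x i ≠ 0) →
      (∀ s, Wd (hr (Sum.inr s)) (bj e ξ (Sum.inr s)) ≠ 0) →
      (∀ t, ∃ b, ∃ l : Fin (r + 1), (l : ℕ) = 1 ∧ bj e ξ (Sum.inl t) (b, l) ≠ 0) →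
      ∃ P : MvPolynomial (JV nt r) ℂ, HasWtB e (fun s => M (srcP ts s)) P ∧
        PropG e (aP (tl := tl) (fun t b => x (e ⟨Sum.inl t, b⟩)) (extP tl f A lam sE E)
          (thR η Lam)) r P ∧
        eval ξ P ≠ 0) :
    ∃ C : ℝ, 0 ≤ C ∧ ∀ ρ R : ℝ, 1 ≤ ρ → ρ < R →
      r * ∑ t, ((Dg tl d t + Dg (fun x => ts (sx x)) (fun x => de (sx x)) t : ℕ) : ℝ) *
          chi (y t) ρ ≤
        r * N1 (fun z => (∏ j, eval (y (tl j) z) (fmj f j)) *
          ∏ t, lin (fun l => η ⟨t, l⟩) (ver n (de (sx t)) (y (ts (sx t)) z))) ρ +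
        ∑ t, (costP ts tl de dB (Fintype.card (τ ⊕ σ) * (n * μ + μ ^ 2)) r μ M t : ℝ) *
          chi (y t) ρ + C * ∑ t, err (y t) ρ R := by
  obtain ⟨⟨D, hDw, hDF⟩, hcmp⟩ := exists_curveW (ts := ts) (tl := tl) (sx := sx) hd e hy hAA hA'A hz₀
    hspan hx hw f η hf0 hη0 sE hlam hE
  -- the comparison of the characteristics
  have hK' : ∀ s : τ ⊕ σ, ∃ K : ℝ, 0 ≤ K ∧
      (∀ ρ, |chi (D.w s) ρ - egP de s * chi (y (srcP ts s)) ρ| ≤ K) ∧
      ∀ ρ R, 1 ≤ ρ → ρ < R → err (D.w s) ρ R ≤ K * err (y (srcP ts s)) ρ R := by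
    intro s
    obtain ⟨B, δ, hδ, hB1, hB2⟩ := hcmp s
    refine chi_compare (D.hw s) (hy _) hδ (A := B) ?_ ?_
    · rw [hDw]
      exact hB1
    · rw [hDw]
      exact hB2
  choose K hK0 hK1 hK2 using hK'
  -- the values of the factors
  have hφl : ∀ j z, D.φ (Sum.inl j) z = lam j * eval (y (tl j) z) (fmj f j) := by
    intro j z
    rw [CurveW.φ, hDw, hDF]
    exact eval_FP_inl (ts := ts) hd (fun t b => x (e ⟨Sum.inl t, b⟩)) sE hAA Lb f lam E hE y
      (thR η Lam) j z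
  have hφr : ∀ t z, D.φ (Sum.inr t) z =
      lin (fun l => η ⟨t, l⟩) (ver n (de (sx t)) (y (ts (sx t)) z)) := by
    intro t z
    rw [CurveW.φ, hDw, hDF]
    exact eval_FP_inr (ts := ts) (tl := tl) (fun t b => x (e ⟨Sum.inl t, b⟩)) sE A' hspan _ η t z
  -- the base point
  have hbase : ∀ s : τ ⊕ σ, D.w s z₀ =
      (Fin.cons 1 (fun b => x (e ⟨s, b⟩)) : Fin (mP (n + c) m s + 1) → ℂ) := by
    intro s
    rw [hDw]
    cases s with
    | inl t =>
      exact crv_base (fun b => x (e ⟨Sum.inl t, b⟩)) (sE t)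
        (y := fun z => (A' t).mulVec (y t z)) (hz₀ t)
    | inr s => exact hw s
  have hbase0 : ∀ s : τ ⊕ σ, D.w s z₀ 0 = 1 := by
    intro s
    rw [hbase, Fin.cons_zero]
  have hbases : ∀ (s : τ ⊕ σ) (b : Fin (mP (n + c) m s)), D.w s z₀ b.succ = x (e ⟨s, b⟩) := by
    intro s b
    rw [hbase, Fin.cons_succ]
  have hbne : ∀ (s : τ ⊕ σ) (k : Fin (mP (n + c) m s + 1)), D.w s z₀ k ≠ 0 := by
    intro s k
    refine Fin.cases ?_ (fun b => ?_) k
    · rw [hbase0]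
      exact one_ne_zero
    · rw [hbases]
      exact hx _
  -- the large blocks
  have hjet : ∀ (t : τ) (k : Fin (n + c + 1)) (r' : ℕ), 1 ≤ r' →
      ∃ b, ∃ l : Fin (r' + 1), (l : ℕ) = 1 ∧
        jetf r' (ch k (D.w (Sum.inl t))) z₀ (b, l) ≠ 0 := by
    intro t k r' hr'
    obtain ⟨L, L', hL, hcrv⟩ := crv_linear (n := n) (c := c) (fun b => x (e ⟨Sum.inl t, b⟩)) (sE t)
    have hA1 := linear_image (hAA t) (hy t)
    have hA2 := linear_image hL hA1.1
    have hDwn : D.w (Sum.inl t) = fun z => L.mulVec ((A' t).mulVec (y t z)) := by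
      rw [hDw]
      funext z
      exact hcrv (fun z => (A' t).mulVec (y t z)) z
    have hholn : IsHol (D.w (Sum.inl t)) := by
      rw [hDwn]
      exact hA2.1
    have hnsn : NonStat (N := n + c + 1) (D.w (Sum.inl t)) z₀ := by
      rw [hDwn]
      exact hA2.2.2.2 z₀ (hA1.2.2.2 z₀ (hns t))
    obtain ⟨b, hb⟩ := NonStat.chart (N := n + c) hholn hnsn k (hbne (Sum.inl t) k)
    refine ⟨b, ⟨1, by omega⟩, rfl, ?_⟩
    simp only [jetf, iteratedDeriv_one, Nat.factorial_one, Nat.cast_one, div_one]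
    exact hb
  have hjz : ∀ {N r' : ℕ} (F : ℂ → Fin N → ℂ) (b : Fin N), jetf r' F z₀ (b, 0) = F z₀ b := by
    intro N r' F b
    simp [jetf]
  have hwne : ∀ z, ((∃ j, eval (y (tl j) z) (fmj f j) = 0) ∨
        ∃ t, lin (fun l => η ⟨t, l⟩) (ver n (de (sx t)) (y (ts (sx t)) z)) = 0) →
      ∀ s, D.w s z 0 ≠ 0 := by
    intro z hz s
    have h1 := hzL z hz
    rw [hDw]
    cases s with
    | inl t =>
      have h2 : wP ts (fun t b => x (e ⟨Sum.inl t, b⟩)) sE A' Lb y (Sum.inl t) z 0 =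
          (A' t).mulVec (y t z) 0 :=
        crv_zero (fun b => x (e ⟨Sum.inl t, b⟩)) (sE t) (fun z => (A' t).mulVec (y t z)) z
      rw [h2]
      exact h1.1 t
    | inr s => exact h1.2 s
  have hDa : D.a = aP (tl := tl) (fun t b => x (e ⟨Sum.inl t, b⟩)) (extP tl f A lam sE E)
      (thR η Lam) := by
    funext q
    rw [CurveW.a, hDF]
    rfl
  have hDf : ∀ (s : τ ⊕ σ) (b : Fin (mP (n + c) m s)) (z : ℂ),
      D.f e z (e ⟨s, b⟩) = ch 0 (D.w s) z b := by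
    intro s b z
    have h1 : ∀ q : Co (mP (τ := τ) (n + c) m), q = ⟨s, b⟩ →
        ch 0 (D.w q.1) z q.2 = ch 0 (D.w s) z b := by
      rintro _ rfl
      rfl
    exact h1 _ (e.symm_apply_apply _)
  have hbj : ∀ s : τ ⊕ σ, bj e (jetf r (D.f e) z₀) s = jetf r (ch 0 (D.w s)) z₀ := by
    intro s
    funext q
    have h1 : (fun w => D.f e w (e ⟨s, q.1⟩)) = fun w => ch 0 (D.w s) w q.1 := by
      funext w
      exact hDf s q.1 w
    rw [bj, jetf, jetf]
    simp only [h1]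
  have hch0 : ∀ (s : τ ⊕ σ) (b : Fin (mP (n + c) m s)), ch 0 (D.w s) z₀ b = x (e ⟨s, b⟩) := by
    intro s b
    rw [ch, hbase0, div_one, Fin.succAbove_zero, hbases]
  have hfx : ∀ b, D.f e z₀ b = x b := by
    intro b
    have h1 := hDf (e.symm b).1 (e.symm b).2 z₀
    have h2 : e ⟨(e.symm b).1, (e.symm b).2⟩ = b := e.apply_symm_apply b
    rw [hch0, h2] at h1
    exact h1
  have hφ0 : ∀ i, D.φ i z₀ ≠ 0 := by
    rintro (j | t)
    · rw [hφl]
      exact mul_ne_zero (hlam j) (hf0 j)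
    · rw [hφr]
      exact hη0 t
  have hev : ∀ (i : ιL ⊕ κ) (k : Fin (mP (n + c) m (sbP tl sx i) + 1)),
      ev (cfF (dgO d i) k (D.F i)) (ch k (D.w (sbP tl sx i)) z₀) ≠ 0 := by
    intro i k
    have h1 := ev_cf k (D.hF i) (y := D.w (sbP tl sx i) z₀) (hbne _ k)
    have h2 : ev (cfF (dgO d i) k (D.F i)) (ch k (D.w (sbP tl sx i)) z₀) =
        eval (D.w (sbP tl sx i) z₀) (D.F i) / D.w (sbP tl sx i) z₀ k ^ dgO d i := h1
    rw [h2]
    exact div_ne_zero (hφ0 i) (pow_ne_zero _ (hbne _ k))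
  -- the operator in all coordinates
  obtain ⟨P, hPw, hPG, hP0⟩ := hP (jetf r (D.f e) z₀) (fun b => by rw [hjz, hfx])
    (fun i => by
      have h1 := hev i 0
      have h2 : ch 0 (D.w (sbP tl sx i)) z₀ = bx e x (sbP tl sx i) := by
        funext b
        rw [hch0, bx]
      rw [h2, hDF] at h1
      exact h1)
    (fun s => by
      rw [hbj]
      refine Wd_ne_zero_of_Wr (hr (Sum.inr s)) (fun j => (D.hw (Sum.inr s)).1 j) 0 ?_ ?_
      · rw [hbase0]
        exact one_ne_zero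
      · rw [hDw]
        exact hWr s)
    (fun t => by
      rw [hbj]
      exact hjet t 0 r hr1)
  rw [← hDa] at hPG
  -- the theorem on one curve
  obtain ⟨Kc, hKc, hmain⟩ := hD (tyP (τ := τ) (σ := σ)) (k := n) (μ := μ)
    (fun s => M (srcP ts s)) e D hr1
    (by
      rintro (t | s)
      · change 1 ≤ n + c
        omega
      · exact hm s)
    hr hμ
    (by
      intro z i hi
      refine hwne z ?_
      rcases i with j | t
      · left
        rw [hφl] at hi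
        exact ⟨j, (mul_eq_zero.1 hi).resolve_left (hlam j)⟩
      · right
        rw [hφr] at hi
        exact ⟨t, hi⟩)
    (by
      rintro (j | t) hi
      · exact absurd hi (by simp [sbP, tyP])
      · rfl)
    (by
      rintro (t | s) hs
      · exact absurd hs (by simp [tyP])
      · have h1 : D.θ (Sum.inr s) = thP (m := m) (tl := tl) (sx := sx)
            (fun j => mvF (fun b => x (e ⟨Sum.inl (tl j), b⟩)) (extP tl f A lam sE E) j)
            (thR η Lam) s := by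
          funext q b
          rw [CurveW.θ, hDF]
          rfl
        rw [h1]
        exact hgen s)
    (by
      rintro (t | s) hs
      · exact absurd hs (by simp [tyP])
      · rintro ⟨i, hi⟩
        have h1 : ∃ t, sx t = s := by
          rcases i with j | t
          · exact absurd hi (by simp [sbP])
          · exact ⟨t, Sum.inr_injective hi⟩
        have h2 : Nat.card {t : κ // sx t = s} =
            Nat.card {i : ιL ⊕ κ // sbP tl sx i = Sum.inr s} := by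
          refine Nat.card_congr (Equiv.ofBijective
            (fun t => (⟨Sum.inr t.1, congrArg Sum.inr t.2⟩ :
              {i : ιL ⊕ κ // sbP tl sx i = Sum.inr s})) ⟨?_, ?_⟩)
          · intro t t' htt
            have h3 := congrArg Subtype.val htt
            exact Subtype.ext (Sum.inr_injective h3)
          · rintro ⟨j | t, ht⟩
            · exact absurd ht (by simp [sbP])
            · exact ⟨⟨t, Sum.inr_injective ht⟩, rfl⟩
        rw [← h2]
        exact hcard s h1)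
    (by
      rintro (t | s) hs
      · exact absurd hs (by simp [tyP])
      · refine ⟨z₀, ?_⟩
        rw [hDw]
        exact hWr s)
    (by
      rintro (t | s) hs z
      · refine le_trans ?_ (hk t z)
        have h1 : ∀ i : {i : ιL ⊕ κ // sbP tl sx i = Sum.inl t ∧ D.φ i z = 0},
            ∃ j : ιL, i.1 = Sum.inl j ∧ eval (y t z) (fmj f j) = 0 := by
          rintro ⟨j | t', ht, ht0⟩
          · refine ⟨j, rfl, ?_⟩
            rw [hφl] at ht0
            have h2 : tl j = t := Sum.inl_injective ht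
            rw [← h2]
            exact (mul_eq_zero.1 ht0).resolve_left (hlam j)
          · exact absurd ht (by simp [sbP])
        choose g hg1 hg2 using h1
        refine Nat.card_le_card_of_injective
          (fun i => (⟨g i, hg2 i⟩ : {j : ιL // eval (y t z) (fmj f j) = 0})) ?_
        intro i i' hii
        have h3 : g i = g i' := congrArg Subtype.val hii
        exact Subtype.ext (by rw [hg1 i, hg1 i', h3])
      · exact absurd hs (by simp [tyP]))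
    (Sum.elim dB fun _ => 0)
    (by
      rintro (j | t) hs k
      · have h3 := hev (Sum.inl j) k
        rw [hDF] at h3
        obtain ⟨Q, hQ1, hQ2, hQ3⟩ := hB j k (jetf (n + c) (ch k (D.w (Sum.inl (tl j)))) z₀)
          (fun b => by
            rw [hjz]
            have h4 : D.w (Sum.inl (tl j)) z₀ =
                (Fin.cons 1 fun b => x (e ⟨Sum.inl (tl j), b⟩) : Fin (n + c + 1) → ℂ) :=
              hbase (Sum.inl (tl j))
            change D.w (Sum.inl (tl j)) z₀ (k.succAbove b) / D.w (Sum.inl (tl j)) z₀ k = _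
            rw [h4]
            rfl)
          (by
            have h5 : (fun b => jetf (n + c) (ch k (D.w (Sum.inl (tl j)))) z₀ (b, 0)) =
                ch k (D.w (Sum.inl (tl j))) z₀ := by
              funext b
              exact hjz _ b
            exact ne_of_eq_of_ne (congrArg (fun v => ev (cfF (d j) k
              (mvF (fun b => x (e ⟨Sum.inl (tl j), b⟩)) (extP tl f A lam sE E) j)) v) h5) h3)
          (hjet (tl j) k (n + c) (by omega))
        refine ⟨Q, hQ1, ?_, z₀, hbne (Sum.inl (tl j)) k, hQ3⟩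
        rw [hDF]
        exact hQ2
      · exact absurd hs (by simp [sbP, tyP]))
    P hPw hPG
    ⟨z₀, fun s => by rw [hbase0]; exact one_ne_zero, hP0⟩
  have hempty : IsEmpty τ → IsEmpty (τ ⊕ σ) := fun h => ⟨fun s => h.false (srcP ts s)⟩
  refine ⟨(∑ s, K s) * (r * ∑ i : ιL ⊕ κ, (dgO d i : ℝ) +
      ((Fintype.card (τ ⊕ σ) * (n * μ + μ ^ 2) : ℕ) : ℝ) * ∑ s : τ ⊕ σ, (M (srcP ts s) : ℝ) +
      r * ∑ i : ιL ⊕ κ, (((μ + 1) * (Sum.elim dB (fun _ => 0) : ιL ⊕ κ → ℕ) i : ℕ) : ℝ) +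
      r * ∑ _s : τ ⊕ σ, ((μ + 1 : ℕ) : ℝ)) + Kc * ∑ s, K s, ?_, fun ρ R h1 h2 => ?_⟩
  · have g0 : 0 ≤ ∑ s, K s := Finset.sum_nonneg fun s _ => hK0 s
    positivity
  have h3 := hmain ρ R h1 h2
  have h4 : N1 (fun z => ∏ i, D.φ i z) ρ = N1 (fun z => (∏ j, eval (y (tl j) z) (fmj f j)) *
      ∏ t, lin (fun l => η ⟨t, l⟩) (ver n (de (sx t)) (y (ts (sx t)) z))) ρ := by
    refine N1_congr (fun z => ?_) ρ
    rw [Fintype.prod_sum_type, mul_eq_zero, mul_eq_zero]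
    simp only [hφl, hφr]
    have h10 : ¬ ∏ j, lam j = 0 := Finset.prod_ne_zero_iff.2 fun j _ => hlam j
    rw [Finset.prod_mul_distrib, mul_eq_zero, or_iff_right h10]
  rw [h4] at h3
  have h5 := F12c_absorb (B := τ ⊕ σ) (I := ιL ⊕ κ) (τ := τ) hempty (sbP tl sx)
    (fun i => (dgO d i : ℝ))
    (fun i => (((μ + 1) * (Sum.elim dB (fun _ => 0) : ιL ⊕ κ → ℕ) i : ℕ) : ℝ))
    (fun s => (M (srcP ts s) : ℝ)) (fun i => Nat.cast_nonneg _) (fun i => Nat.cast_nonneg _)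
    (fun s => Nat.cast_nonneg _) (r := r)
    (k0 := ((Fintype.card (τ ⊕ σ) * (n * μ + μ ^ 2) : ℕ) : ℝ)) (μ1 := ((μ + 1 : ℕ) : ℝ))
    (N := N1 (fun z => (∏ j, eval (y (tl j) z) (fmj f j)) *
      ∏ t, lin (fun l => η ⟨t, l⟩) (ver n (de (sx t)) (y (ts (sx t)) z))) ρ) (C := Kc)
    (Nat.cast_nonneg _) (Nat.cast_nonneg _) (Nat.cast_nonneg _) hKc (srcP ts) K hK0
    (u := fun s => chi (D.w s) ρ) (v := fun s => (egP de s : ℝ) * chi (y (srcP ts s)) ρ)
    (ew := fun s => err (D.w s) ρ R) (ey := fun t => err (y t) ρ R)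
    (fun s => hK1 s ρ) (fun s => hK2 s ρ R h1 h2) (fun t => F12c_err _ _ _) h3
  obtain ⟨r1, r2⟩ := regroup ts tl sx d de dB (Fintype.card (τ ⊕ σ) * (n * μ + μ ^ 2)) r μ M
    (fun t => chi (y t) ρ)
  simp only at h5
  rw [r1, r2] at h5
  exact h5

end Pool.Agent.H53R
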