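import Pool.Agent.Lib.H53R.FD
import Pool.Agent.Lib.H53Y.F13b

set_option autoImplicit false

/-!
H53R, chunk F13b (M, two theorems).
-/

open MvPolynomial Real MeasureTheory

namespace Pool.Agent.H53R

open Pool.Agent.H89T Pool.Agent.H78G Pool.Agent.H67T Pool.Agent.H53Y Pool.Agent.H49D

/-- CHUNK F13b (1).  Port of `H53Y.degree_outside` (Lib/H53Y/F13b.lean) for the blocks over one `t`:
`Dg (ts ∘ sx) (de ∘ sx) t = ∑ s with ts s = t, Nat.card {x // sx x = s} * de s` (fibrewise, compare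
`f13b_sum`), and `card_outside` for every such `s`. -/
theorem degree_outsideP {τ κ σ : Type} [DecidableEq τ] [Fintype κ] [Fintype σ] {ts : σ → τ}
    {sx : κ → σ} {de : σ → ℕ} {nb c : ℕ} {part : κ → Fin nb}
    (h : ∀ s b, Nat.card {x : κ // sx x = s ∧ part x = b} ≤
      Nat.card {x : κ // sx x = s} / nb + 1) (S : Finset (Fin nb))
    [Fintype {x : κ // part x ∉ S}] (hS : S.card ≤ c) (t : τ) :
    nb * Dg (fun x => ts (sx x)) (fun x => de (sx x)) t ≤
      nb * Dg (fun x : {x : κ // part x ∉ S} => ts (sx x.1)) (fun x => de (sx x.1)) t +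
      c * (Dg (fun x => ts (sx x)) (fun x => de (sx x)) t + nb * Dg ts de t) := by
  have h1 := degree_outside (de := fun s => if ts s = t then de s else 0) h S hS
  unfold Dg
  simp only [Finset.sum_filter]
  refine h1.trans (le_of_eq ?_)
  refine congrArg₂ (· + ·) (congrArg (nb * ·) ?_) rfl
  exact Finset.sum_congr (by ext x; simp) (fun _ _ => rfl)

/-- CHUNK F13b (2).  Port of `H53Y.N1_sub`. -/
theorem N1_subP {τ : Type} {n : ℕ} {ιL σ κ : Type} [Fintype ιL] [Fintype κ] {d : ιL → ℕ} {de : σ → ℕ}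
    {tl : ιL → τ} {ts : σ → τ} {sx : κ → σ} {y : τ → ℂ → Fin (n + 1) → ℂ} (hy : ∀ t, IsHol (y t))
    (f : FV (Fin (n + 1)) d → ℂ) (η : LV (fun t : κ => NV n (de (sx t))) → ℂ)
    (hf : ∀ j, ∃ z, eval (y (tl j) z) (fmj f j) ≠ 0)
    (hη : ∀ t, ∃ z, lin (fun l => η ⟨t, l⟩) (ver n (de (sx t)) (y (ts (sx t)) z)) ≠ 0)
    (Q : κ → Prop) [Fintype {x : κ // Q x}] {ρ : ℝ} (hρ : 1 ≤ ρ) :
    N1 (fun z => (∏ j, eval (y (tl j) z) (fmj f j)) *
        ∏ t : {x : κ // Q x}, lin (fun l => η ⟨t.1, l⟩)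
          (ver n (de (sx t.1)) (y (ts (sx t.1)) z))) ρ ≤
      N1 (fun z => (∏ j, eval (y (tl j) z) (fmj f j)) *
        ∏ t, lin (fun l => η ⟨t, l⟩) (ver n (de (sx t)) (y (ts (sx t)) z))) ρ := by
  have hd0 : ∀ j, Differentiable ℂ fun z => eval (y (tl j) z) (fmj f j) :=
    fun j => differentiable_eval (hy (tl j)).diff _
  have hd1 : Differentiable ℂ fun z => ∏ j, eval (y (tl j) z) (fmj f j) :=
    Differentiable.fun_finsetProd fun j _ => hd0 j
  have hd2 : ∀ t : κ, Differentiable ℂ fun z =>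
      lin (fun l => η ⟨t, l⟩) (ver n (de (sx t)) (y (ts (sx t)) z)) := by
    intro t
    unfold lin
    exact Differentiable.fun_sum fun l _ =>
      ((isHol_ver (hy (ts (sx t))) (de (sx t))).diff l).const_mul _
  have hz1 : ∃ z, ∏ j, eval (y (tl j) z) (fmj f j) ≠ 0 :=
    f1b_prod Finset.univ (f := fun j z => eval (y (tl j) z) (fmj f j)) hd0 hf
  have hz2 : ∃ z, ∏ t, lin (fun l => η ⟨t, l⟩) (ver n (de (sx t)) (y (ts (sx t)) z)) ≠ 0 :=
    f1b_prod Finset.univ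
      (f := fun t z => lin (fun l => η ⟨t, l⟩) (ver n (de (sx t)) (y (ts (sx t)) z))) hd2 hη
  have hz3 : ∃ z, ∏ t : {x : κ // Q x},
      lin (fun l => η ⟨t.1, l⟩) (ver n (de (sx t.1)) (y (ts (sx t.1)) z)) ≠ 0 :=
    f1b_prod Finset.univ (f := fun (t : {x : κ // Q x}) z =>
      lin (fun l => η ⟨t.1, l⟩) (ver n (de (sx t.1)) (y (ts (sx t.1)) z)))
      (fun t => hd2 t.1) (fun t => hη t.1)
  have hd3 : Differentiable ℂ fun z => ∏ t : {x : κ // Q x},
      lin (fun l => η ⟨t.1, l⟩) (ver n (de (sx t.1)) (y (ts (sx t.1)) z)) :=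
    Differentiable.fun_finsetProd fun t _ => hd2 t.1
  have hd4 : Differentiable ℂ fun z => ∏ t,
      lin (fun l => η ⟨t, l⟩) (ver n (de (sx t)) (y (ts (sx t)) z)) :=
    Differentiable.fun_finsetProd fun t _ => hd2 t
  refine N1_mono (hd1.mul hd3) (f1b_mul hd1 hd3 hz1 hz3) (hd1.mul hd4) (f1b_mul hd1 hd4 hz1 hz2)
    ?_ hρ
  intro z hz
  rcases mul_eq_zero.1 hz with h | h
  · exact mul_eq_zero_of_left h _
  · obtain ⟨t, _, ht⟩ := Finset.prod_eq_zero_iff.1 h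
    exact mul_eq_zero_of_right _ (Finset.prod_eq_zero (Finset.mem_univ t.1) ht)

end Pool.Agent.H53R
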