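import Pool.Agent.Lib.H53Y.F03
import Pool.Agent.Lib.H53Y.F08
import Pool.Agent.Lib.H53R.F02
import Pool.Agent.Lib.H53R.F11
import Pool.Agent.Lib.H53R.F12c
import Pool.Agent.Lib.H53R.F13a
import Pool.Agent.Lib.H53R.F13b
import Pool.Agent.Lib.H89T.AlgFinal

set_option autoImplicit false

/-!
H53R, F13c (L): the second main theorem for fixed dimensions of the spans of the Veronese curves.
-/

open MvPolynomial Real MeasureTheory

namespace Pool.Agent.H53R

open Pool.Agent.H89T Pool.Agent.H78G Pool.Agent.H67T Pool.Agent.H53Y Pool.Agent.H49D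

/-- The conclusion for the forms `f` (large) and `η` (small) and the curves `y t`. -/
def SmtYP {τ : Type} [Fintype τ] {n : ℕ} {ιL σ κ : Type} [Fintype ιL] [Fintype κ] {d : ιL → ℕ}
    {de : σ → ℕ} (tl : ιL → τ) (ts : σ → τ) {sx : κ → σ} (b : τ → ℝ) (f : FV (Fin (n + 1)) d → ℂ)
    (η : LV (fun t : κ => NV n (de (sx t))) → ℂ) (y : τ → ℂ → Fin (n + 1) → ℂ) : Prop :=
  ∃ (C : ℝ) (E : Set ℝ), volume E < ⊤ ∧ ∀ ρ : ℝ, 2 ≤ ρ → ρ ∉ E →
    ∑ t, b t * chi (y t) ρ ≤ N1 (fun z => (∏ j, eval (y (tl j) z) (fmj f j)) *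
      ∏ t, lin (fun l => η ⟨t, l⟩) (ver n (de (sx t)) (y (ts (sx t)) z))) ρ + C * log ρ

private theorem f13c_inl {ιL κ τ σ : Type} [Fintype ιL] [Fintype κ] [DecidableEq τ] [DecidableEq σ]
    (tl : ιL → τ) (sx : κ → σ) (d : ιL → ℕ) (t : τ) :
    Dg (sbP tl sx) (dgO (κ := κ) d) (Sum.inl t) = Dg tl d t := by
  unfold Dg
  rw [Finset.sum_filter, Finset.sum_filter, Fintype.sum_sum_type]
  have h1 : (∑ x : κ, if sbP tl sx (Sum.inr x) = Sum.inl t then
      dgO (κ := κ) d (Sum.inr x) else 0) = 0 :=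
    Finset.sum_eq_zero fun x _ => if_neg (by
      intro h
      have h2 : (Sum.inr (sx x) : τ ⊕ σ) = Sum.inl t := h
      exact absurd h2 (by simp))
  rw [h1, add_zero]
  refine Finset.sum_congr rfl fun j _ => ?_
  have h3 : (sbP tl sx (Sum.inl j : ιL ⊕ κ) = Sum.inl t) ↔ tl j = t :=
    ⟨fun h => Sum.inl.inj h, fun h => congrArg Sum.inl h⟩
  by_cases hj : tl j = t
  · rw [if_pos (h3.2 hj), if_pos hj]
    rfl
  · rw [if_neg fun h => hj (h3.1 h), if_neg hj]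

private theorem f13c_inr {ιL κ τ σ : Type} [Fintype ιL] [Fintype κ] [DecidableEq τ] [DecidableEq σ]
    (tl : ιL → τ) (sx : κ → σ) (d : ιL → ℕ) (s : σ) :
    Dg (sbP tl sx) (dgO (κ := κ) d) (Sum.inr s) =
      ∑ x : κ, if sx x = s then 1 else 0 := by
  unfold Dg
  rw [Finset.sum_filter, Fintype.sum_sum_type]
  have h1 : (∑ j : ιL, if sbP tl sx (Sum.inl j : ιL ⊕ κ) = Sum.inr s then
      dgO (κ := κ) d (Sum.inl j) else 0) = 0 :=
    Finset.sum_eq_zero fun x _ => if_neg (by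
      intro h
      have h2 : (Sum.inl (tl x) : τ ⊕ σ) = Sum.inr s := h
      exact absurd h2 (by simp))
  rw [h1, zero_add]
  refine Finset.sum_congr rfl fun j _ => ?_
  have h3 : (sbP tl sx (Sum.inr j : ιL ⊕ κ) = Sum.inr s) ↔ sx j = s :=
    ⟨fun h => Sum.inr.inj h, fun h => congrArg Sum.inr h⟩
  by_cases hj : sx j = s
  · rw [if_pos (h3.2 hj), if_pos hj]
    rfl
  · rw [if_neg fun h => hj (h3.1 h), if_neg hj]

private theorem f13c_Dg {ι' τ : Type} [DecidableEq τ] [Fintype ι'] (src : ι' → τ) (d : ι' → ℕ) (t : τ) :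
    Dg src d t = ∑ i, if src i = t then d i else 0 := by
  unfold Dg
  rw [Finset.sum_filter]

private theorem f13c_sub {ι' τ : Type} [DecidableEq τ] [Fintype ι'] (src : ι' → τ) (d : ι' → ℕ) (t : τ) :
    Dg src d t = ∑ i : {i : ι' // src i = t}, d i.1 := by
  unfold Dg
  exact Finset.sum_subtype (Finset.univ.filter fun i => src i = t) (by simp) d

/-- The total degree of the small forms outside `S` over the factor `t`, and the weights of the
blocks. -/
private theorem f13c_blocks {ιL κ τ σ : Type} [Fintype ιL] [Fintype κ] [DecidableEq τ] [DecidableEq σ]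
    {ts : σ → τ} {de : σ → ℕ} (hde : ∀ s, 1 ≤ de s) (tl : ιL → τ) (sx : κ → σ) (d : ιL → ℕ)
    (Dt : τ → ℕ) (hup : ∀ t, Dg tl d t + Dg (fun x => ts (sx x)) (fun x => de (sx x)) t ≤ Dt t)
    (Q : κ → Prop) [Fintype {x : κ // Q x}] (s : τ ⊕ σ) :
    Dg (sbP tl (fun x : {x : κ // Q x} => sx x.1)) (dgO (κ := {x : κ // Q x}) d) s ≤
      Dt (srcP ts s) := by
  classical
  rcases s with t | s
  · rw [f13c_inl]
    exact (Nat.le_add_right _ _).trans (hup t)
  · rw [f13c_inr]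
    refine le_trans ?_ ((Nat.le_add_left _ _).trans (hup (ts s)))
    rw [f13c_Dg]
    calc (∑ x : {x : κ // Q x}, if sx x.1 = s then 1 else 0)
        = ∑ x ∈ Finset.univ.filter Q, (if sx x = s then 1 else 0) :=
          (Finset.sum_subtype (Finset.univ.filter Q) (by simp) fun x => if sx x = s then 1 else 0).symm
      _ ≤ ∑ x : κ, (if sx x = s then 1 else 0) :=
          Finset.sum_le_sum_of_subset (Finset.subset_univ _)
      _ ≤ ∑ x : κ, if ts (sx x) = ts s then de (sx x) else 0 := by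
          refine Finset.sum_le_sum fun x _ => ?_
          by_cases hx : sx x = s
          · rw [if_pos hx, if_pos (by rw [hx])]
            exact hde _
          · rw [if_neg hx]
            exact Nat.zero_le _

/-- The numerical inequality for the factor `t`. -/
private theorem f13c_num {ιL τ σ : Type} [Fintype ιL] [DecidableEq τ] [Fintype σ] {ts : σ → τ}
    {de : σ → ℕ} {tl : ιL → τ} {d dB : ιL → ℕ} {ε α β : ℝ} (hε : 0 < ε)
    {k0 b₀ μ es CA CB r K₁ κ' : ℕ} {M Dt : τ → ℕ} (t : τ) (hb₀ : b₀ = k0 * es)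
    (hes : es = 1 + ∑ s, de s) (hα : α * b₀ ≤ ε / 16) (hβ : β * (μ + 1) ≤ ε / 16)
    (hM : (M t : ℝ) ≤ α * r * Dt t + CA) (hdB : ∀ j, (dB j : ℝ) ≤ β * d j + CB)
    (hd : ∀ j, ((μ : ℝ) + 1) * CB ≤ ε / 16 * d j) (hD : Dg tl d t ≤ Dt t)
    (hκ : (1 - ε / 16) * Dt t - K₁ ≤ κ')
    (hD1 : (b₀ : ℝ) * CA + r * (es * (μ + 1)) + r * K₁ ≤ ε / 16 * (r * Dt t)) :
    (costP ts tl de dB k0 r μ M t : ℝ) ≤
      r * κ' - (1 - ε / 2) * Dt t * r - ε / 16 * Dt t * r := by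
  have h1 := numerics (ε := ε) (α := α) (β := β) hε (b₀ := b₀) (μ := μ) (es := es) (CA := CA)
    (CB := CB) (r := r) (M := M t) (K₁ := K₁) (D := Dt t) (κ' := κ')
    (fun j : {j : ιL // tl j = t} => d j.1) (fun j : {j : ιL // tl j = t} => dB j.1)
    hα hβ hM (fun j => hdB j.1) (fun j => hd j.1) (by rw [← f13c_sub]; exact hD) hκ hD1
  have h2 : 1 + Dg ts de t ≤ es := by
    rw [hes, f13c_Dg]
    refine Nat.add_le_add_left (Finset.sum_le_sum fun s _ => ?_) _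
    split_ifs
    · exact le_rfl
    · exact Nat.zero_le _
  have h3 : costP ts tl de dB k0 r μ M t ≤ b₀ * M t +
      r * (∑ j : {j : ιL // tl j = t}, (μ + 1) * dB j.1) + r * (es * (μ + 1)) := by
    unfold costP
    refine add_le_add (add_le_add ?_ ?_) ?_
    · rw [hb₀]
      calc k0 * (M t * (1 + Dg ts de t)) ≤ k0 * (M t * es) :=
            Nat.mul_le_mul_left _ (Nat.mul_le_mul_left _ h2)
        _ = k0 * es * M t := by ring
    · rw [← Finset.mul_sum, ← f13c_sub]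
    · exact Nat.mul_le_mul_left _ (Nat.mul_le_mul_right _ h2)
  have h4 : (costP ts tl de dB k0 r μ M t : ℝ) ≤ ((b₀ * M t +
      r * (∑ j : {j : ιL // tl j = t}, (μ + 1) * dB j.1) + r * (es * (μ + 1)) : ℕ) : ℝ) := by
    exact_mod_cast h3
  refine h4.trans (h1.trans (le_of_eq ?_))
  ring

/-- CHUNK F13c (L).  Port of `H53Y.fixed_dim` (Lib/H53Y/F13c.lean).  Differences:
* `c = card τ * (2 * ((n + 1) * (n + 1))) + ∑ s, 2 * ((m s + 1) * (NV n (de s) + 1))` (if `τ` is empty: `c` may be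
  small; the large block type needs `2 ≤ n + c` only for `s = inl t`, so then `τ` is not empty and
  `2 ≤ c`), `b₀ = card (τ ⊕ σ) * (n * μ + μ ^ 2) * es`, `es = 1 + ∑ s, de s`;
* `Db s = Dt (srcP ts s)` in `AC_P` (`1 ≤ Dt t`; `Dg (sbP tl sx') (dgO d) s ≤ Dt (srcP ts s)` because it is
  at most the total degree over the factor: for `inl t` it is `Dg tl d t`, for `inr s` it is
  `Nat.card {x // sx x = s} ≤ Dg (ts ∘ sx) (de ∘ sx) (ts s)`);
* weights `M t = ⌊α * r * Dt t + CA⌋₊`;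
* `numerics` (H53Y/F03) for every `t`, with the index type `{j // tl j = t}` (or: with `d' j = if tl j = t then d j
  else 0`.. but `hd` there needs `16 (μ + 1) CB ≤ ε d j`; the subtype is better), `costP .. t ≤ b₀ * M t + ..`
  (`1 + Dg ts de t ≤ es`);
* `degree_outsideP` for every `t`;
* `finish_smtP` with `b t = (1 - ε / 2) * Dt t`, `δ t = ε / 16 * Dt t`. -/
theorem fixed_dimP (hAC : AC_P) (hD : D_P) (hE : E_P) {τ : Type} [Fintype τ] [DecidableEq τ] {n : ℕ}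
    (hn : 1 ≤ n) {ε : ℝ} (hε : 0 < ε) (hε1 : ε ≤ 1) {σ : Type} [Fintype σ] [DecidableEq σ] (ts : σ → τ)
    (m de : σ → ℕ) (hm : ∀ s, 1 ≤ m s) (hde : ∀ s, 1 ≤ de s) :
    ∃ K₁ : ℕ, ∀ (ιL κ : Type) [Fintype ιL] [Fintype κ] (tl : ιL → τ) (d : ιL → ℕ) (sx : κ → σ)
      (Dt : τ → ℕ), (∀ t, K₁ ≤ Dt t) → (∀ j, K₁ ≤ d j) →
      (∀ s, (∃ t, sx t = s) → K₁ ≤ Nat.card {t : κ // sx t = s}) →
      (∀ t, (1 - ε / 32) * Dt t ≤
        ((Dg tl d t + Dg (fun x => ts (sx x)) (fun x => de (sx x)) t : ℕ) : ℝ)) →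
      (∀ t, Dg tl d t + Dg (fun x => ts (sx x)) (fun x => de (sx x)) t ≤ Dt t) →
      ∃ Ξ : MvPolynomial (FV (Fin (n + 1)) d ⊕ LV (fun t : κ => NV n (de (sx t)))) ℂ, Ξ ≠ 0 ∧
        ∀ (f : FV (Fin (n + 1)) d → ℂ) (η : LV (fun t : κ => NV n (de (sx t))) → ℂ),
          eval (Sum.elim f η) Ξ ≠ 0 → ∀ y : τ → ℂ → Fin (n + 1) → ℂ, (∀ t, IsHol (y t)) →
          (∀ t, ∃ z w, ∀ c : ℂ, y t w ≠ c • y t z) →
          (∀ j, ∃ z, eval (y (tl j) z) (fmj f j) ≠ 0) →
          (∀ t, ∃ z, lin (fun l => η ⟨t, l⟩) (ver n (de (sx t)) (y (ts (sx t)) z)) ≠ 0) →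
          (∀ s, SpanDim (m s) (fun z => ver n (de s) (y (ts s) z))) →
          SmtYP tl ts (fun t => (1 - ε / 2) * Dt t) f η y := by
  classical
  -- constants
  set c : ℕ := Fintype.card τ * (2 * ((n + 1) * (n + 1))) +
    ∑ s, 2 * ((m s + 1) * (NV n (de s) + 1)) with hc
  set μ : ℕ := n + c + ∑ s, m s with hμ
  set es : ℕ := 1 + ∑ s, de s with hes
  set b₀ : ℕ := Fintype.card (τ ⊕ σ) * (n * μ + μ ^ 2) * es with hb₀
  have hmO1 : ∀ s : τ ⊕ σ, 1 ≤ mP (n + c) m s := by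
    rintro (t | s)
    · show 1 ≤ n + c
      omega
    · exact hm s
  have hmOμ : ∀ s : τ ⊕ σ, mP (n + c) m s ≤ μ := by
    rintro (t | s)
    · show n + c ≤ μ
      rw [hμ]; exact Nat.le_add_right _ _
    · show m s ≤ μ
      rw [hμ]
      exact (Finset.single_le_sum (fun _ _ => Nat.zero_le _) (Finset.mem_univ s)).trans
        (Nat.le_add_left _ _)
  set nt : ℕ := Fintype.card (Co (mP (τ := τ) (n + c) m)) with hnt
  set e : Co (mP (τ := τ) (n + c) m) ≃ Fin nt := Fintype.equivFin _ with he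
  set α : ℝ := ε / (16 * (b₀ + 1)) with hα
  have hα0 : 0 < α := by rw [hα]; positivity
  obtain ⟨r, CA, hr, hr1, hA⟩ := hAC (mP (τ := τ) (n + c) m) tyP e hmO1
    (by
      rintro (t | s) h
      · show 2 ≤ n + c
        have h1 : 1 ≤ Fintype.card τ := Fintype.card_pos_iff.2 ⟨t⟩
        have h2 : 1 * (2 * ((n + 1) * (n + 1))) ≤ Fintype.card τ * (2 * ((n + 1) * (n + 1))) :=
          Nat.mul_le_mul_right _ h1
        have h3 : Fintype.card τ * (2 * ((n + 1) * (n + 1))) ≤ c := by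
          rw [hc]; exact Nat.le_add_right _ _
        nlinarith
      · simp [tyP] at h) α hα0
  set β : ℝ := ε / (16 * (μ + 1)) with hβ
  have hβ0 : 0 < β := by rw [hβ]; positivity
  obtain ⟨CB, hB⟩ := H89T.algB (n + c) (by omega) β hβ0
  obtain ⟨nb, hnb⟩ : ∃ nb : ℕ, 1 ≤ nb ∧ 2 * c ≤ nb ∧ (32 * c : ℝ) / ε ≤ nb := by
    obtain ⟨nb, hnb⟩ := exists_nat_ge ((32 * c : ℝ) / ε)
    refine ⟨nb + 2 * c + 1, by omega, by omega, hnb.trans ?_⟩
    push_cast
    have : (0 : ℝ) ≤ c := Nat.cast_nonneg c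
    linarith
  obtain ⟨hnb1, hnb2, hnb3⟩ := hnb
  obtain ⟨Ka, hKa⟩ := exists_nat_ge
    (16 * ((b₀ : ℝ) * CA + r * (es * (μ + 1)) + r * ((c * es : ℕ) : ℝ)) / ε)
  obtain ⟨Kb, hKb⟩ := exists_nat_ge (16 * (((μ : ℝ) + 1) * CB) / ε)
  refine ⟨Ka + Kb + CA + CB + 2 * (c + (μ + 1)) + 1, ?_⟩
  intro ιL κ _ _ tl d sx Dt hDt hd hκ hlow hup
  have hdA : ∀ j, CA ≤ d j := fun j => le_trans (by omega) (hd j)
  have hdB : ∀ j, CB ≤ d j := fun j => le_trans (by omega) (hd j)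
  have hd1 : ∀ j, 1 ≤ d j := fun j => le_trans (by omega) (hd j)
  have hdKb : ∀ j, Kb ≤ d j := fun j => le_trans (by omega) (hd j)
  have hDt1 : ∀ t, 1 ≤ Dt t := fun t => le_trans (by omega) (hDt t)
  obtain ⟨part, hpart⟩ := exists_part sx hnb1
  have hd0 : ∀ S : Finset (Fin nb), ∀ i : ιL ⊕ {x : κ // part x ∉ S},
      tyP (sbP tl (fun x : {x : κ // part x ∉ S} => sx x.1) i) = true → dgO d i = 1 := by
    rintro S (j | t) h
    · simp [sbP, tyP] at h
    · rfl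
  have hd2 : ∀ S : Finset (Fin nb), ∀ i : ιL ⊕ {x : κ // part x ∉ S},
      tyP (sbP tl (fun x : {x : κ // part x ∉ S} => sx x.1) i) = false → CA ≤ dgO d i := by
    rintro S (j | t) h
    · exact hdA j
    · simp [sbP, tyP] at h
  choose W hW0 hW using fun S : Finset (Fin nb) => hA (ιL ⊕ {x : κ // part x ∉ S})
    (sbP tl (fun x : {x : κ // part x ∉ S} => sx x.1)) (dgO d) (fun s => Dt (srcP ts s))
    (hd0 S) (hd2 S) (fun s => hDt1 _)
    (f13c_blocks hde tl sx d Dt hup fun x => part x ∉ S)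
  choose WB hWB0 hWB using fun j : ιL => hB (d j) (hdB j)
  obtain ⟨x, hx, Θ, hΘ0, hΘ⟩ := exists_goodP tl d m sx part e W hW0 WB hWB0
  obtain ⟨Ξ₁, hΞ₁, hΞ⟩ := hE tl d m (fun s => NV n (de s)) sx part hd1 (le_of_eq hc.symm) Θ
    (fun S _ => hΘ0 S)
  obtain ⟨Ξ₂, hΞ₂, hgp⟩ := exists_gp (n := n) d
  refine ⟨Ξ₁ * rename Sum.inl Ξ₂, mul_ne_zero hΞ₁ ?_, ?_⟩
  · rw [Ne, map_eq_zero_iff _ (rename_injective _ Sum.inl_injective)]
    exact hΞ₂
  intro f η hfη y hy hnc hf hη hL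
  rw [map_mul, eval_rename] at hfη
  have hf₁ := left_ne_zero_of_mul hfη
  have hf₂ : eval f Ξ₂ ≠ 0 := by
    have := right_ne_zero_of_mul hfη
    rwa [Sum.elim_comp_inl] at this
  obtain ⟨z₀, A, A', Lam, Lb, hAA, hA'A, hz₀, hns, hLL, hspan, hWr, hw, hf0, hη0, hzL⟩ :=
    exists_framesP e x hy hnc f η hf hη hL
  have hA0 : ∀ t, (fun i => A t i 0) = y t z₀ := by
    intro t
    have h1 : (A t).mulVec ((A' t).mulVec (y t z₀)) = y t z₀ := by
      rw [Matrix.mulVec_mulVec, hAA, Matrix.one_mulVec]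
    rw [← h1, hz₀, Matrix.mulVec_single_one]
    rfl
  obtain ⟨S, hS, lam, sE, E, hlam, hEh, hΘS⟩ := hΞ f η hf₁ A A' hA'A Lam Lb hLL
    (fun j => by rw [hA0]; exact hf0 j)
  obtain ⟨hWS, hWBS, hgen⟩ := hΘ S _ _ hΘS
  obtain ⟨M, hM⟩ : ∃ M : τ → ℕ, ∀ t, M t = ⌊α * r * Dt t + CA⌋₊ := ⟨_, fun _ => rfl⟩
  obtain ⟨dB, hdBe⟩ : ∃ dB : ιL → ℕ, ∀ j, dB j = ⌊β * d j + CB⌋₊ := ⟨_, fun _ => rfl⟩
  obtain ⟨C, hC, hineq⟩ := one_curveP (M := M) (μ := μ) hD hn hd1 hm e hr1 hr hmOμ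
    hy hAA hA'A hz₀ hns hspan hWr hx hw f (sx := fun t : {x : κ // part x ∉ S} => sx t.1)
    (fun p => η ⟨p.1.1, p.2⟩) hf0
    (fun t => hη0 t.1) sE hlam hEh (fun t z => hgp f hf₂ (y t z) ((hy t).ne_zero z)) hgen
    (fun s hs => card_outside_ge hpart hnb2 S hS s (by
      obtain ⟨t, ht⟩ := hs
      have h1 := hκ s ⟨t.1, ht⟩
      have h2 : m s ≤ μ := hmOμ (Sum.inr s)
      omega))
    (fun z hz => hzL z (by
      rcases hz with hz | ⟨t, ht⟩
      · exact Or.inl hz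
      · exact Or.inr ⟨t.1, ht⟩))
    dB
    (by
      intro j k ξ h0 hev hjet
      have h00 : (fun b => ξ (b, 0)) = bpt (fun b => x (e ⟨Sum.inl (tl j), b⟩)) k := funext h0
      obtain ⟨dd, Q, h1, h2, h3, h4⟩ := hWB j _ ξ (by rw [h00]; exact hWBS j k) hev hjet
      refine ⟨Q, HasWt.mono h2 ?_, h3, h4⟩
      rw [hdBe]
      exact Nat.le_floor h1)
    (by
      intro ξ h0 hfv hWd hjet
      have h00 : (fun b => ξ (b, 0)) = x := funext h0
      obtain ⟨dd, P, h1, h2, h3, h4⟩ := hW S _ ξ (by rw [h00]; exact hWS)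
        (by rw [h00]; exact hfv)
        (by
          rintro (t | s) hs
          · simp [tyP] at hs
          · exact hWd s)
        (by
          rintro (t | s) hs
          · exact hjet t
          · simp [tyP] at hs)
      refine ⟨P, HasWtB.mono h2 (fun s => ?_), h3, h4⟩
      rw [hM]
      exact Nat.le_floor (h1 s))
  have hr0 : (1 : ℝ) ≤ r := by exact_mod_cast hr1
  have hDt0 : ∀ t, (1 : ℝ) ≤ Dt t := fun t => by exact_mod_cast hDt1 t
  have hDtKa : ∀ t, (Ka : ℝ) ≤ Dt t := by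
    intro t
    have : Ka ≤ Dt t := le_trans (by omega) (hDt t)
    exact_mod_cast this
  -- the degree outside `S`
  have hdeg : ∀ t, (1 - ε / 16) * Dt t - ((c * es : ℕ) : ℝ) ≤
      ((Dg tl d t + Dg (fun x : {x : κ // part x ∉ S} => ts (sx x.1)) (fun x => de (sx x.1)) t : ℕ)
        : ℝ) := by
    intro t
    have h1 := degree_outsideP (ts := ts) (de := de) hpart S hS t
    have hlowt := hlow t
    have hupt := hup t
    set X : ℕ := Dg (fun x => ts (sx x)) (fun x => de (sx x)) t with hX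
    set X' : ℕ := Dg (fun x : {x : κ // part x ∉ S} => ts (sx x.1)) (fun x => de (sx x.1)) t with hX'
    have hde' : Dg ts de t ≤ ∑ s, de s := by
      rw [f13c_Dg]
      refine Finset.sum_le_sum fun s _ => ?_
      split_ifs
      · exact le_rfl
      · exact Nat.zero_le _
    have h1' : nb * X ≤ nb * X' + c * (X + nb * ∑ s, de s) :=
      h1.trans (Nat.add_le_add_left (Nat.mul_le_mul_left _ (Nat.add_le_add_left
        (Nat.mul_le_mul_left _ hde') _)) _)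
    have h2 : (nb : ℝ) * X ≤ nb * X' + c * (X + nb * (∑ s, de s : ℕ)) := by exact_mod_cast h1'
    have hnb0 : (1 : ℝ) ≤ nb := by exact_mod_cast hnb1
    have h3 : (c : ℝ) ≤ ε / 32 * nb := by
      rw [div_le_iff₀ hε] at hnb3
      linarith
    have hXD : (X : ℝ) ≤ Dt t := by
      have : X ≤ Dt t := le_trans (Nat.le_add_left _ _) hupt
      exact_mod_cast this
    have hc0 : (0 : ℝ) ≤ c := Nat.cast_nonneg c
    have h4 : (c : ℝ) * X ≤ ε / 32 * nb * Dt t :=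
      mul_le_mul h3 hXD (Nat.cast_nonneg X) (by positivity)
    have h5 : (nb : ℝ) * (X - X' - ε / 32 * Dt t - c * (∑ s, de s : ℕ)) ≤ nb * 0 := by
      rw [mul_zero]
      nlinarith
    have h6 := le_of_mul_le_mul_left h5 (by linarith)
    have h7 : ((c * es : ℕ) : ℝ) = c + c * (∑ s, de s : ℕ) := by
      rw [hes]
      push_cast
      ring
    rw [h7]
    push_cast at hlowt ⊢
    push_cast at h6
    linarith
  -- numerics
  have hcost : ∀ t, (costP ts tl de dB (Fintype.card (τ ⊕ σ) * (n * μ + μ ^ 2)) r μ M t : ℝ) ≤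
      r * ((Dg tl d t + Dg (fun x : {x : κ // part x ∉ S} => ts (sx x.1))
        (fun x => de (sx x.1)) t : ℕ) : ℝ) - (1 - ε / 2) * Dt t * r - ε / 16 * Dt t * r := by
    intro t
    refine f13c_num (α := α) (β := β) (CA := CA) (CB := CB) (K₁ := c * es) (d := d) hε t hb₀ hes
      ?_ ?_ ?_ (fun j => ?_) (fun j => ?_) ((Nat.le_add_right _ _).trans (hup t)) (hdeg t) ?_
    · rw [hα, div_mul_eq_mul_div, div_le_div_iff₀ (by positivity) (by norm_num)]
      nlinarith [(Nat.cast_nonneg b₀ : (0 : ℝ) ≤ b₀)]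
    · rw [hβ, div_mul_eq_mul_div, div_le_div_iff₀ (by positivity) (by norm_num)]
      nlinarith [(Nat.cast_nonneg μ : (0 : ℝ) ≤ μ)]
    · rw [hM]
      exact Nat.floor_le (by positivity)
    · rw [hdBe]
      exact Nat.floor_le (by positivity)
    · have h1 : (Kb : ℝ) ≤ d j := by exact_mod_cast hdKb j
      have h2 := hKb.trans h1
      rw [div_le_iff₀ hε] at h2
      linarith
    · have h2 := hKa.trans (hDtKa t)
      rw [div_le_iff₀ hε] at h2
      have h3 : ε * Dt t ≤ ε * (r * Dt t) := by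
        refine mul_le_mul_of_nonneg_left ?_ hε.le
        nlinarith [hDt0 t]
      linarith
  exact finish_smtP hy (fun t => Dg tl d t + Dg (fun x : {x : κ // part x ∉ S} => ts (sx x.1))
      (fun x => de (sx x.1)) t)
    (fun t => costP ts tl de dB (Fintype.card (τ ⊕ σ) * (n * μ + μ ^ 2)) r μ M t)
    (fun t => (1 - ε / 2) * Dt t) (fun t => ε / 16 * Dt t) hr1
    (fun t => mul_pos (by positivity) (lt_of_lt_of_le one_pos (hDt0 t))) hcost
    (fun ρ hρ => N1_subP hy f η hf hη (fun t => part t ∉ S) hρ) hC hineq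

end Pool.Agent.H53R
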