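import Pool.Agent.Lib.H53R.FD
import Pool.Agent.Lib.H53Y.F14

set_option autoImplicit false

/-!
H53R, chunk F14 (M, eight lemmas): the large forms and the small forms of frequent degrees.
Port of Lib/H53Y/F14.lean: `ι` with `src : ι → τ`; small blocks `σ = τ × Fin E₀`.
-/

open MvPolynomial Real MeasureTheory

namespace Pool.Agent.H53R

open Pool.Agent.H89T Pool.Agent.H78G Pool.Agent.H67T Pool.Agent.H53Y Pool.Agent.H49D

section

variable {ι τ : Type} (src : ι → τ) (d : ι → ℕ) (E₀ K : ℕ)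

/-- The small forms whose degree occurs at least `K` times on the same factor. -/
abbrev ISP : Type :=
  {i : ι // (1 ≤ d i ∧ d i ≤ E₀) ∧ K ≤ Nat.card {i' : ι // src i' = src i ∧ d i' = d i}}

/-- The block of a small form. -/
def sxP (x : ISP src d E₀ K) : τ × Fin E₀ := (src x.1, ⟨d x.1 - 1, by have := x.2.1; omega⟩)

/-- The degrees of the blocks. -/
def deP (τ : Type) (E₀ : ℕ) (s : τ × Fin E₀) : ℕ := (s.2 : ℕ) + 1

theorem deP_sxP (x : ISP src d E₀ K) : deP τ E₀ (sxP src d E₀ K x) = d x.1 := by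
  have := x.2.1
  show d x.1 - 1 + 1 = d x.1
  omega

/-- CHUNK F14a.  Port of `H53Y.card_block`. -/
theorem card_blockP [Finite ι] (s : τ × Fin E₀) (h : ∃ x, sxP src d E₀ K x = s) :
    K ≤ Nat.card {x : ISP src d E₀ K // sxP src d E₀ K x = s} := by
  obtain ⟨t₀, ht₀⟩ := h
  refine t₀.2.2.trans ?_
  have hval : ∀ t : ISP src d E₀ K, ((sxP src d E₀ K t).2 : ℕ) + 1 = d t.1 := fun t =>
    deP_sxP src d E₀ K t
  have hF : ∀ i : {i' : ι // src i' = src t₀.1 ∧ d i' = d t₀.1}, (1 ≤ d i.1 ∧ d i.1 ≤ E₀) ∧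
      K ≤ Nat.card {i' : ι // src i' = src i.1 ∧ d i' = d i.1} := by
    intro i
    rw [i.2.1, i.2.2]
    exact t₀.2
  refine Nat.card_le_card_of_injective (fun i : {i' : ι // src i' = src t₀.1 ∧ d i' = d t₀.1} =>
    (⟨⟨i.1, hF i⟩, ?_⟩ : {x : ISP src d E₀ K // sxP src d E₀ K x = s})) ?_
  · rw [← ht₀]
    refine Prod.ext i.2.1 ?_
    apply Fin.ext
    have h1 := hval ⟨i.1, hF i⟩
    have h2 := hval t₀
    have h3 := i.2.2
    simp only at h1
    omega
  · intro i j hij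
    have h1 := congrArg (fun t : {x : ISP src d E₀ K // sxP src d E₀ K x = s} => t.1.1) hij
    exact Subtype.ext h1

private theorem f14_Dg {ι' τ : Type} [DecidableEq τ] [Fintype ι'] (src : ι' → τ) (d : ι' → ℕ) (t : τ) :
    Dg src d t = ∑ i, if src i = t then d i else 0 := by
  unfold Dg
  rw [Finset.sum_filter]

private theorem f14_DgS [DecidableEq τ] [Fintype (ISP src d E₀ K)] (t : τ) :
    Dg (fun x : ISP src d E₀ K => (sxP src d E₀ K x).1)
        (fun x => deP τ E₀ (sxP src d E₀ K x)) t =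
      ∑ x : ISP src d E₀ K, if src x.1 = t then d x.1 else 0 := by
  rw [f14_Dg]
  refine Finset.sum_congr rfl fun x _ => ?_
  rw [deP_sxP]
  rfl

/-- CHUNK F14b.  Port of `H53Y.degree_le` for the forms on the factor `t`. -/
theorem degree_leP [DecidableEq τ] [Fintype ι] [Fintype (IL d E₀)] [Fintype (ISP src d E₀ K)] (t : τ) :
    Dg (fun j : IL d E₀ => src j.1) (fun j => d j.1) t +
      Dg (fun x : ISP src d E₀ K => (sxP src d E₀ K x).1)
        (fun x => deP τ E₀ (sxP src d E₀ K x)) t ≤ Dg src d t := by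
  classical
  rw [f14_DgS, f14_Dg, f14_Dg]
  rw [← Finset.sum_subtype (Finset.univ.filter fun i => E₀ < d i) (by simp)
      (fun i => if src i = t then d i else 0),
    ← Finset.sum_subtype (Finset.univ.filter fun i => (1 ≤ d i ∧ d i ≤ E₀) ∧
      K ≤ Nat.card {i' : ι // src i' = src i ∧ d i' = d i}) (by simp)
      (fun i => if src i = t then d i else 0), ← Finset.sum_union]
  · exact Finset.sum_le_sum_of_subset (Finset.subset_univ _)
  · rw [Finset.disjoint_left]
    intro i hi hi'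
    rw [Finset.mem_filter] at hi hi'
    omega

/-- CHUNK F14c.  Port of `H53Y.degree_ge` for the forms on the factor `t` (for each of the degrees
`1, ..., E₀` fewer than `K` forms on the factor `t` are dropped). -/
theorem degree_geP [DecidableEq τ] [Fintype ι] [Fintype (IL d E₀)] [Fintype (ISP src d E₀ K)]
    (hd : ∀ i, 1 ≤ d i) (t : τ) :
    Dg src d t ≤ Dg (fun j : IL d E₀ => src j.1) (fun j => d j.1) t +
      Dg (fun x : ISP src d E₀ K => (sxP src d E₀ K x).1)
        (fun x => deP τ E₀ (sxP src d E₀ K x)) t + E₀ * (E₀ * K) := by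
  classical
  rw [f14_DgS, f14_Dg, f14_Dg]
  rw [← Finset.sum_subtype (Finset.univ.filter fun i => E₀ < d i) (by simp)
      (fun i => if src i = t then d i else 0),
    ← Finset.sum_subtype (Finset.univ.filter fun i => (1 ≤ d i ∧ d i ≤ E₀) ∧
      K ≤ Nat.card {i' : ι // src i' = src i ∧ d i' = d i}) (by simp)
      (fun i => if src i = t then d i else 0), ← Finset.sum_union]
  · set A := (Finset.univ.filter fun i => E₀ < d i) ∪
      (Finset.univ.filter fun i => (1 ≤ d i ∧ d i ≤ E₀) ∧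
      K ≤ Nat.card {i' : ι // src i' = src i ∧ d i' = d i}) with hA
    have h1 : (∑ i, if src i = t then d i else 0) = (∑ i ∈ A, if src i = t then d i else 0) +
        ∑ i ∈ Aᶜ, if src i = t then d i else 0 := (Finset.sum_add_sum_compl A _).symm
    rw [h1]
    refine Nat.add_le_add_left ?_ _
    rw [← Finset.sum_filter]
    have hmem : ∀ i ∈ Aᶜ.filter (fun i => src i = t), 1 ≤ d i ∧ d i ≤ E₀ ∧
        Nat.card {i' : ι // src i' = src i ∧ d i' = d i} < K := by
      intro i hi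
      rw [Finset.mem_filter, Finset.mem_compl, hA, Finset.mem_union, Finset.mem_filter,
        Finset.mem_filter] at hi
      obtain ⟨hi, -⟩ := hi
      push Not at hi
      have h2 := hi.1 (Finset.mem_univ _)
      have h3 := hi.2 (Finset.mem_univ _) ⟨hd i, h2⟩
      exact ⟨hd i, h2, h3⟩
    have hsrc : ∀ i ∈ Aᶜ.filter (fun i => src i = t), src i = t := fun i hi =>
      (Finset.mem_filter.1 hi).2
    obtain ⟨B, hB⟩ : ∃ B, B = Aᶜ.filter (fun i => src i = t) := ⟨_, rfl⟩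
    rw [← hB] at hmem hsrc ⊢
    rw [← Finset.sum_fiberwise_of_maps_to (s := B) (t := Finset.Icc 1 E₀) (g := d)
      (fun i hi => Finset.mem_Icc.2 ⟨(hmem i hi).1, (hmem i hi).2.1⟩)]
    have h4 : ∀ e ∈ Finset.Icc 1 E₀, ∑ i ∈ B.filter (fun i => d i = e), d i ≤ E₀ * K := by
      intro e he
      rw [Finset.mem_Icc] at he
      by_cases hne : (B.filter (fun i => d i = e)).Nonempty
      · obtain ⟨i₀, hi₀⟩ := hne
        rw [Finset.mem_filter] at hi₀
        have h5 := (hmem i₀ hi₀.1).2.2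
        have h6 : (B.filter (fun i => d i = e)).card ≤
            Nat.card {i' : ι // src i' = src i₀ ∧ d i' = d i₀} := by
          rw [Nat.card_eq_fintype_card, Fintype.card_subtype]
          refine Finset.card_le_card fun i hi => ?_
          rw [Finset.mem_filter] at hi ⊢
          exact ⟨Finset.mem_univ _, (hsrc i hi.1).trans (hsrc i₀ hi₀.1).symm,
            hi.2.trans hi₀.2.symm⟩
        calc ∑ i ∈ B.filter (fun i => d i = e), d i
            ≤ ∑ i ∈ B.filter (fun i => d i = e), E₀ := by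
              refine Finset.sum_le_sum fun i hi => ?_
              rw [Finset.mem_filter] at hi
              exact (hmem i hi.1).2.1
          _ = (B.filter (fun i => d i = e)).card * E₀ := by rw [Finset.sum_const, smul_eq_mul]
          _ ≤ K * E₀ := Nat.mul_le_mul_right _ (h6.trans h5.le)
          _ = E₀ * K := Nat.mul_comm _ _
      · rw [Finset.not_nonempty_iff_eq_empty] at hne
        rw [hne, Finset.sum_empty]
        exact Nat.zero_le _
    refine (Finset.sum_le_sum h4).trans ?_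
    rw [Finset.sum_const, smul_eq_mul, Nat.card_Icc, Nat.add_sub_cancel]
  · rw [Finset.disjoint_left]
    intro i hi hi'
    rw [Finset.mem_filter] at hi hi'
    omega

variable (n : ℕ)

/-- The variables of the large and of the small forms as variables of all forms. -/
noncomputable def phP : FV (Fin (n + 1)) (fun j : IL d E₀ => d j.1) ⊕
    LV (fun x : ISP src d E₀ K => NV n (deP τ E₀ (sxP src d E₀ K x))) → FV (Fin (n + 1)) d
  | Sum.inl p => ⟨p.1.1, p.2⟩
  | Sum.inr p =>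
    ⟨p.1.1, ⟨(vix n _ p.2).1, by rw [← deP_sxP src d E₀ K p.1]; exact (vix n _ p.2).2⟩⟩

/-- CHUNK F14d.  Port of `H53Y.phS_injective`. -/
theorem phP_injective : Function.Injective (phP src d E₀ K n) := by
  have hfst : ∀ {p q : FV (Fin (n + 1)) d}, p = q → p.1 = q.1 := fun h => by rw [h]
  rintro (⟨⟨i, hi⟩, a⟩ | ⟨⟨i, hi⟩, l⟩) (⟨⟨i', hi'⟩, a'⟩ | ⟨⟨i', hi'⟩, l'⟩) h
  · have h1 : i = i' := hfst h
    subst h1
    have h2 : a = a' := eq_of_heq (Sigma.mk.inj_iff.1 h).2
    rw [h2]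
  · have h1 : i = i' := hfst h
    subst h1
    exact absurd hi'.1.2 (by omega)
  · have h1 : i = i' := hfst h
    subst h1
    exact absurd hi.1.2 (by omega)
  · have h1 : i = i' := hfst h
    subst h1
    have h2 := congrArg Subtype.val (eq_of_heq (Sigma.mk.inj_iff.1 h).2)
    have h3 : l = l' := (vix n _).injective (Subtype.ext h2)
    rw [h3]

/-- CHUNK F14e. -/
theorem fmj_phP (f : FV (Fin (n + 1)) d → ℂ) (j : IL d E₀) :
    fmj (fun p => f (phP src d E₀ K n (Sum.inl p))) j = fmj f j.1 := rfl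

/-- CHUNK F14f.  Port of `H53Y.lin_phS`. -/
theorem lin_phP (f : FV (Fin (n + 1)) d → ℂ) (x : ISP src d E₀ K) (v : Fin (n + 1) → ℂ) :
    lin (fun l => f (phP src d E₀ K n (Sum.inr ⟨x, l⟩))) (ver n (deP τ E₀ (sxP src d E₀ K x)) v) =
      eval v (fmj f x.1) := by
  have hF : (fmj f x.1).IsHomogeneous (deP τ E₀ (sxP src d E₀ K x)) := by
    rw [deP_sxP]
    exact fm_homogeneous _
  rw [← lin_vco hF v]
  unfold lin
  refine Finset.sum_congr rfl fun l _ => ?_
  have h1 := coeff_fm (fun δ : Ex (Fin (n + 1)) (d x.1) => f ⟨x.1, δ⟩)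
    ⟨(vix n _ l).1, by rw [← deP_sxP src d E₀ K x]; exact (vix n _ l).2⟩
  exact congrArg (· * ver n (deP τ E₀ (sxP src d E₀ K x)) v l) h1.symm

end

/-- CHUNK F14g.  Port of `H53Y.N1_kept`. -/
theorem N1_keptP {τ : Type} {n : ℕ} {ι : Type} [Fintype ι] {d : ι → ℕ} {src : ι → τ}
    {y : τ → ℂ → Fin (n + 1) → ℂ} (hy : ∀ t, IsHol (y t))
    (f : FV (Fin (n + 1)) d → ℂ) (hf : ∀ i, ∃ z, eval (y (src i) z) (fmj f i) ≠ 0)
    (P Q : ι → Prop) [Fintype {i // P i}] [Fintype {i // Q i}] {ρ : ℝ} (hρ : 1 ≤ ρ) :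
    N1 (fun z => (∏ j : {i // P i}, eval (y (src j.1) z) (fmj f j.1)) *
        ∏ t : {i // Q i}, eval (y (src t.1) z) (fmj f t.1)) ρ ≤
      N1 (fun z => ∏ i, eval (y (src i) z) (fmj f i)) ρ := by
  have hd1 : ∀ i, Differentiable ℂ fun z => eval (y (src i) z) (fmj f i) := fun i =>
    differentiable_eval (hy (src i)).diff _
  have hP : Differentiable ℂ fun z => ∏ j : {i // P i}, eval (y (src j.1) z) (fmj f j.1) :=
    Differentiable.fun_finsetProd fun j _ => hd1 j.1
  have hQ : Differentiable ℂ fun z => ∏ t : {i // Q i}, eval (y (src t.1) z) (fmj f t.1) :=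
    Differentiable.fun_finsetProd fun j _ => hd1 j.1
  have hP0 : ∃ z, (∏ j : {i // P i}, eval (y (src j.1) z) (fmj f j.1)) ≠ 0 :=
    f1b_prod (f := fun (j : {i // P i}) z => eval (y (src j.1) z) (fmj f j.1)) Finset.univ
      (fun j => hd1 j.1) fun j => hf j.1
  have hQ0 : ∃ z, (∏ j : {i // Q i}, eval (y (src j.1) z) (fmj f j.1)) ≠ 0 :=
    f1b_prod (f := fun (j : {i // Q i}) z => eval (y (src j.1) z) (fmj f j.1)) Finset.univ
      (fun j => hd1 j.1) fun j => hf j.1
  refine N1_mono (hP.fun_mul hQ) (f1b_mul hP hQ hP0 hQ0)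
    (Differentiable.fun_finsetProd fun j _ => hd1 j)
    (f1b_prod (f := fun i z => eval (y (src i) z) (fmj f i)) Finset.univ hd1 hf) (fun z hz => ?_) hρ
  rcases mul_eq_zero.1 hz with h | h
  · obtain ⟨j, -, hj⟩ := Finset.prod_eq_zero_iff.1 h
    exact Finset.prod_eq_zero (Finset.mem_univ j.1) hj
  · obtain ⟨j, -, hj⟩ := Finset.prod_eq_zero_iff.1 h
    exact Finset.prod_eq_zero (Finset.mem_univ j.1) hj

/-- CHUNK F14h.  Port of `H53Y.smt_mono`: `chi (y t) ρ ≥ - K t` for `ρ ≥ 1`. -/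
theorem smt_monoP {τ : Type} [Fintype τ] {n : ℕ} {y : τ → ℂ → Fin (n + 1) → ℂ}
    (hy : ∀ t, IsHol (y t)) {a b : τ → ℝ} (hab : ∀ t, a t ≤ b t)
    {N N' : ℝ → ℝ} (hN : ∀ ρ, 1 ≤ ρ → N ρ ≤ N' ρ)
    (h : ∃ (C : ℝ) (E : Set ℝ), volume E < ⊤ ∧ ∀ ρ : ℝ, 2 ≤ ρ → ρ ∉ E →
      ∑ t, b t * chi (y t) ρ ≤ N ρ + C * log ρ) :
    ∃ (C : ℝ) (E : Set ℝ), volume E < ⊤ ∧ ∀ ρ : ℝ, 2 ≤ ρ → ρ ∉ E →
      ∑ t, a t * chi (y t) ρ ≤ N' ρ + C * log ρ := by
  obtain ⟨C, E, hE, hC⟩ := h
  have hl2 : 0 < log 2 := Real.log_pos one_lt_two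
  refine ⟨C + (∑ t, (b t - a t) * |chi (y t) 1|) / log 2, E, hE, fun ρ hρ hρE => ?_⟩
  have h1 := hC ρ hρ hρE
  have h7 := hN ρ (by linarith)
  have h5 : (∑ t, (b t - a t) * |chi (y t) 1|) ≤
      (∑ t, (b t - a t) * |chi (y t) 1|) / log 2 * log ρ := by
    rw [div_mul_eq_mul_div, le_div_iff₀ hl2]
    exact mul_le_mul_of_nonneg_left (Real.log_le_log two_pos hρ)
      (Finset.sum_nonneg fun t _ => mul_nonneg (sub_nonneg.2 (hab t)) (abs_nonneg _))
  have h6 : ∑ t, a t * chi (y t) ρ ≤ ∑ t, b t * chi (y t) ρ +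
      ∑ t, (b t - a t) * |chi (y t) 1| := by
    rw [← Finset.sum_add_distrib]
    refine Finset.sum_le_sum fun t _ => ?_
    have h2 : chi (y t) 1 ≤ chi (y t) ρ := chi_mono (hy t) one_pos (by linarith)
    have h3 : -|chi (y t) 1| ≤ chi (y t) ρ := (neg_abs_le _).trans h2
    have h4 : 0 ≤ b t - a t := sub_nonneg.2 (hab t)
    have h6 := mul_le_mul_of_nonneg_left h3 h4
    nlinarith
  rw [add_mul]
  linarith

end Pool.Agent.H53R
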