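import Pool.Agent.Lib.H53R.ST
import Pool.Agent.Lib.H53R.F01
import Pool.Agent.Lib.H53R.F14

set_option autoImplicit false

/-!
H53R, chunk F15 (M/L): all types.
-/

open MvPolynomial Real MeasureTheory

namespace Pool.Agent.H53R

open Pool.Agent.H89T Pool.Agent.H78G Pool.Agent.H67T Pool.Agent.H53Y Pool.Agent.H49D

/-- CHUNK F15 (M/L).  Port of `H53Y.smt_types` (Lib/H53Y/F15.lean): `T` from `scalesP τ Φ (ε / 4)`,
`D₀ = 2 * ∑ E ∈ T, Φ E`; for the chosen scale `E` and `P i = ¬ (E < d i ∧ d i ≤ Φ E)` the kept degree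
`Dg (fun i : {i // P i} => src i.1) (fun i => d i.1) t` is `≥ (1 - ε / 4) * Dg src d t ≥ Φ E` for every `t`;
`smt_monoP`, `N1_keptP`. -/
theorem smt_typesP (hgap : SmtGapP) : SmtTypesP := by
  classical
  intro τ _ _ n hn ε hε hε1
  choose Φ hΦ using hgap τ n hn ε hε hε1
  obtain ⟨T, hT⟩ := scalesP τ Φ (ε := ε / 4) (by positivity)
  refine ⟨2 * ∑ E ∈ T, Φ E, ?_⟩
  intro ι _ src d hd hD
  obtain ⟨E, hE, hsum⟩ := hT ι src d
  have hΦE : ∀ t, 2 * Φ E ≤ Dg src d t := by
    intro t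
    refine le_trans ?_ (hD t)
    exact Nat.mul_le_mul_left 2 (Finset.single_le_sum (f := Φ) (fun _ _ => Nat.zero_le _) hE)
  set P : ι → Prop := fun i => ¬ (E < d i ∧ d i ≤ Φ E) with hP
  have hsplit : ∀ t, Dg src d t = Dg (fun i : {i // P i} => src i.1) (fun i => d i.1) t +
      ∑ i ∈ Finset.univ.filter (fun i => src i = t ∧ (E < d i ∧ d i ≤ Φ E)), d i := by
    intro t
    have e1 : Dg (fun i : {i // P i} => src i.1) (fun i => d i.1) t =
        ∑ i ∈ Finset.univ.filter (fun i => P i), if src i = t then d i else 0 := by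
      unfold Dg
      rw [Finset.sum_filter]
      exact (Finset.sum_subtype (Finset.univ.filter fun i => P i) (by simp)
        (fun i => if src i = t then d i else 0)).symm
    have e2 : Dg src d t = ∑ i, if src i = t then d i else 0 := by
      unfold Dg
      rw [Finset.sum_filter]
    have e3 : ∑ i ∈ Finset.univ.filter (fun i => src i = t ∧ (E < d i ∧ d i ≤ Φ E)), d i =
        ∑ i ∈ Finset.univ.filter (fun i => ¬ P i), if src i = t then d i else 0 := by
      rw [← Finset.sum_filter, Finset.filter_filter]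
      refine Finset.sum_congr ?_ fun _ _ => rfl
      ext i
      simp only [Finset.mem_filter, Finset.mem_univ, true_and, hP, not_not]
      exact and_comm
    rw [e1, e2, e3]
    exact (Finset.sum_filter_add_sum_filter_not Finset.univ (fun i => P i) _).symm
  have hDD' : ∀ t, (1 - ε / 4) * ((Dg src d t : ℕ) : ℝ) ≤
      ((Dg (fun i : {i // P i} => src i.1) (fun i => d i.1) t : ℕ) : ℝ) := by
    intro t
    have h1 := hsum t
    have h2 : ((Dg src d t : ℕ) : ℝ) =
        ((Dg (fun i : {i // P i} => src i.1) (fun i => d i.1) t : ℕ) : ℝ) +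
        ((∑ i ∈ Finset.univ.filter (fun i => src i = t ∧ (E < d i ∧ d i ≤ Φ E)), d i : ℕ) : ℝ) := by
      exact_mod_cast hsplit t
    linarith
  have hK : ∀ t, Φ E ≤ Dg (fun i : {i // P i} => src i.1) (fun i => d i.1) t := by
    intro t
    have h0 : (0 : ℝ) ≤ ((Dg src d t : ℕ) : ℝ) := Nat.cast_nonneg _
    have h1 : (2 : ℝ) * Φ E ≤ ((Dg src d t : ℕ) : ℝ) := by exact_mod_cast hΦE t
    have h2 : (Φ E : ℝ) ≤
        ((Dg (fun i : {i // P i} => src i.1) (fun i => d i.1) t : ℕ) : ℝ) := by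
      have h3 := hDD' t
      nlinarith
    exact_mod_cast h2
  obtain ⟨Ξ, hΞ0, hΞ⟩ := hΦ E {i // P i} (fun i => src i.1) (fun i => d i.1) (fun i => hd i.1)
    (fun i => by
      rcases le_or_gt (d i.1) E with h | h
      · exact Or.inl h
      · right
        by_contra hcon
        exact i.2 ⟨h, (not_le.1 hcon).le⟩) hK
  set φ : FV (Fin (n + 1)) (fun i : {i // P i} => d i.1) → FV (Fin (n + 1)) d :=
    fun p => ⟨p.1.1, p.2⟩ with hφ
  have hφi : Function.Injective φ := by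
    rintro ⟨⟨i, hi⟩, δ⟩ ⟨⟨i', hi'⟩, δ'⟩ h
    simp only [hφ, Sigma.mk.injEq] at h
    obtain ⟨rfl, h2⟩ := h
    rw [heq_eq_eq] at h2
    rw [h2]
  refine ⟨rename φ Ξ, ?_, ?_⟩
  · rw [Ne, map_eq_zero_iff _ (rename_injective _ hφi)]
    exact hΞ0
  intro f hf y hy hnc hfy
  rw [eval_rename] at hf
  have hmain := hΞ _ hf y hy hnc (fun i => hfy i.1)
  refine smt_monoP hy (b := fun t => (1 - ε / 2) *
    ((Dg (fun i : {i // P i} => src i.1) (fun i => d i.1) t : ℕ) : ℝ)) ?_ ?_ hmain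
  · intro t
    have h0 : (0 : ℝ) ≤ ((Dg src d t : ℕ) : ℝ) := Nat.cast_nonneg _
    have h1 : (1 - ε / 2) * ((1 - ε / 4) * ((Dg src d t : ℕ) : ℝ)) ≤ (1 - ε / 2) *
        ((Dg (fun i : {i // P i} => src i.1) (fun i => d i.1) t : ℕ) : ℝ) :=
      mul_le_mul_of_nonneg_left (hDD' t) (by linarith)
    show (1 - ε) * ((Dg src d t : ℕ) : ℝ) ≤ (1 - ε / 2) *
        ((Dg (fun i : {i // P i} => src i.1) (fun i => d i.1) t : ℕ) : ℝ)
    nlinarith [mul_nonneg (mul_nonneg hε.le hε.le) h0, mul_nonneg hε.le h0]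
  · intro ρ hρ
    have h1 := N1_keptP hy f hfy P (fun _ => False) hρ
    simp only [Finset.univ_eq_empty, Finset.prod_empty, mul_one] at h1
    exact h1

end Pool.Agent.H53R
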