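import Pool.Agent.Lib.H53R.IDE
import Pool.Agent.Lib.H53Y.FD

set_option autoImplicit false

/-!
H53R, Part F (assembly): definitions.  See PROOF.md.  `τ` = the factors of the product, `σ` = the small
blocks, `ιL` = the large forms (`tl j` = the factor of `j`), `κ` = the small forms (`sx x` = the block
of `x`), blocks `τ ⊕ σ`.
-/

open MvPolynomial Real MeasureTheory

namespace Pool.Agent.H53R

open Pool.Agent.H89T Pool.Agent.H78G Pool.Agent.H67T Pool.Agent.H53Y Pool.Agent.H49D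

/-- The dimensions of the blocks: `inl t` is the large block of the factor `t`. -/
def mP {τ σ : Type} (N : ℕ) (m : σ → ℕ) : τ ⊕ σ → ℕ
  | Sum.inl _ => N
  | Sum.inr s => m s

/-- The blocks of the forms. -/
def sbP {ιL κ τ σ : Type} (tl : ιL → τ) (sx : κ → σ) : ιL ⊕ κ → τ ⊕ σ
  | Sum.inl j => Sum.inl (tl j)
  | Sum.inr x => Sum.inr (sx x)

/-- The large blocks are `false`, the small ones `true`. -/
def tyP {τ σ : Type} : τ ⊕ σ → Bool
  | Sum.inl _ => false
  | Sum.inr _ => true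

/-- The factors. -/
noncomputable def FP {ιL κ τ σ : Type} {N : ℕ} {m : σ → ℕ} {tl : ιL → τ} {sx : κ → σ}
    (G : ιL → MvPolynomial (Fin (N + 1)) ℂ) (θ : LV (fun x : κ => m (sx x)) → ℂ) :
    (i : ιL ⊕ κ) → MvPolynomial (Fin (mP N m (sbP tl sx i) + 1)) ℂ
  | Sum.inl j => G j
  | Sum.inr x => linF (fun b => θ ⟨x, b⟩)

/-- The coefficient vectors of the factors of the small block `s`. -/
noncomputable def thP {ιL κ τ σ : Type} {N : ℕ} {m : σ → ℕ} {tl : ιL → τ} {sx : κ → σ}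
    (G : ιL → MvPolynomial (Fin (N + 1)) ℂ) (θ : LV (fun x : κ => m (sx x)) → ℂ) (s : σ)
    (y : {i : ιL ⊕ κ // sbP tl sx i = Sum.inr s}) : Fin (m s + 1) → ℂ :=
  fun b => coeff (Finsupp.single (Fin.cast (by rw [y.2]; rfl) b) 1)
    (FP (N := N) (m := m) (tl := tl) (sx := sx) G θ y.1)

/-- The coefficients of all factors in the charts `0`; `x t` is the base point of the large block `t`. -/
noncomputable def aP {ιL κ τ σ : Type} {n c : ℕ} {m : σ → ℕ} {tl : ιL → τ} {sx : κ → σ} {d : ιL → ℕ}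
    (x : τ → Fin (n + c) → ℂ) (g : FV (Fin (n + 1) ⊕ Fin c) d → ℂ)
    (θ : LV (fun y : κ => m (sx y)) → ℂ) :
    Cf (mP (n + c) m) (sbP tl sx) (dgO (κ := κ) d) → ℂ :=
  fun y => cfF (dgO d y.1) 0 (FP (N := n + c) (m := m) (tl := tl) (sx := sx)
    (fun j => mvF (x (tl j)) g j) θ y.1) y.2

/-- The coordinates of the curve in the blocks; `ts s` is the factor of the small block `s`. -/
noncomputable def wP {n c : ℕ} {τ σ : Type} {m de : σ → ℕ} (ts : σ → τ)
    (xL : τ → Fin (n + c) → ℂ) (sE : τ → Fin c → Fin n → ℂ)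
    (A' : τ → Matrix (Fin (n + 1)) (Fin (n + 1)) ℂ)
    (Lb : (s : σ) → Matrix (Fin (m s + 1)) (Fin (NV n (de s) + 1)) ℂ)
    (y : τ → ℂ → Fin (n + 1) → ℂ) : (s : τ ⊕ σ) → ℂ → Fin (mP (n + c) m s + 1) → ℂ
  | Sum.inl t => crv (xL t) (sE t) (fun z => (A' t).mulVec (y t z))
  | Sum.inr s => fun z => (Lb s).mulVec (ver n (de s) (y (ts s) z))

/-- The degrees of the coordinates. -/
def egP {τ σ : Type} (de : σ → ℕ) : τ ⊕ σ → ℕ
  | Sum.inl _ => 1
  | Sum.inr s => de s

/-- The factor of a block. -/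
def srcP {τ σ : Type} (ts : σ → τ) : τ ⊕ σ → τ
  | Sum.inl t => t
  | Sum.inr s => ts s

end Pool.Agent.H53R
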