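import Pool.Agent.Lib.H53R.ST
import Pool.Agent.Lib.H89T.DP6
import Pool.Agent.Lib.H53Y.T1

set_option autoImplicit false

/-!
H53R, chunk T1 (M/L): from a common dimension and all factors to different dimensions `n s` and some of
the factors.
-/

open MvPolynomial Real MeasureTheory

namespace Pool.Agent.H53R

open Pool.Agent.H89T Pool.Agent.H78G Pool.Agent.H67T Pool.Agent.H53Y

/-- The second main theorem for the factors `s ∈ S`. -/
def SmtS {k : ℕ} {n q : Fin k → ℕ} (d : (s : Fin k) → Fin (q s) → ℕ) (ε : ℝ)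
    (F : (s : Fin k) → Fin (q s) → MvPolynomial (Fin (n s + 1)) ℂ) (S : Finset (Fin k)) : Prop :=
  ∀ y : (s : Fin k) → ℂ → Fin (n s + 1) → ℂ, (∀ s ∈ S, IsHol (y s)) →
    (∀ s ∈ S, ∃ z w, ∀ c : ℂ, y s w ≠ c • y s z) →
    (∀ s ∈ S, ∀ i, ∃ z, eval (y s z) (F s i) ≠ 0) →
    ∃ (C : ℝ) (E : Set ℝ), volume E < ⊤ ∧ ∀ ρ : ℝ, 2 ≤ ρ → ρ ∉ E →
      ∑ s ∈ S, (1 - ε) * (∑ i, d s i : ℕ) * chi (y s) ρ ≤
        N1 (fun z => ∏ s ∈ S, ∏ i, eval (y s z) (F s i)) ρ + C * log ρ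

/-- The embedding of the variables. -/
def t1_emb {a N : ℕ} (h : a ≤ N) : Fin (a + 1) → Fin (N + 1) := Fin.castLE (Nat.succ_le_succ h)

theorem t1_emb_inj {a N : ℕ} (h : a ≤ N) : Function.Injective (t1_emb h) := Fin.castLE_injective _

/-- The exponent restricted to the first variables. -/
noncomputable def t1_res {a N : ℕ} (h : a ≤ N) (δ : Fin (N + 1) →₀ ℕ) : Fin (a + 1) →₀ ℕ :=
  δ.comapDomain (t1_emb h) (t1_emb_inj h).injOn

theorem t1_res_map {a N : ℕ} (h : a ≤ N) (δ : Fin (a + 1) →₀ ℕ) :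
    t1_res h (Finsupp.mapDomain (t1_emb h) δ) = δ := by
  ext i
  rw [t1_res, Finsupp.comapDomain_apply, Finsupp.mapDomain_apply (t1_emb_inj h)]

theorem t1_deg {a N : ℕ} (h : a ≤ N) (δ : Fin (a + 1) →₀ ℕ) :
    (Finsupp.mapDomain (t1_emb h) δ).degree = δ.degree := by
  rw [Finsupp.degree_eq_sum, Finsupp.degree_eq_sum]
  have h1 : ∀ i : Fin (a + 1), δ i = Finsupp.mapDomain (t1_emb h) δ (t1_emb h i) := fun i =>
    (Finsupp.mapDomain_apply (t1_emb_inj h) δ i).symm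
  have h2 : ∑ i, δ i = ∑ j ∈ Finset.univ.map ⟨t1_emb h, t1_emb_inj h⟩, Finsupp.mapDomain (t1_emb h) δ j := by
    rw [Finset.sum_map]
    exact Finset.sum_congr rfl fun i _ => h1 i
  rw [h2]
  symm
  apply Finset.sum_subset (Finset.subset_univ _)
  intro j _ hj
  apply Finsupp.mapDomain_of_notMem_range
  rintro ⟨i, rfl⟩
  exact hj (Finset.mem_map.2 ⟨i, Finset.mem_univ _, rfl⟩)

/-- The point extended by zero. -/
def t1_ext {a N : ℕ} (y : Fin (a + 1) → ℂ) : Fin (N + 1) → ℂ :=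
  fun j => if h : j.1 < a + 1 then y ⟨j.1, h⟩ else 0

theorem t1_ext_emb {a N : ℕ} (h : a ≤ N) (y : Fin (a + 1) → ℂ) (i : Fin (a + 1)) :
    t1_ext (N := N) y (t1_emb h i) = y i := by
  have : ((t1_emb h i : Fin (N + 1)) : ℕ) = i.1 := rfl
  unfold t1_ext
  rw [dif_pos (by rw [this]; exact i.2)]
  rfl

theorem t1_ext_out {a N : ℕ} (h : a ≤ N) (y : Fin (a + 1) → ℂ) (j : Fin (N + 1))
    (hj : j ∉ Set.range (t1_emb h)) : t1_ext (N := N) y j = 0 := by
  unfold t1_ext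
  rw [dif_neg]
  intro hlt
  exact hj ⟨⟨j.1, hlt⟩, rfl⟩

theorem t1_ext_norm {a N : ℕ} (h : a ≤ N) (y : Fin (a + 1) → ℂ) :
    ‖t1_ext (N := N) y‖ = ‖y‖ := by
  apply le_antisymm
  · refine (pi_norm_le_iff_of_nonneg (norm_nonneg _)).2 fun j => ?_
    unfold t1_ext
    split_ifs with hj
    · exact norm_le_pi_norm y _
    · rw [norm_zero]; exact norm_nonneg _
  · refine (pi_norm_le_iff_of_nonneg (norm_nonneg _)).2 fun i => ?_
    rw [← t1_ext_emb h y i]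
    exact norm_le_pi_norm (t1_ext (N := N) y) _

/-- Evaluation of an extended form at an extended point. -/
theorem t1_eval {a N : ℕ} (h : a ≤ N) (y : Fin (a + 1) → ℂ) {F : MvPolynomial (Fin (a + 1)) ℂ}
    {G : MvPolynomial (Fin (N + 1)) ℂ}
    (hc : ∀ δ : Fin (a + 1) →₀ ℕ, coeff (Finsupp.mapDomain (t1_emb h) δ) G = coeff δ F) :
    eval (t1_ext (N := N) y) G = eval y F := by
  have h1 : eval (t1_ext (N := N) y) (rename (t1_emb h) F) = eval y F := by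
    rw [eval_rename]
    congr 1
    apply congrArg
    funext i
    exact t1_ext_emb h y i
  have h2 : eval (t1_ext (N := N) y) (G - rename (t1_emb h) F) = 0 := by
    rw [eval_eq']
    refine Finset.sum_eq_zero fun δ hδ => ?_
    rw [mem_support_iff, coeff_sub] at hδ
    have h3 : ∃ j, j ∉ Set.range (t1_emb h) ∧ δ j ≠ 0 := by
      by_contra hcon
      push Not at hcon
      apply hδ
      have h4 : Finsupp.mapDomain (t1_emb h) (t1_res h δ) = δ := by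
        ext j
        by_cases hj : j ∈ Set.range (t1_emb h)
        · obtain ⟨i, rfl⟩ := hj
          rw [Finsupp.mapDomain_apply (t1_emb_inj h)]
          rfl
        · rw [Finsupp.mapDomain_of_notMem_range _ _ hj, hcon j hj]
      rw [← h4, hc, coeff_rename_mapDomain _ (t1_emb_inj h), sub_self]
    obtain ⟨j, hj, hj0⟩ := h3
    have h5 : ∏ i, t1_ext (N := N) y i ^ δ i = 0 := by
      apply Finset.prod_eq_zero (Finset.mem_univ j)
      rw [t1_ext_out h y j hj, zero_pow hj0]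
    rw [h5, mul_zero]
  rw [map_sub, h1] at h2
  exact sub_eq_zero.1 h2

theorem t1_eval_aeval {σ τ : Type} (g : τ → ℂ) (φ : σ → MvPolynomial τ ℂ) (Ξ : MvPolynomial σ ℂ) :
    eval g (aeval φ Ξ) = eval (fun p => eval g (φ p)) Ξ := by
  induction Ξ using MvPolynomial.induction_on with
  | C a => simp
  | add p q hp hq => rw [map_add, map_add, map_add, hp, hq]
  | mul_X p i hp => rw [map_mul, map_mul, map_mul, hp, aeval_X, eval_X]

section
variable {k : ℕ} {n q : Fin k → ℕ}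

/-- The index type of the forms. -/
abbrev t1_I (S : Finset (Fin k)) (q : Fin k → ℕ) : Type := Σ s : {s // s ∈ S}, Fin (q s.1)

/-- The degrees. -/
def t1_d (S : Finset (Fin k)) (d : (s : Fin k) → Fin (q s) → ℕ) : t1_I S q → ℕ := fun x => d x.1.1 x.2

/-- The coefficients of small forms. -/
noncomputable def t1_F0 {N : ℕ} (hle : ∀ s, n s ≤ N) (S : Finset (Fin k)) (d : (s : Fin k) → Fin (q s) → ℕ)
    (v : FV (Fin (N + 1)) (t1_d S d) → ℂ) (s : Fin k) (i : Fin (q s)) : MvPolynomial (Fin (n s + 1)) ℂ :=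
  fm (fun δ : Ex (Fin (n s + 1)) (d s i) => if hs : s ∈ S then
    v ⟨⟨⟨s, hs⟩, i⟩, ⟨Finsupp.mapDomain (t1_emb (hle s)) δ.1, by
      rw [mem_Ex, t1_deg]; exact mem_Ex.1 δ.2⟩⟩ else 0)

theorem t1_F0_hom {N : ℕ} (hle : ∀ s, n s ≤ N) (S : Finset (Fin k)) (d : (s : Fin k) → Fin (q s) → ℕ)
    (v : FV (Fin (N + 1)) (t1_d S d) → ℂ) (s : Fin k) (i : Fin (q s)) :
    (t1_F0 hle S d v s i).IsHomogeneous (d s i) := fm_homogeneous _

theorem t1_F0_coeff {N : ℕ} (hle : ∀ s, n s ≤ N) (S : Finset (Fin k)) (d : (s : Fin k) → Fin (q s) → ℕ)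
    (v : FV (Fin (N + 1)) (t1_d S d) → ℂ) (s : Fin k) (hs : s ∈ S) (i : Fin (q s))
    (δ : Fin (n s + 1) →₀ ℕ) (h : Finsupp.mapDomain (t1_emb (hle s)) δ ∈ Ex (Fin (N + 1)) (d s i)) :
    coeff δ (t1_F0 hle S d v s i) = v ⟨⟨⟨s, hs⟩, i⟩, ⟨Finsupp.mapDomain (t1_emb (hle s)) δ, h⟩⟩ := by
  have h3 : δ ∈ Ex (Fin (n s + 1)) (d s i) := by
    rw [mem_Ex, ← t1_deg (hle s)]
    exact mem_Ex.1 h
  have h4 := coeff_fm (fun δ : Ex (Fin (n s + 1)) (d s i) => if hs : s ∈ S then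
        v ⟨⟨⟨s, hs⟩, i⟩, ⟨Finsupp.mapDomain (t1_emb (hle s)) δ.1, by
          rw [mem_Ex, t1_deg]; exact mem_Ex.1 δ.2⟩⟩ else 0) ⟨δ, h3⟩
  unfold t1_F0
  rw [h4, dif_pos hs]

/-- The condition. -/
def t1_cond {N : ℕ} (hle : ∀ s, n s ≤ N) (S : Finset (Fin k)) (d : (s : Fin k) → Fin (q s) → ℕ)
    (p : FV (Fin (N + 1)) (t1_d S d)) : Prop :=
  Finsupp.mapDomain (t1_emb (hle p.1.1.1)) (t1_res (hle p.1.1.1) p.2.1) = p.2.1

open Classical in
/-- The coefficients of the extended forms. -/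
noncomputable def t1_vF {N : ℕ} (hle : ∀ s, n s ≤ N) (S : Finset (Fin k)) (d : (s : Fin k) → Fin (q s) → ℕ)
    (v : FV (Fin (N + 1)) (t1_d S d) → ℂ) (F : (s : Fin k) → Fin (q s) → MvPolynomial (Fin (n s + 1)) ℂ)
    (p : FV (Fin (N + 1)) (t1_d S d)) : ℂ :=
  if t1_cond hle S d p then coeff (t1_res (hle p.1.1.1) p.2.1) (F p.1.1.1 p.1.2) else v p

open Classical in
/-- The polynomial in the coefficients of the small forms. -/
noncomputable def t1_Th {N : ℕ} (hle : ∀ s, n s ≤ N) (S : Finset (Fin k)) (d : (s : Fin k) → Fin (q s) → ℕ)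
    (v : FV (Fin (N + 1)) (t1_d S d) → ℂ) (Ξ : MvPolynomial (FV (Fin (N + 1)) (t1_d S d)) ℂ) :
    MvPolynomial (Σ s : Fin k, Fin (q s) × (Fin (n s + 1) →₀ ℕ)) ℂ :=
  aeval (fun p : FV (Fin (N + 1)) (t1_d S d) =>
    if t1_cond hle S d p then (X ⟨p.1.1.1, p.1.2, t1_res (hle p.1.1.1) p.2.1⟩ :
      MvPolynomial (Σ s : Fin k, Fin (q s) × (Fin (n s + 1) →₀ ℕ)) ℂ) else C (v p)) Ξ

open Classical in
theorem t1_Th_eval {N : ℕ} (hle : ∀ s, n s ≤ N) (S : Finset (Fin k)) (d : (s : Fin k) → Fin (q s) → ℕ)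
    (v : FV (Fin (N + 1)) (t1_d S d) → ℂ) (Ξ : MvPolynomial (FV (Fin (N + 1)) (t1_d S d)) ℂ)
    (F : (s : Fin k) → Fin (q s) → MvPolynomial (Fin (n s + 1)) ℂ) :
    eval (fun p => coeff p.2.2 (F p.1 p.2.1)) (t1_Th hle S d v Ξ) = eval (t1_vF hle S d v F) Ξ := by
  unfold t1_Th
  rw [t1_eval_aeval]
  have h : (fun p : FV (Fin (N + 1)) (t1_d S d) =>
      eval (fun p : Σ s : Fin k, Fin (q s) × (Fin (n s + 1) →₀ ℕ) => coeff p.2.2 (F p.1 p.2.1))
        (if t1_cond hle S d p then (X ⟨p.1.1.1, p.1.2, t1_res (hle p.1.1.1) p.2.1⟩ :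
          MvPolynomial (Σ s : Fin k, Fin (q s) × (Fin (n s + 1) →₀ ℕ)) ℂ) else C (v p))) =
      t1_vF hle S d v F := by
    funext p
    unfold t1_vF
    split_ifs with hp
    · rw [eval_X]
    · rw [eval_C]
  rw [h]

theorem t1_vF_F0 {N : ℕ} (hle : ∀ s, n s ≤ N) (S : Finset (Fin k)) (d : (s : Fin k) → Fin (q s) → ℕ)
    (v : FV (Fin (N + 1)) (t1_d S d) → ℂ) : t1_vF hle S d v (t1_F0 hle S d v) = v := by
  funext p
  obtain ⟨⟨⟨s, hs⟩, i⟩, ⟨δ, hδ⟩⟩ := p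
  unfold t1_vF
  split_ifs with hp
  · have hp' : Finsupp.mapDomain (t1_emb (hle s)) (t1_res (hle s) δ) = δ := hp
    have h1 := t1_F0_coeff hle S d v s hs i (t1_res (hle s) δ) (by rw [hp']; exact hδ)
    refine h1.trans ?_
    apply congrArg v
    exact congrArg _ (Subtype.ext hp')
  · rfl

/-- The index type of the coefficients. -/
abbrev t1_W (n q : Fin k → ℕ) (d : (s : Fin k) → Fin (q s) → ℕ) : Type :=
  Σ s : Fin k, Σ i : Fin (q s), Ex (Fin (n s + 1)) (d s i)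

/-- The forms with given coefficients. -/
noncomputable def t1_G (d : (s : Fin k) → Fin (q s) → ℕ) (w : t1_W n q d → ℂ) (s : Fin k) (i : Fin (q s)) :
    MvPolynomial (Fin (n s + 1)) ℂ := fm (fun δ : Ex (Fin (n s + 1)) (d s i) => w ⟨s, i, δ⟩)

theorem t1_G_hom (d : (s : Fin k) → Fin (q s) → ℕ) (w : t1_W n q d → ℂ) (s : Fin k) (i : Fin (q s)) :
    (t1_G d w s i).IsHomogeneous (d s i) := by
  unfold t1_G
  exact fm_homogeneous _

theorem t1_G_self (d : (s : Fin k) → Fin (q s) → ℕ) (F : (s : Fin k) → Fin (q s) → MvPolynomial (Fin (n s + 1)) ℂ)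
    (hF : ∀ s i, (F s i).IsHomogeneous (d s i)) :
    t1_G d (fun x : t1_W n q d => coeff x.2.2.1 (F x.1 x.2.1)) = F := by
  funext s i
  unfold t1_G
  show fm (fun δ : Ex (Fin (n s + 1)) (d s i) => coeff δ.1 (F s i)) = F s i
  exact fm_coeff (hF s i)

theorem t1_G_coeff (d : (s : Fin k) → Fin (q s) → ℕ) (w : t1_W n q d → ℂ) (s : Fin k) (i : Fin (q s))
    (δ : Fin (n s + 1) →₀ ℕ) (h : δ ∈ Ex (Fin (n s + 1)) (d s i)) :
    coeff δ (t1_G d w s i) = w ⟨s, i, ⟨δ, h⟩⟩ :=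
  coeff_fm (fun δ : Ex (Fin (n s + 1)) (d s i) => w ⟨s, i, δ⟩) ⟨δ, h⟩

theorem t1_G_coeff0 (d : (s : Fin k) → Fin (q s) → ℕ) (w : t1_W n q d → ℂ) (s : Fin k) (i : Fin (q s))
    (δ : Fin (n s + 1) →₀ ℕ) (h : δ ∉ Ex (Fin (n s + 1)) (d s i)) :
    coeff δ (t1_G d w s i) = 0 := by
  unfold t1_G
  rw [(fm_homogeneous _).coeff_eq_zero]
  rwa [mem_Ex] at h

open Classical in
/-- The substitution. -/
noncomputable def t1_phi (n : Fin k → ℕ) (d : (s : Fin k) → Fin (q s) → ℕ)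
    (p : Σ s : Fin k, Fin (q s) × (Fin (n s + 1) →₀ ℕ)) : MvPolynomial (t1_W n q d) ℂ :=
  if hp : p.2.2 ∈ Ex (Fin (n p.1 + 1)) (d p.1 p.2.1) then X ⟨p.1, p.2.1, ⟨p.2.2, hp⟩⟩ else 0

theorem t1_phi_eval (d : (s : Fin k) → Fin (q s) → ℕ) (w : t1_W n q d → ℂ)
    (P : MvPolynomial (Σ s : Fin k, Fin (q s) × (Fin (n s + 1) →₀ ℕ)) ℂ) :
    eval w (aeval (t1_phi n d) P) = eval (fun p => coeff p.2.2 (t1_G d w p.1 p.2.1)) P := by
  rw [t1_eval_aeval]
  have h : (fun p => eval w (t1_phi n d p)) = fun p => coeff p.2.2 (t1_G d w p.1 p.2.1) := by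
    funext p
    unfold t1_phi
    split_ifs with hp
    · rw [eval_X, t1_G_coeff d w p.1 p.2.1 p.2.2 hp]
    · rw [map_zero, t1_G_coeff0 d w p.1 p.2.1 p.2.2 hp]
  rw [h]

end

/-- CHUNK T1a (M/L).  One set `S`.  Let `N = ∑ s, n s` (so `n s ≤ N`; `1 ≤ N` if `S` is not empty; if `S` is
empty take `D₀ = 0`, `Θ = 1`: the left-hand side is `0` and `N1 .. ρ ≥ 0`, see `N1` of H67T.Defs), `D₀` from
`hst {s // s ∈ S} N ε`.  For given `q`, `d`: `ι = Σ s : {s // s ∈ S}, Fin (q s)`, `src = Sigma.fst`,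
`d' x = d x.1 x.2`; `Dg src d' s = ∑ i, d s i`.  `Ξ` from `hst`; choose `v` with `eval v Ξ ≠ 0`
(`MvPolynomial.funext`).  A monomial `δ` in `N + 1` variables either involves only the variables
`0, ..., n s` (then it is `δ = Finsupp.mapDomain (Fin.castLE _) δ'`) or not.
`Θ = aeval (fun ⟨⟨s, i⟩, δ⟩ => if δ is of the first kind then X ⟨s, i, δ'⟩ else C (v ⟨⟨s, i⟩, δ⟩)) Ξ`, and the
forms `F s i = ∑ v ⟨⟨s, i⟩, δ⟩ monomial δ' 1` (the `δ` of the first kind; `0`-coefficients or anything for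
`s ∉ S`, for example `F s i = X 0 ^ d s i`) show that `Θ` does not vanish at all tuples of forms.
For forms `F` with `Θ (F) ≠ 0`: let `F' x = fmj (..)` be the form in `N + 1` variables with the
coefficients `eval` of the above; for `y s` in `P^(n s)` let `y' s z` be `y s z` extended by `0`
(`fun j => if h : j < n s + 1 then y s z ⟨j, h⟩ else 0`): `eval (y' s z) (F' ⟨s, i⟩) = eval (y s z) (F s i)`,
`‖y' s z‖ = ‖y s z‖`, so `chi (y' s) = chi (y s)`, `IsHol`, not constant.  Products over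
`Σ s : {s // s ∈ S}, Fin (q s)` and sums over `{s // s ∈ S}`: `Fintype.prod_sigma`, `Finset.prod_coe_sort` /
`Finset.sum_coe_sort`. -/
theorem smt_subset (hst : SmtTypesP) {k : ℕ} (n : Fin k → ℕ) (hn : ∀ s, 1 ≤ n s) (ε : ℝ)
    (hε : 0 < ε) (hε1 : ε ≤ 1) (S : Finset (Fin k)) :
    ∃ D₀ : ℕ, ∀ (q : Fin k → ℕ) (d : (s : Fin k) → Fin (q s) → ℕ), (∀ s i, 1 ≤ d s i) →
      (∀ s, D₀ ≤ ∑ i, d s i) →
      ∃ Θ : MvPolynomial (Σ s : Fin k, Fin (q s) × (Fin (n s + 1) →₀ ℕ)) ℂ,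
        (∃ F : (s : Fin k) → Fin (q s) → MvPolynomial (Fin (n s + 1)) ℂ,
          (∀ s i, (F s i).IsHomogeneous (d s i)) ∧
          eval (fun p => coeff p.2.2 (F p.1 p.2.1)) Θ ≠ 0) ∧
        ∀ F : (s : Fin k) → Fin (q s) → MvPolynomial (Fin (n s + 1)) ℂ,
          (∀ s i, (F s i).IsHomogeneous (d s i)) →
          eval (fun p => coeff p.2.2 (F p.1 p.2.1)) Θ ≠ 0 → SmtS d ε F S := by
  classical
  obtain ⟨N, hN1, hle⟩ : ∃ N : ℕ, 1 ≤ N ∧ ∀ s, n s ≤ N := ⟨∑ s, n s + 1, by omega, fun s =>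
    (Finset.single_le_sum (f := n) (fun i _ => Nat.zero_le _) (Finset.mem_univ s)).trans (Nat.le_succ _)⟩
  obtain ⟨D₀, h⟩ := hst {s // s ∈ S} N hN1 ε hε hε1
  refine ⟨D₀, fun q d hd hD => ?_⟩
  have hDg : ∀ t : {s // s ∈ S}, Dg (Sigma.fst : t1_I S q → {s // s ∈ S}) (t1_d S d) t = ∑ i, d t.1 i := by
    intro t
    unfold Dg
    rw [Finset.sum_filter, Fintype.sum_sigma]
    rw [Finset.sum_eq_single t]
    · refine Finset.sum_congr rfl fun i _ => ?_
      exact if_pos rfl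
    · intro b _ hb
      refine Finset.sum_eq_zero fun i _ => ?_
      exact if_neg hb
    · intro hb
      exact absurd (Finset.mem_univ _) hb
  obtain ⟨Ξ, hΞ, h1⟩ := h (t1_I S q) Sigma.fst (t1_d S d) (fun x => hd _ _) (fun t => by rw [hDg]; exact hD _)
  obtain ⟨v, hv⟩ : ∃ v, eval v Ξ ≠ 0 := by
    by_contra hcon
    push Not at hcon
    exact hΞ (MvPolynomial.funext fun x => by rw [hcon x, map_zero])
  refine ⟨t1_Th hle S d v Ξ, ⟨t1_F0 hle S d v, t1_F0_hom hle S d v, ?_⟩, ?_⟩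
  · rw [t1_Th_eval, t1_vF_F0]
    exact hv
  · intro F hF hF0
    rw [t1_Th_eval] at hF0
    have h2 := h1 _ hF0
    intro y hy hnc hy0
    have hev : ∀ (t : {s // s ∈ S}) (i : Fin (q t.1)) (z : ℂ),
        eval (t1_ext (N := N) (y t.1 z)) (fmj (t1_vF hle S d v F) ⟨t, i⟩) = eval (y t.1 z) (F t.1 i) := by
      intro t i z
      refine t1_eval (hle t.1) (y t.1 z) fun δ => ?_
      by_cases hδ : Finsupp.mapDomain (t1_emb (hle t.1)) δ ∈ Ex (Fin (N + 1)) (t1_d S d ⟨t, i⟩)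
      · have h3 := coeff_fm (fun δ : Ex (Fin (N + 1)) (t1_d S d ⟨t, i⟩) => t1_vF hle S d v F ⟨⟨t, i⟩, δ⟩) ⟨_, hδ⟩
        rw [fmj, h3]
        unfold t1_vF
        rw [if_pos]
        · show coeff (t1_res (hle t.1) (Finsupp.mapDomain (t1_emb (hle t.1)) δ)) (F t.1 i) = _
          rw [t1_res_map]
        · show Finsupp.mapDomain (t1_emb (hle t.1)) (t1_res (hle t.1) (Finsupp.mapDomain (t1_emb (hle t.1)) δ)) = _
          rw [t1_res_map]
      · rw [mem_Ex, t1_deg] at hδ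
        rw [(hF t.1 i).coeff_eq_zero hδ, fmj, (fm_homogeneous _).coeff_eq_zero]
        rw [t1_deg]
        exact hδ
    have hA : ∀ t : {s // s ∈ S}, IsHol (fun z => t1_ext (N := N) (y t.1 z)) := by
      intro t
      refine ⟨fun j => ?_, fun z => ?_⟩
      · by_cases hj : j.1 < n t.1 + 1
        · have h6 := (hy t.1 t.2).diff ⟨j.1, hj⟩
          have h7 : (fun z => t1_ext (N := N) (y t.1 z) j) = fun z => y t.1 z ⟨j.1, hj⟩ := by
            funext z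
            exact dif_pos hj
          rw [h7]
          exact h6
        · have h7 : (fun z => t1_ext (N := N) (y t.1 z) j) = fun _ => 0 := by
            funext z
            exact dif_neg hj
          rw [h7]
          exact differentiable_const _
      · intro h0
        apply (hy t.1 t.2).ne_zero z
        rw [← norm_eq_zero, ← t1_ext_norm (hle t.1), h0, norm_zero]
    have hB : ∀ t : {s // s ∈ S}, ∃ z w, ∀ c : ℂ,
        t1_ext (N := N) (y t.1 w) ≠ c • t1_ext (N := N) (y t.1 z) := by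
      intro t
      obtain ⟨z, w, hzw⟩ := hnc t.1 t.2
      refine ⟨z, w, fun c hc => hzw c ?_⟩
      funext i
      have h8 := congrFun hc (t1_emb (hle t.1) i)
      simp only [Pi.smul_apply] at h8
      rw [t1_ext_emb, t1_ext_emb] at h8
      exact h8
    have hC : ∀ i : t1_I S q, ∃ z, eval (t1_ext (N := N) (y i.1.1 z)) (fmj (t1_vF hle S d v F) i) ≠ 0 := by
      intro i
      obtain ⟨z, hz⟩ := hy0 i.1.1 i.1.2 i.2
      refine ⟨z, ?_⟩
      rw [← hev i.1 i.2 z] at hz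
      exact hz
    obtain ⟨K, E, hE, hK⟩ := h2 (fun t z => t1_ext (N := N) (y t.1 z)) hA hB hC
    refine ⟨K, E, hE, fun ρ hρ hρE => ?_⟩
    have h4 := hK ρ hρ hρE
    have h5 : (fun z => ∏ i : t1_I S q, eval (t1_ext (N := N) (y i.1.1 z)) (fmj (t1_vF hle S d v F) i)) =
        fun z => ∏ s ∈ S, ∏ i, eval (y s z) (F s i) := by
      funext z
      rw [Fintype.prod_sigma, ← Finset.prod_coe_sort S]
      refine Finset.prod_congr rfl fun t _ => Finset.prod_congr rfl fun i _ => ?_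
      exact hev t i z
    rw [h5] at h4
    refine le_trans (le_of_eq ?_) h4
    rw [← Finset.sum_coe_sort S]
    refine Finset.sum_congr rfl fun t _ => ?_
    rw [← hDg t]
    show _ = (1 - ε) * ((Dg (Sigma.fst : t1_I S q → {s // s ∈ S}) (t1_d S d) t : ℕ) : ℝ) *
      chi (fun z => t1_ext (N := N) (y t.1 z)) ρ
    congr 1
    unfold chi
    congr 1
    funext z
    rw [t1_ext_norm (hle t.1)]

/-- CHUNK T1b (M).  All sets `S` at once: `D₀ = ∑ S, D₀ S`, `Θ = ∏ S, Θ S`.  The product does not vanish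
at all tuples of forms: the tuples of forms of degrees `d s i` are the values of
`v : (Σ s, Fin (q s) × Ex (Fin (n s + 1)) (d s i)) → ℂ` (`fm`, `coeff_fm`, `fm_coeff` of H89T); substitute
`X ⟨s, i, δ⟩ ↦ X ⟨s, i, δ⟩` for `δ` of degree `d s i` and `0` for the others to get nonzero polynomials in `v`
(`MvPolynomial.funext`, `aeval`), whose product is not zero. -/
theorem smt_subsets (hst : SmtTypesP) {k : ℕ} (n : Fin k → ℕ) (hn : ∀ s, 1 ≤ n s) (ε : ℝ)
    (hε : 0 < ε) (hε1 : ε ≤ 1) :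
    ∃ D₀ : ℕ, ∀ (q : Fin k → ℕ) (d : (s : Fin k) → Fin (q s) → ℕ), (∀ s i, 1 ≤ d s i) →
      (∀ s, D₀ ≤ ∑ i, d s i) →
      ∃ Θ : MvPolynomial (Σ s : Fin k, Fin (q s) × (Fin (n s + 1) →₀ ℕ)) ℂ,
        (∃ F : (s : Fin k) → Fin (q s) → MvPolynomial (Fin (n s + 1)) ℂ,
          (∀ s i, (F s i).IsHomogeneous (d s i)) ∧
          eval (fun p => coeff p.2.2 (F p.1 p.2.1)) Θ ≠ 0) ∧
        ∀ F : (s : Fin k) → Fin (q s) → MvPolynomial (Fin (n s + 1)) ℂ,
          (∀ s i, (F s i).IsHomogeneous (d s i)) →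
          eval (fun p => coeff p.2.2 (F p.1 p.2.1)) Θ ≠ 0 → ∀ S, SmtS d ε F S := by
  classical
  choose D₀ h using smt_subset hst n hn ε hε hε1
  refine ⟨∑ S, D₀ S, fun q d hd hD => ?_⟩
  have hD' : ∀ S s, D₀ S ≤ ∑ i, d s i := fun S s =>
    (Finset.single_le_sum (f := D₀) (fun i _ => Nat.zero_le _) (Finset.mem_univ S)).trans (hD s)
  choose Θ hΘ1 hΘ2 using fun S => h S q d hd (hD' S)
  refine ⟨∏ S, Θ S, ?_, ?_⟩
  · have hne : ∀ S, aeval (t1_phi n d) (Θ S) ≠ 0 := by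
      intro S h0
      obtain ⟨F, hF, hF0⟩ := hΘ1 S
      apply hF0
      have h1 := t1_phi_eval d (fun x : t1_W n q d => coeff x.2.2.1 (F x.1 x.2.1)) (Θ S)
      rw [h0, map_zero, t1_G_self d F hF] at h1
      exact h1.symm
    have hprod : ∏ S, aeval (t1_phi n d) (Θ S) ≠ 0 := Finset.prod_ne_zero_iff.2 fun S _ => hne S
    obtain ⟨w, hw⟩ : ∃ w, eval w (∏ S, aeval (t1_phi n d) (Θ S)) ≠ 0 := by
      by_contra hcon
      push Not at hcon
      exact hprod (MvPolynomial.funext fun x => by rw [hcon x, map_zero])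
    refine ⟨t1_G d w, t1_G_hom d w, ?_⟩
    rw [← map_prod, t1_phi_eval] at hw
    exact hw
  · intro F hF hF0 S
    refine hΘ2 S F hF fun h0 => hF0 ?_
    rw [map_prod]
    exact Finset.prod_eq_zero (Finset.mem_univ S) h0

end Pool.Agent.H53R
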