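import Pool.Agent.Lib.H53R.T3
import Pool.Agent.Lib.H53L.Cov

set_option autoImplicit false

/-!
H53R, chunk T4 (L): entire curves in covers of products.
-/

open MvPolynomial Real MeasureTheory

namespace Pool.Agent.H53R

open Pool.Agent.H89T Pool.Agent.H67T

variable {τ : Type} [Fintype τ] [DecidableEq τ] {m : ℕ}

/-- CHUNK T4 (L).  Port of `H53L.cov_R_eq_zero` (Lib/H53L/Cov.lean).  `G s` is a polynomial (the product of the
`F s i`), `dd s` its degree.  Suppose `eval (u z₁) R ≠ 0`.  Let `y₀ s z = fun j => eval (u z) (f s j)`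
(`IsHol`), `S = {s | y₀ s is not constant}`, not empty by `nonconstant_compP`; `v = u ∘ exp`,
`y s = y₀ s ∘ exp`.  For every `s` the function `eval (y s z) (G s)` is not identically zero (otherwise
the order of `R (u)` would be at least `e ≥ 1` everywhere).  `hSmt S y`; `counting_le` for the one
function `g z = ∏ s ∈ S, eval (y s z) (G s)`: at its zeros some factor vanishes, so the order of `R (v)`
is at least `e`.  Average of `form_leP` (as in the old proof, with `GH4_average_mono`):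
`circleAverage (log ‖R (v)‖) ≤ A + ∑ s, a s / D s * chi (y s) r`, and for `s ∉ S` the value `chi (y s) r` is a
constant (`chi_const`).  With `η s = (1 - ε) * dd s - κ s > 0`:
`∑ s ∈ S, η s * chi (y s) r ≤ C log r + K`; `chi_exp_ge` for every `s ∈ S` gives
`chi (y s) r ≥ c₀ r - K₃` (so all are `≥ 0` for large `r`), `S` is not empty, and `gg1_large` gives a
contradiction. -/
theorem cov_eq_zeroP {n : τ → ℕ} {w : τ → Fin m → ℕ} {J : Ideal (MvPolynomial (Fin m) ℂ)} {D : τ → ℕ}
    {f : (s : τ) → Fin (n s + 1) → MvPolynomial (Fin m) ℂ} (h : CovP w J D f)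
    {ε : ℝ} {e : ℕ} (he : 1 ≤ e) (dd : τ → ℕ) (κ : τ → ℝ) (hκ : ∀ s, κ s < (1 - ε) * dd s)
    (G : (s : τ) → MvPolynomial (Fin (n s + 1)) ℂ)
    (hSmt : ∀ (S : Finset τ) (y : (s : τ) → ℂ → Fin (n s + 1) → ℂ), (∀ s ∈ S, IsHol (y s)) →
      (∀ s ∈ S, ∃ z w, ∀ c : ℂ, y s w ≠ c • y s z) → (∀ s ∈ S, ∃ z, eval (y s z) (G s) ≠ 0) →
      ∃ (C : ℝ) (E : Set ℝ), volume E < ⊤ ∧ ∀ ρ : ℝ, 2 ≤ ρ → ρ ∉ E →
        ∑ s ∈ S, (1 - ε) * dd s * chi (y s) ρ ≤
          N1 (fun z => ∏ s ∈ S, eval (y s z) (G s)) ρ + C * log ρ)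
    {R : MvPolynomial (Fin m) ℂ} {a : τ → ℕ} (hR : ∀ s, R.IsWeightedHomogeneous (w s) (a s))
    (ha : ∀ s, (a s : ℝ) ≤ e * (κ s * D s))
    {u : ℂ → Fin m → ℂ} (hu : ∀ i, Differentiable ℂ fun z => u z i) (huX : ∀ z, u z ∈ coneP J f)
    (hord : ∀ z, (∃ s, eval (fun j => eval (u z) (f s j)) (G s) = 0) →
      (e : ℕ∞) ≤ analyticOrderAt (fun z => eval (u z) R) z)
    (hnc : ∃ z z', ∀ t : τ → ℂ, u z' ≠ actP w t (u z)) (z₁ : ℂ) : eval (u z₁) R = 0 := by
  classical
  have hord' : ∀ z, (∃ s, eval (fun j => eval (u (Complex.exp z)) (f s j)) (G s) = 0) →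
      (e : ℕ∞) ≤ analyticOrderAt (fun z => eval (u (Complex.exp z)) R) z := by
    intro z hz
    have h1 := analyticOrderAt_comp_of_deriv_ne_zero (f := fun z => eval (u z) R)
      (Complex.differentiable_exp.analyticAt z)
      (by rw [Complex.deriv_exp]; exact Complex.exp_ne_zero z)
    have h2 : (fun z => eval (u z) R) ∘ Complex.exp = fun z => eval (u (Complex.exp z)) R := rfl
    rw [← h2, h1]
    exact hord _ hz
  by_contra hz₁
  have hφ : Differentiable ℂ fun z => eval (u z) R := differentiable_eval hu _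
  obtain ⟨w₀, hw0, hw₀⟩ : ∃ w₀ : ℂ, w₀ ≠ 0 ∧ eval (u w₀) R ≠ 0 := by
    by_contra hcon
    push Not at hcon
    apply hz₁
    have h1 : (fun z => eval (u z) R) = fun _ => 0 := by
      apply hφ.continuous.ext_on (dense_compl_singleton (0 : ℂ)) continuous_const
      intro z hz
      exact hcon z hz
    exact congrFun h1 z₁
  -- the curves in projective spaces
  obtain ⟨y₀, hy₀⟩ : ∃ y₀ : (s : τ) → ℂ → Fin (n s + 1) → ℂ,
      ∀ s z, y₀ s z = fun j => eval (u z) (f s j) := ⟨fun s z j => eval (u z) (f s j), fun _ _ => rfl⟩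
  have hy₀h : ∀ s, IsHol (y₀ s) := by
    intro s
    refine ⟨fun j => ?_, fun z h0 => ?_⟩
    · have h1 : (fun z => y₀ s z j) = fun z => eval (u z) (f s j) := by
        funext z
        rw [hy₀]
      rw [h1]
      exact differentiable_eval hu (f s j)
    · obtain ⟨j, hj⟩ := (huX z).2 s
      have h1 := congrFun h0 j
      rw [hy₀] at h1
      exact hj h1
  obtain ⟨S, hS⟩ : ∃ S : Finset τ, ∀ s, s ∈ S ↔ ∃ z z', ∀ c : ℂ, y₀ s z' ≠ c • y₀ s z :=
    ⟨Finset.univ.filter fun s => ∃ z z', ∀ c : ℂ, y₀ s z' ≠ c • y₀ s z, fun s => by simp⟩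
  have hSne : S.Nonempty := by
    obtain ⟨s, z, z', hs⟩ := nonconstant_compP h hu huX hnc
    refine ⟨s, (hS s).2 ⟨z, z', fun c => ?_⟩⟩
    rw [hy₀, hy₀]
    exact hs c
  obtain ⟨v, hv⟩ : ∃ v : ℂ → Fin m → ℂ, ∀ z, v z = u (Complex.exp z) := ⟨_, fun _ => rfl⟩
  have hvfun : (fun z => eval (u (Complex.exp z)) R) = fun z => eval (v z) R := by
    funext z
    rw [hv]
  have hvd : ∀ i, Differentiable ℂ fun z => v z i := by
    intro i
    have h1 : (fun z => v z i) = fun z => u (Complex.exp z) i := by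
      funext z
      rw [hv]
    rw [h1]
    exact (hu i).comp Complex.differentiable_exp
  obtain ⟨y, hy⟩ : ∃ y : (s : τ) → ℂ → Fin (n s + 1) → ℂ, ∀ s z, y s z = y₀ s (Complex.exp z) :=
    ⟨fun s z => y₀ s (Complex.exp z), fun _ _ => rfl⟩
  have hyfun : ∀ s, y s = fun z => y₀ s (Complex.exp z) := fun s => funext fun z => hy s z
  have hyv : ∀ s z, y s z = fun j => eval (v z) (f s j) := by
    intro s z
    rw [hy, hy₀, hv]
  have hyh : ∀ s, IsHol (y s) := by
    intro s
    rw [hyfun s]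
    exact ⟨fun j => ((hy₀h s).diff j).comp Complex.differentiable_exp, fun z => (hy₀h s).ne_zero _⟩
  have hync : ∀ s ∈ S, ∃ z w, ∀ c : ℂ, y s w ≠ c • y s z := by
    intro s hs
    have h1 := nonconstant_exp (hy₀h s) ((hS s).1 hs)
    obtain ⟨z, z', hz⟩ := h1
    refine ⟨z, z', fun c => ?_⟩
    rw [hy, hy]
    exact hz c
  have hvw : v (Complex.log w₀) = u w₀ := by
    rw [hv, Complex.exp_log hw0]
  have hR0 : ∃ z, eval (v z) R ≠ 0 := ⟨Complex.log w₀, by rw [hvw]; exact hw₀⟩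
  have hyG0 : ∀ s, eval (y s (Complex.log w₀)) (G s) ≠ 0 := by
    intro s h0
    rw [hy, hy₀, Complex.exp_log hw0] at h0
    have h1 := hord w₀ ⟨s, h0⟩
    have h2 : analyticOrderAt (fun z => eval (u z) R) w₀ = 0 := by
      rw [(hφ.analyticAt _).analyticOrderAt_eq_zero]
      exact hw₀
    rw [h2] at h1
    have h3 : e = 0 := by
      have h4 : (e : ℕ∞) = 0 := le_antisymm h1 zero_le
      exact_mod_cast h4
    omega
  obtain ⟨C, E, hE, hsmt⟩ := hSmt S y (fun s _ => hyh s) hync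
    (fun s _ => ⟨Complex.log w₀, hyG0 s⟩)
  -- counting
  have hgd : Differentiable ℂ fun z => ∏ s ∈ S, eval (y s z) (G s) :=
    Differentiable.fun_finsetProd fun s _ => differentiable_eval (hyh s).diff (G s)
  have hg0 : ∃ z, ∏ s ∈ S, eval (y s z) (G s) ≠ 0 :=
    ⟨Complex.log w₀, Finset.prod_ne_zero_iff.2 fun s _ => hyG0 s⟩
  obtain ⟨K₁, hK₁⟩ := counting_le (ι := Unit) (g := fun _ z => ∏ s ∈ S, eval (y s z) (G s)) (e := e)
    (fun _ => hgd) (fun _ => hg0) (differentiable_eval hvd R) hR0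
    (fun z U hU => by
      rcases U.eq_empty_or_nonempty with h0 | ⟨i, hi⟩
      · rw [h0]
        simp
      · have h1 : U.card = 1 := by
          refine le_antisymm ?_ (Finset.card_pos.2 ⟨i, hi⟩)
          have := Finset.card_le_univ U
          simpa using this
        rw [h1, mul_one]
        obtain ⟨s, _, hs⟩ := Finset.prod_eq_zero_iff.1 (hU i hi)
        rw [hy, hy₀] at hs
        have h2 := hord' z ⟨s, hs⟩
        rw [hvfun] at h2
        exact h2)
  -- the average
  obtain ⟨A, hA⟩ := form_leP h hR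
  have hci : ∀ s r, CircleIntegrable (fun z => (a s : ℝ) / D s * log ‖y s z‖) 0 r := fun s r =>
    ((GH4_continuous_log (hyh s)).continuousOn.circleIntegrable').const_smul
      (a := (a s : ℝ) / D s)
  have hcs : ∀ r, CircleIntegrable (fun z => ∑ s, (a s : ℝ) / D s * log ‖y s z‖) 0 r := fun r =>
    CircleIntegrable.fun_sum Finset.univ fun s _ => hci s r
  have havg : ∀ r : ℝ, 1 ≤ r → circleAverage (fun z => log ‖eval (v z) R‖) 0 r ≤
      A + ∑ s, (a s : ℝ) / D s * chi (y s) r := by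
    intro r hr
    have hdv := differentiable_eval hvd R
    have hi' : CircleIntegrable (fun z => log ‖eval (v z) R‖) 0 r :=
      MeromorphicOn.circleIntegrable_log_norm fun z _ => (hdv.analyticAt z).meromorphicAt
    have e1 : A + ∑ s, (a s : ℝ) / D s * chi (y s) r =
        circleAverage (fun z => A + ∑ s, (a s : ℝ) / D s * log ‖y s z‖) 0 r := by
      rw [circleAverage_fun_add (circleIntegrable_const _ _ _) (hcs r), circleAverage_const,
        circleAverage_fun_sum fun s _ => hci s r]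
      congr 1
      refine Finset.sum_congr rfl fun s _ => ?_
      exact (circleAverage_smul (a := (a s : ℝ) / D s) (f := fun z => log ‖y s z‖) (c := 0)
        (R := r)).symm
    rw [e1]
    refine GH4_average_mono hdv hR0 (by linarith) hi'
      ((circleIntegrable_const _ _ _).add (hcs r)) ?_
    intro z hz
    have h4 := hA (v z) (by rw [hv]; exact huX _) hz
    simp only [← hyv] at h4
    exact h4
  -- the constant curves
  have hcst : ∀ s, s ∉ S → ∀ r, chi (y s) r = log ‖y s 0‖ := by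
    intro s hs r
    refine chi_const (hyh s) ?_ r
    intro z z'
    by_contra hcon
    push Not at hcon
    apply hs
    refine (hS s).2 ⟨Complex.exp z, Complex.exp z', fun c => ?_⟩
    have := hcon c
    rw [hy, hy] at this
    exact this
  -- the nonconstant curves
  have hch : ∀ s, ∃ c K : ℝ, s ∈ S → 0 < c ∧ ∀ r : ℝ, 1 ≤ r → c * r - K ≤ chi (y s) r := by
    intro s
    by_cases hs : s ∈ S
    · obtain ⟨c, K, hc, hK⟩ := chi_exp_ge (hy₀h s) ((hS s).1 hs)
      refine ⟨c, K, fun _ => ⟨hc, fun r hr => ?_⟩⟩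
      rw [hyfun s]
      exact hK r hr
    · exact ⟨0, 0, fun h => absurd h hs⟩
  choose c K hcK using hch
  -- numbers
  have he0 : (1 : ℝ) ≤ e := by exact_mod_cast he
  have hη0 : ∀ s, 0 < (1 - ε) * dd s - κ s := fun s => by linarith [hκ s]
  obtain ⟨B, hB⟩ : ∃ B : ℝ, B = ∑ s ∈ Finset.univ \ S, (a s : ℝ) / D s * log ‖y s 0‖ := ⟨_, rfl⟩
  have hpos : 0 < ∑ s ∈ S, ((1 - ε) * dd s - κ s) * c s :=
    Finset.sum_pos (fun s hs => mul_pos (hη0 s) (hcK s hs).1) hSne
  obtain ⟨r, hr2, hr0, hrE, hbig⟩ := gg1_large hE (∑ s ∈ S, |K s / c s|)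
    (∑ s ∈ S, ((1 - ε) * dd s - κ s) * c s) C
    (∑ s ∈ S, ((1 - ε) * dd s - κ s) * K s + (K₁ + A + B) / e) hpos
  have b1 := hsmt r hr2 hrE
  have b2 := hK₁ r (by linarith)
  have b3 := havg r (by linarith)
  have b5 : ∀ s ∈ S, c s * r - K s ≤ chi (y s) r := fun s hs => (hcK s hs).2 r (by linarith)
  have b6 : ∀ s ∈ S, 0 ≤ chi (y s) r := by
    intro s hs
    have h1 := b5 s hs
    have h2 : |K s / c s| ≤ ∑ s ∈ S, |K s / c s| :=
      Finset.single_le_sum (f := fun s => |K s / c s|) (fun _ _ => abs_nonneg _) hs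
    have h3 : K s / c s ≤ r := le_trans (le_abs_self _) (le_trans h2 hr0)
    rw [div_le_iff₀ (hcK s hs).1] at h3
    linarith
  simp only [Finset.univ_unique, Finset.sum_const, Finset.card_singleton, one_smul] at b2
  obtain ⟨NN, hNN⟩ : ∃ NN, NN = N1 (fun z => ∏ s ∈ S, eval (y s z) (G s)) r := ⟨_, rfl⟩
  rw [← hNN] at b1 b2
  have b7 : ∑ s, (a s : ℝ) / D s * chi (y s) r ≤ e * ∑ s ∈ S, κ s * chi (y s) r + B := by
    have h1 : ∑ s, (a s : ℝ) / D s * chi (y s) r =
        ∑ s ∈ Finset.univ \ S, (a s : ℝ) / D s * chi (y s) r +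
          ∑ s ∈ S, (a s : ℝ) / D s * chi (y s) r :=
      (Finset.sum_sdiff (Finset.subset_univ S)).symm
    have h2 : ∑ s ∈ Finset.univ \ S, (a s : ℝ) / D s * chi (y s) r = B := by
      rw [hB]
      refine Finset.sum_congr rfl fun s hs => ?_
      rw [hcst s (Finset.mem_sdiff.1 hs).2 r]
    have h3 : ∑ s ∈ S, (a s : ℝ) / D s * chi (y s) r ≤ e * ∑ s ∈ S, κ s * chi (y s) r := by
      rw [Finset.mul_sum]
      refine Finset.sum_le_sum fun s hs => ?_
      have hDs : (0 : ℝ) < D s := by exact_mod_cast h.pos s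
      have h4 : (a s : ℝ) / D s ≤ e * κ s := by
        rw [div_le_iff₀ hDs, mul_assoc]
        exact ha s
      calc (a s : ℝ) / D s * chi (y s) r ≤ e * κ s * chi (y s) r :=
            mul_le_mul_of_nonneg_right h4 (b6 s hs)
        _ = e * (κ s * chi (y s) r) := by ring
    rw [h1, h2]
    linarith
  have b8 : NN ≤ ∑ s ∈ S, κ s * chi (y s) r + (K₁ + A + B) / e := by
    have h1 : (e : ℝ) * NN ≤ e * (∑ s ∈ S, κ s * chi (y s) r + (K₁ + A + B) / e) := by
      have h2 : (e : ℝ) * ((K₁ + A + B) / e) = K₁ + A + B := by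
        have : (e : ℝ) ≠ 0 := by positivity
        field_simp
      rw [mul_add, h2]
      linarith
    exact le_of_mul_le_mul_left h1 (by linarith)
  have b9 : ∑ s ∈ S, (((1 - ε) * dd s - κ s) * c s * r - ((1 - ε) * dd s - κ s) * K s) ≤
      ∑ s ∈ S, ((1 - ε) * dd s * chi (y s) r - κ s * chi (y s) r) := by
    refine Finset.sum_le_sum fun s hs => ?_
    have h1 := mul_le_mul_of_nonneg_left (b5 s hs) (hη0 s).le
    calc ((1 - ε) * dd s - κ s) * c s * r - ((1 - ε) * dd s - κ s) * K s =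
          ((1 - ε) * dd s - κ s) * (c s * r - K s) := by ring
      _ ≤ ((1 - ε) * dd s - κ s) * chi (y s) r := h1
      _ = (1 - ε) * dd s * chi (y s) r - κ s * chi (y s) r := by ring
  rw [Finset.sum_sub_distrib, Finset.sum_sub_distrib, ← Finset.sum_mul] at b9
  linarith

end Pool.Agent.H53R
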