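import Pool.Agent.Lib.H53R.F14m
import Pool.Agent.Lib.H53R.F15
import Pool.Agent.Lib.H53R.T1
import Pool.Agent.Lib.H53R.T4
import Pool.Agent.Lib.H49R.T3
import Pool.Agent.Lib.H49S.S6
import Pool.Agent.Lib.H78R.R7

set_option autoImplicit false

/-!
H53R: the second main theorem with truncation level one, every point being counted once, on products of
projective spaces.
-/

open MvPolynomial Real MeasureTheory

namespace Pool.Agent.H53R

/-- The second main theorem on products of projective spaces. -/
theorem smtTypesP : SmtTypesP :=
  smt_typesP (smt_gapP Pool.Agent.H49S.algP Pool.Agent.H49R.curveP Pool.Agent.H78R.eP)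

end Pool.Agent.H53R
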