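import Pool.Agent.Lib.H53R.D0

set_option autoImplicit false

/-!
H53R, interface: the main theorems of the modules A + C, D, E (statements only; the modules prove
theorems with these statements in their own files).
-/

open MvPolynomial Real MeasureTheory

namespace Pool.Agent.H53R

open Pool.Agent.H89T Pool.Agent.H78G Pool.Agent.H67T Pool.Agent.H53Y Pool.Agent.H49D

/-- Modules A + C. -/
def AC_P : Prop :=
  ∀ {β : Type} [Fintype β] [DecidableEq β] (m : β → ℕ) (T : β → Bool) {n : ℕ}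
    (e : Co m ≃ Fin n), (∀ s, 1 ≤ m s) → (∀ s, T s = false → 2 ≤ m s) → ∀ α : ℝ, 0 < α →
    AlgP m T e α

/-- Module D.  One curve. -/
def D_P : Prop :=
  ∀ {β : Type} [Fintype β] [DecidableEq β] {m : β → ℕ} {ι : Type} [Fintype ι]
    [DecidableEq ι] {sb : ι → β} {dg : ι → ℕ} (T : β → Bool) {n r k μ : ℕ} (M : β → ℕ)
    (e : Co m ≃ Fin n) (D : CurveW m ι sb dg),
    1 ≤ r → (∀ s, 1 ≤ m s) → (∀ s, m s ≤ r) → (∀ s, m s ≤ μ) →
    -- the charts `0`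
    (∀ z i, D.φ i z = 0 → ∀ s, D.w s z 0 ≠ 0) →
    -- the small blocks
    (∀ i, T (sb i) = true → dg i = 1) → (∀ s, T s = true → GenPos (D.θ s)) →
    (∀ s, T s = true → (∃ i, sb i = s) → m s + 1 ≤ Nat.card {i : ι // sb i = s}) →
    (∀ s, T s = true → ∃ z, Wr (D.w s) z ≠ 0) →
    -- the large blocks
    (∀ s, T s = false → ∀ z, Nat.card {i : ι // sb i = s ∧ D.φ i z = 0} ≤ k) →
    ∀ dB : ι → ℕ,
    (∀ i, T (sb i) = false → ∀ c : Fin (m (sb i) + 1),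
      ∃ Q : MvPolynomial (JV (m (sb i)) (m (sb i))) ℂ, HasWt (dB i) Q ∧
        PropB (cfF (dg i) c (D.F i)) Q ∧
        ∃ z, D.w (sb i) z c ≠ 0 ∧ eval (jetf (m (sb i)) (ch c (D.w (sb i))) z) Q ≠ 0) →
    -- the operator
    ∀ P : MvPolynomial (JV n r) ℂ, HasWtB e M P → PropG e D.a r P →
    (∃ z, (∀ s, D.w s z 0 ≠ 0) ∧ eval (jetf r (D.f e) z) P ≠ 0) →
    ∃ C : ℝ, 0 ≤ C ∧ ∀ ρ R : ℝ, 1 ≤ ρ → ρ < R →
      r * ∑ i, (dg i : ℝ) * chi (D.w (sb i)) ρ ≤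
        r * N1 (fun z => ∏ i, D.φ i z) ρ +
        ((Fintype.card β * (k * μ + μ ^ 2) : ℕ) : ℝ) * ∑ s, (M s : ℝ) * chi (D.w s) ρ +
        r * ∑ i, (((μ + 1) * dB i : ℕ) : ℝ) * chi (D.w (sb i)) ρ +
        r * ∑ s, ((μ + 1 : ℕ) : ℝ) * chi (D.w s) ρ + C * ∑ s, err (D.w s) ρ R

/-- The coefficients of the extended forms; `tl j` is the factor (of the product of projective
spaces) of the form `j`. -/
noncomputable def extP {τ ιL : Type} {n c : ℕ} {d : ιL → ℕ} (tl : ιL → τ)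
    (f : FV (Fin (n + 1)) d → ℂ)
    (A : τ → Matrix (Fin (n + 1)) (Fin (n + 1)) ℂ) (lam : ιL → ℂ) (s : τ → Fin c → Fin n → ℂ)
    (E : ιL → Fin c → MvPolynomial (Fin (n + 1) ⊕ Fin c) ℂ) :
    FV (Fin (n + 1) ⊕ Fin c) d → ℂ :=
  fun x => coeff x.2.1 (big ℂ (lam x.1) (psi (s (tl x.1)) (E x.1)) (subM (A (tl x.1)) (fmj f x.1)))

/-- Module E.  `ιL` = the large forms (degrees `d`, factor `tl j`), `κ` = the small forms, `sx x` the
block of `x` (dimension `m`, inside a space of dimension `mv`), `part x` the part of `x`. -/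
def E_P : Prop :=
  ∀ {n c nb : ℕ} {τ : Type} [Fintype τ] {ιL : Type} [Fintype ιL] (tl : ιL → τ) (d : ιL → ℕ)
    {σ κ : Type} [Fintype σ] [Fintype κ] (m mv : σ → ℕ) (sx : κ → σ) (part : κ → Fin nb),
    (∀ j, 1 ≤ d j) →
    Fintype.card τ * (2 * ((n + 1) * (n + 1))) + ∑ s, 2 * ((m s + 1) * (mv s + 1)) ≤ c →
    ∀ Θ : (S : Finset (Fin nb)) → MvPolynomial (FV (Fin (n + 1) ⊕ Fin c) d ⊕
      LV (fun x : {x : κ // part x ∉ S} => m (sx x.1))) ℂ,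
    (∀ S, S.card ≤ c → Θ S ≠ 0) →
    ∃ Ξ : MvPolynomial (FV (Fin (n + 1)) d ⊕ LV (fun x => mv (sx x))) ℂ, Ξ ≠ 0 ∧
      ∀ (f : FV (Fin (n + 1)) d → ℂ) (η : LV (fun x => mv (sx x)) → ℂ),
        eval (Sum.elim f η) Ξ ≠ 0 →
        ∀ A A' : τ → Matrix (Fin (n + 1)) (Fin (n + 1)) ℂ, (∀ t, A' t * A t = 1) →
        ∀ (Lam : (s : σ) → Matrix (Fin (mv s + 1)) (Fin (m s + 1)) ℂ)
          (Lb : (s : σ) → Matrix (Fin (m s + 1)) (Fin (mv s + 1)) ℂ),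
          (∀ s, Lb s * Lam s = 1) →
          (∀ j, eval (fun i => A (tl j) i 0) (fmj f j) ≠ 0) →
          ∃ S : Finset (Fin nb), S.card ≤ c ∧ ∃ (lam : ιL → ℂ) (s : τ → Fin c → Fin n → ℂ)
            (E : ιL → Fin c → MvPolynomial (Fin (n + 1) ⊕ Fin c) ℂ),
            (∀ j, lam j ≠ 0) ∧ (∀ j i, (E j i).IsHomogeneous (d j - 1)) ∧
            eval (Sum.elim (extP tl f A lam s E) (resC η Lam (fun x => part x ∉ S))) (Θ S) ≠ 0

end Pool.Agent.H53R
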