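import Pool.Agent.Lib.H53R.IDE
import Pool.Agent.Lib.H67T.Defs

set_option autoImplicit false

/-!
H53R: the statements `SmtGapP` and `SmtTypesP` (interface between F14, F15 and T).
`Dg src d t` (H53Y.D0) is the sum of the degrees `d i` of the forms `i` with `src i = t`.
-/

open MvPolynomial Real MeasureTheory

namespace Pool.Agent.H53R

open Pool.Agent.H89T Pool.Agent.H78G Pool.Agent.H67T Pool.Agent.H53Y Pool.Agent.H49D

/-- The second main theorem with constants `b t` holds for the forms with coefficients `f` (the form `i`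
lives on the factor `src i`) and all tuples of nonconstant curves which are contained in none of
the hypersurfaces. -/
def SmtFP {τ : Type} [Fintype τ] {n : ℕ} {ι : Type} [Fintype ι] {d : ι → ℕ} (src : ι → τ) (b : τ → ℝ)
    (f : FV (Fin (n + 1)) d → ℂ) : Prop :=
  ∀ y : τ → ℂ → Fin (n + 1) → ℂ, (∀ t, IsHol (y t)) → (∀ t, ∃ z w, ∀ c : ℂ, y t w ≠ c • y t z) →
    (∀ i, ∃ z, eval (y (src i) z) (fmj f i) ≠ 0) →
    ∃ (C : ℝ) (E : Set ℝ), volume E < ⊤ ∧ ∀ ρ : ℝ, 2 ≤ ρ → ρ ∉ E →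
      ∑ t, b t * chi (y t) ρ ≤ N1 (fun z => ∏ i, eval (y (src i) z) (fmj f i)) ρ + C * log ρ

/-- F14.  The degrees are at most `E₀` or at least `K`. -/
def SmtGapP : Prop :=
  ∀ (τ : Type) [Fintype τ] [DecidableEq τ] (n : ℕ), 1 ≤ n → ∀ ε : ℝ, 0 < ε → ε ≤ 1 →
    ∀ E₀ : ℕ, ∃ K : ℕ,
    ∀ (ι : Type) [Fintype ι] (src : ι → τ) (d : ι → ℕ), (∀ i, 1 ≤ d i) →
      (∀ i, d i ≤ E₀ ∨ K ≤ d i) → (∀ t, K ≤ Dg src d t) →
      ∃ Ξ : MvPolynomial (FV (Fin (n + 1)) d) ℂ, Ξ ≠ 0 ∧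
        ∀ f, eval f Ξ ≠ 0 → SmtFP src (fun t => (1 - ε / 2) * (Dg src d t : ℕ)) f

/-- F15.  All types. -/
def SmtTypesP : Prop :=
  ∀ (τ : Type) [Fintype τ] [DecidableEq τ] (n : ℕ), 1 ≤ n → ∀ ε : ℝ, 0 < ε → ε ≤ 1 → ∃ D₀ : ℕ,
    ∀ (ι : Type) [Fintype ι] (src : ι → τ) (d : ι → ℕ), (∀ i, 1 ≤ d i) →
      (∀ t, D₀ ≤ Dg src d t) →
      ∃ Ξ : MvPolynomial (FV (Fin (n + 1)) d) ℂ, Ξ ≠ 0 ∧
        ∀ f, eval f Ξ ≠ 0 → SmtFP src (fun t => (1 - ε) * (Dg src d t : ℕ)) f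

end Pool.Agent.H53R
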