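import Pool.Agent.Lib.H53R.TD

set_option autoImplicit false

/-!
H53R, chunk T2 (M, four lemmas): multihomogeneous coordinates (port of Lib/H89T/DP4.lean).
-/

open MvPolynomial Real MeasureTheory

namespace Pool.Agent.H53R

open Pool.Agent.H89T Pool.Agent.H67T

variable {τ : Type} [Fintype τ] [DecidableEq τ] {m : ℕ}

/-- CHUNK T2a.  As `H89T.eval_act` (Lib/H89T/DP4.lean). -/
theorem eval_actP {w : τ → Fin m → ℕ} {F : MvPolynomial (Fin m) ℂ} {a : τ → ℕ}
    (hF : ∀ s, F.IsWeightedHomogeneous (w s) (a s)) (t : τ → ℂ) (x : Fin m → ℂ) :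
    eval (actP w t x) F = (∏ s, t s ^ a s) * eval x F := by
  rw [eval_eq', eval_eq', Finset.mul_sum]
  refine Finset.sum_congr rfl fun d hd => ?_
  have hdeg : ∀ s, ∑ i, w s i * d i = a s := by
    intro s
    have h := hF s (mem_support_iff.mp hd)
    rw [Finsupp.weight_apply, Finsupp.sum_fintype] at h
    · rw [← h]
      refine Finset.sum_congr rfl fun i _ => ?_
      rw [smul_eq_mul, mul_comm]
    · simp
  simp only [actP, mul_pow, Finset.prod_mul_distrib, ← Finset.prod_pow, ← pow_mul]
  have h1 : ∏ i, ∏ s, t s ^ (w s i * d i) = ∏ s, t s ^ a s := by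
    rw [Finset.prod_comm]
    refine Finset.prod_congr rfl fun s _ => ?_
    rw [Finset.prod_pow_eq_pow_sum, hdeg s]
  rw [h1]
  ring

/-- CHUNK T2b.  `actP w t x` is the composition of the one-parameter actions `act (w s) (t s)`, `s ∈ τ`
(induction over a `Finset`), `H89T.eval_act_mem`. -/
theorem actP_mem {w : τ → Fin m → ℕ} {J : Ideal (MvPolynomial (Fin m) ℂ)}
    (hJ : ∀ s, ∀ F ∈ J, ∀ d, weightedHomogeneousComponent (w s) d F ∈ J) {x : Fin m → ℂ}
    (hx : ∀ F ∈ J, eval x F = 0) (t : τ → ℂ) : ∀ F ∈ J, eval (actP w t x) F = 0 := by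
  have key : ∀ S : Finset τ, ∀ F ∈ J, eval (actP w (fun s => if s ∈ S then t s else 1) x) F = 0 := by
    intro S
    induction S using Finset.induction_on with
    | empty =>
      have h1 : actP w (fun s => if s ∈ (∅ : Finset τ) then t s else 1) x = x := by
        funext i
        simp [actP]
      rw [h1]
      exact hx
    | insert s S hs ih =>
      have h1 : actP w (fun s' => if s' ∈ insert s S then t s' else 1) x =
          act (w s) (t s) (actP w (fun s => if s ∈ S then t s else 1) x) := by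
        funext i
        simp only [actP, act]
        rw [← mul_assoc]
        have h2 : ∏ s', (if s' ∈ insert s S then t s' else 1) ^ w s' i =
            t s ^ w s i * ∏ s', (if s' ∈ S then t s' else 1) ^ w s' i := by
          have h3 : ∀ s', (if s' ∈ insert s S then t s' else 1) ^ w s' i =
              (if s' = s then t s ^ w s i else 1) * (if s' ∈ S then t s' else 1) ^ w s' i := by
            intro s'
            by_cases h4 : s' = s
            · subst h4
              simp [hs]
            · simp [h4]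
          rw [Finset.prod_congr rfl fun s' _ => h3 s', Finset.prod_mul_distrib,
            Finset.prod_ite_eq' Finset.univ s]
          simp
        rw [h2]
      rw [h1]
      exact eval_act_mem (hJ s) ih (t s)
  have h := key Finset.univ
  have h1 : (fun s => if s ∈ (Finset.univ : Finset τ) then t s else 1) = t := by
    funext s
    simp
  rw [h1] at h
  exact h

private theorem t2_act_eq (w : τ → Fin m → ℕ) (t : ℂ) (x : Fin m → ℂ) :
    act (fun i => ∑ s, w s i) t x = actP w (fun _ => t) x := by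
  funext i
  simp only [act, actP]
  rw [Finset.prod_pow_eq_pow_sum]

private theorem t2_total {w : τ → Fin m → ℕ} {F : MvPolynomial (Fin m) ℂ} {a : τ → ℕ}
    (hF : ∀ s, F.IsWeightedHomogeneous (w s) (a s)) :
    F.IsWeightedHomogeneous (fun i => ∑ s, w s i) (∑ s, a s) := by
  intro d hd
  have h1 : ∀ s, ∑ i, d i * w s i = a s := by
    intro s
    have h := hF s hd
    rw [Finsupp.weight_apply, Finsupp.sum_fintype] at h
    · simpa using h
    · simp
  rw [Finsupp.weight_apply, Finsupp.sum_fintype]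
  · simp only [smul_eq_mul, Finset.mul_sum]
    rw [Finset.sum_comm]
    exact Finset.sum_congr rfl fun s _ => h1 s
  · simp

/-- CHUNK T2c (M).  Boundedness.  Total weights `W i = ∑ s, w s i ≥ 1`; `J` is stable under `act W t`
(`act W t = actP w (fun _ => t)`, T2b); with `L = ∏ s, D s` the forms `f s j ^ (L / D s)` are weighted
homogeneous of degree `L` for the weights `W` (an `IsWeightedHomogeneous` statement for `W` follows from
those for all the `w s`: the weight is `∑ s, ∑ i, d i * w s i`), and they have no common zero on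
`V (J)` outside `0`.  Apply `H89T.wn_le` to the family of all of them (numbered by
`Fintype.equivFin (Σ s, Fin (n s + 1))`), and `norm_le_of_wn`.  If `m = 0` everything is trivial; if `τ` is
empty then `m = 0`. -/
theorem bounded_of_f {n : τ → ℕ} {w : τ → Fin m → ℕ} {J : Ideal (MvPolynomial (Fin m) ℂ)} {D : τ → ℕ}
    {f : (s : τ) → Fin (n s + 1) → MvPolynomial (Fin m) ℂ} (h : CovP w J D f) (B : ℝ) :
    ∃ M : ℝ, ∀ x : Fin m → ℂ, (∀ F ∈ J, eval x F = 0) → (∀ s j, ‖eval x (f s j)‖ ≤ B) →
      ∀ i, ‖x i‖ ≤ M := by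
  set W : Fin m → ℕ := fun i => ∑ s, w s i with hW
  have hW1 : ∀ i, 1 ≤ W i := by
    intro i
    obtain ⟨s, hs⟩ := h.weights i
    exact hs.trans (Finset.single_le_sum (f := fun s => w s i) (fun _ _ => Nat.zero_le _)
      (Finset.mem_univ s))
  have hSt : Stable W J := by
    intro x hx t F hF
    rw [hW, t2_act_eq]
    exact actP_mem h.multihomogeneous hx _ F hF
  set L : ℕ := ∏ s, D s with hL
  have hLpos : 0 < L := Finset.prod_pos fun s _ => h.pos s
  have hdvd : ∀ s, D s ∣ L := fun s => Finset.dvd_prod_of_mem D (Finset.mem_univ s)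
  have hdiv : ∀ s, L / D s * D s = L := fun s => Nat.div_mul_cancel (hdvd s)
  have hdiv0 : ∀ s, L / D s ≠ 0 := by
    intro s h0
    have := hdiv s
    rw [h0, zero_mul] at this
    omega
  have hdivle : ∀ s, L / D s ≤ L := fun s => Nat.div_le_self _ _
  set e := Fintype.equivFin (Σ s, Fin (n s + 1)) with he
  set g : Fin (Fintype.card (Σ s, Fin (n s + 1))) → MvPolynomial (Fin m) ℂ :=
    fun k => f (e.symm k).1 (e.symm k).2 ^ (L / D (e.symm k).1) with hg
  have hgh : ∀ k, (g k).IsWeightedHomogeneous W L := by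
    intro k
    have h1 := t2_total (h.homogeneous (e.symm k).1 (e.symm k).2)
    rw [Finset.sum_ite_eq' Finset.univ (e.symm k).1] at h1
    simp only [Finset.mem_univ, if_true] at h1
    have h2 := h1.pow (L / D (e.symm k).1)
    rw [smul_eq_mul, hdiv] at h2
    exact h2
  have hg0 : ∀ x : Fin m → ℂ, x ≠ 0 → (∀ F ∈ J, eval x F = 0) → ∃ k, eval x (g k) ≠ 0 := by
    intro x hx0 hxJ
    by_contra hcon
    push Not at hcon
    apply hx0
    have hq : ∀ q : Σ s, Fin (n s + 1), eval x (f q.1 q.2) = 0 := by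
      intro q
      have h1 := hcon (e q)
      simp only [hg, map_pow] at h1
      have h3 : e.symm (e q) = q := e.symm_apply_apply q
      rw [h3] at h1
      exact eq_zero_of_pow_eq_zero h1
    exact h.finite x hxJ fun s j => hq ⟨s, j⟩
  obtain ⟨δ, hδ, hδ'⟩ := wn_le hW1 hSt hgh hg0
  set C : ℝ := (((max 1 B) ^ L) ^ wL W) / δ with hC
  refine ⟨max 1 (max 1 C), fun x hxJ hxB i => ?_⟩
  by_cases hx0 : x = 0
  · rw [hx0, Pi.zero_apply, norm_zero]
    positivity
  have h1 := hδ' x hx0 hxJ
  have hB1 : (1 : ℝ) ≤ max 1 B := le_max_left _ _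
  have h2 : ‖fun k => eval x (g k)‖ ≤ (max 1 B) ^ L := by
    rw [pi_norm_le_iff_of_nonneg (by positivity)]
    intro k
    simp only [hg, map_pow, norm_pow]
    calc ‖eval x (f (e.symm k).1 (e.symm k).2)‖ ^ (L / D (e.symm k).1)
        ≤ (max 1 B) ^ (L / D (e.symm k).1) :=
          pow_le_pow_left₀ (norm_nonneg _) ((hxB _ _).trans (le_max_right _ _)) _
      _ ≤ (max 1 B) ^ L := pow_le_pow_right₀ hB1 (hdivle _)
  have h3 : wn W x ^ L ≤ C := by
    rw [hC, le_div_iff₀ hδ, mul_comm]
    exact h1.trans (pow_le_pow_left₀ (norm_nonneg _) h2 _)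
  have h4 : wn W x ≤ max 1 C := by
    by_cases h5 : wn W x ≤ 1
    · exact h5.trans (le_max_left _ _)
    · push Not at h5
      exact ((le_self_pow₀ h5.le hLpos.ne').trans h3).trans (le_max_right _ _)
  exact norm_le_of_wn hW1 h4 i

/-- CHUNK T2d (M).  The values of `R` are bounded by those of `f`.  For `x ∈ coneP J f` let
`N s = ‖fun j => eval x (f s j)‖ > 0`, `t s = N s ^ (-1 / D s)` (positive real number), `x' = actP w t x`;
`‖fun j => eval x' (f s j)‖ = t s ^ D s * N s = 1`, so `x'` is bounded by `M` of `bounded_of_f` (`B = 1`) and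
`‖eval x' R‖ ≤ A` (`R.continuous_eval` on a compact ball; take `A ≥ 1`); `eval x' R = ∏ t s ^ a s * eval x R`;
take logarithms. -/
theorem form_leP {n : τ → ℕ} {w : τ → Fin m → ℕ} {J : Ideal (MvPolynomial (Fin m) ℂ)} {D : τ → ℕ}
    {f : (s : τ) → Fin (n s + 1) → MvPolynomial (Fin m) ℂ} (h : CovP w J D f)
    {R : MvPolynomial (Fin m) ℂ} {a : τ → ℕ} (hR : ∀ s, R.IsWeightedHomogeneous (w s) (a s)) :
    ∃ A : ℝ, ∀ x ∈ coneP J f, eval x R ≠ 0 →
      log ‖eval x R‖ ≤ A + ∑ s, (a s : ℝ) / D s * log ‖fun j => eval x (f s j)‖ := by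
  obtain ⟨M, hM⟩ := bounded_of_f h 1
  have hcpt : IsCompact (Metric.closedBall (0 : Fin m → ℂ) (max 0 M)) := isCompact_closedBall _ _
  obtain ⟨A₀, hA₀⟩ := hcpt.exists_bound_of_continuousOn (f := fun x => eval x R)
    R.continuous_eval.continuousOn
  refine ⟨log (max 1 A₀), fun x hx hxR => ?_⟩
  have hN : ∀ s, 0 < ‖fun j => eval x (f s j)‖ := by
    intro s
    obtain ⟨j, hj⟩ := hx.2 s
    rw [norm_pos_iff]
    intro h0
    exact hj (congrFun h0 j)
  set N : τ → ℝ := fun s => ‖fun j => eval x (f s j)‖ with hNdef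
  have hD0 : ∀ s, (D s : ℝ) ≠ 0 := by
    intro s
    have := h.pos s
    have h1 : D s ≠ 0 := by omega
    exact_mod_cast h1
  set r : τ → ℝ := fun s => N s ^ (-(1 : ℝ) / D s) with hr
  have hr0 : ∀ s, 0 < r s := fun s => Real.rpow_pos_of_pos (hN s) _
  have hrD : ∀ s, r s ^ D s * N s = 1 := by
    intro s
    have h1 : r s ^ D s = N s ^ (-(1 : ℝ)) := by
      rw [hr]
      simp only
      rw [← Real.rpow_natCast, ← Real.rpow_mul (hN s).le]
      have h2 : -(1 : ℝ) / D s * D s = -1 := by
        have := hD0 s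
        field_simp
      rw [h2]
    rw [h1, Real.rpow_neg_one, inv_mul_cancel₀ (hN s).ne']
  set t : τ → ℂ := fun s => (r s : ℂ) with ht
  have htn : ∀ s, ‖t s‖ = r s := by
    intro s
    simp only [ht]
    rw [Complex.norm_real, Real.norm_of_nonneg (hr0 s).le]
  have hx' := actP_mem h.multihomogeneous hx.1 t
  have hf' : ∀ s j, ‖eval (actP w t x) (f s j)‖ ≤ 1 := by
    intro s j
    have h1 := eval_actP (h.homogeneous s j) t x
    have h2 : ∏ s', t s' ^ (if s' = s then D s else 0) = t s ^ D s := by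
      rw [Finset.prod_eq_single s]
      · simp
      · intro s' _ hs'
        simp [hs']
      · intro hs
        exact absurd (Finset.mem_univ s) hs
    rw [h1, h2, norm_mul, norm_pow, htn, ← hrD s]
    exact mul_le_mul_of_nonneg_left (norm_le_pi_norm (fun j => eval x (f s j)) j)
      (pow_nonneg (hr0 s).le _)
  have hbd := hM _ hx' hf'
  have hmem : actP w t x ∈ Metric.closedBall (0 : Fin m → ℂ) (max 0 M) := by
    rw [mem_closedBall_zero_iff, pi_norm_le_iff_of_nonneg (le_max_left _ _)]
    exact fun i => (hbd i).trans (le_max_right _ _)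
  have h1 : ‖eval (actP w t x) R‖ ≤ A₀ := hA₀ _ hmem
  have h2 := eval_actP hR t x
  have hprod : ‖∏ s, t s ^ a s‖ = ∏ s, r s ^ a s := by
    rw [norm_prod]
    refine Finset.prod_congr rfl fun s _ => ?_
    rw [norm_pow, htn]
  rw [h2, norm_mul, hprod] at h1
  have hp0 : 0 < ∏ s, r s ^ a s := Finset.prod_pos fun s _ => pow_pos (hr0 s) _
  have hR0 : 0 < ‖eval x R‖ := norm_pos_iff.2 hxR
  have h3 : log ((∏ s, r s ^ a s) * ‖eval x R‖) ≤ log (max 1 A₀) :=
    Real.log_le_log (mul_pos hp0 hR0) (h1.trans (le_max_right _ _))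
  rw [Real.log_mul hp0.ne' hR0.ne', Real.log_prod fun s _ => (pow_pos (hr0 s) _).ne'] at h3
  have h4 : ∑ s, log (r s ^ a s) = -∑ s, (a s : ℝ) / D s * log (N s) := by
    rw [← Finset.sum_neg_distrib]
    refine Finset.sum_congr rfl fun s _ => ?_
    rw [Real.log_pow, hr]
    simp only
    rw [Real.log_rpow (hN s)]
    ring
  rw [h4] at h3
  have h5 : ∑ s, (a s : ℝ) / D s * log ‖fun j => eval x (f s j)‖ =
      ∑ s, (a s : ℝ) / D s * log (N s) := rfl
  rw [h5]
  linarith

end Pool.Agent.H53R
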