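import Pool.Agent.Lib.H53R.T2

set_option autoImplicit false

/-!
H53R, chunk T3 (M/L, two lemmas): nonconstant curves, constant curves.
-/

open MvPolynomial Real MeasureTheory

namespace Pool.Agent.H53R

open Pool.Agent.H89T Pool.Agent.H67T

variable {τ : Type} [Fintype τ] [DecidableEq τ] {m : ℕ}

/-- CHUNK T3a (M/L).  Port of `H89T.nonconstant_comp` (Lib/H89T/DP4.lean): if all the curves `y s = f s (u)` are
constant in projective space then `f s (u z) = g s z • f s (u 0)` with `g s` entire without zeros,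
`t s z ^ D s * g s z = 1`, `v z = actP w (t z) (u z)` has constant values of all `f s j` and is in `V (J)`
(T2b), so it is bounded (`bounded_of_f`) and constant (Liouville), and
`u z' = actP w (fun s => t s z / t s z') (u z)`. -/
theorem nonconstant_compP {n : τ → ℕ} {w : τ → Fin m → ℕ} {J : Ideal (MvPolynomial (Fin m) ℂ)}
    {D : τ → ℕ} {f : (s : τ) → Fin (n s + 1) → MvPolynomial (Fin m) ℂ} (h : CovP w J D f)
    {u : ℂ → Fin m → ℂ} (hu : ∀ i, Differentiable ℂ fun z => u z i) (huX : ∀ z, u z ∈ coneP J f)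
    (hnc : ∃ z z', ∀ t : τ → ℂ, u z' ≠ actP w t (u z)) :
    ∃ s, ∃ z z', ∀ c : ℂ, (fun j => eval (u z') (f s j)) ≠ c • fun j => eval (u z) (f s j) := by
  by_contra hcon
  push Not at hcon
  have hj₀ : ∀ s, ∃ j, eval (u 0) (f s j) ≠ 0 := (huX 0).2
  choose j₀ hj₀ using hj₀
  set g : τ → ℂ → ℂ := fun s z => eval (u z) (f s (j₀ s)) / eval (u 0) (f s (j₀ s)) with hg
  have hgd : ∀ s, Differentiable ℂ (g s) := fun s =>
    (differentiable_eval hu (f s (j₀ s))).div_const _
  have hgz : ∀ s z j, eval (u z) (f s j) = g s z * eval (u 0) (f s j) := by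
    intro s z j
    obtain ⟨c, hc⟩ := hcon s 0 z
    have h1 : g s z = c := by
      have h2 := congrFun hc (j₀ s)
      simp only [Pi.smul_apply, smul_eq_mul] at h2
      rw [hg]
      simp only
      rw [h2, mul_div_assoc, div_self (hj₀ s), mul_one]
    rw [h1]
    exact congrFun hc j
  have hg0 : ∀ s z, g s z ≠ 0 := by
    intro s z h0
    obtain ⟨j, hj⟩ := (huX z).2 s
    apply hj
    rw [hgz s z j, h0, zero_mul]
  choose l hl hgl using fun s => exists_log (hgd s) (hg0 s)
  set t : ℂ → τ → ℂ := fun z s => Complex.exp (-l s z / D s) with ht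
  have hD0 : ∀ s, (D s : ℂ) ≠ 0 := fun s => by
    have : D s ≠ 0 := by have := h.pos s; omega
    exact_mod_cast this
  have htD : ∀ s z, t z s ^ D s * g s z = 1 := by
    intro s z
    have h1 := hD0 s
    rw [ht, hgl s z]
    simp only
    rw [← Complex.exp_nat_mul, ← Complex.exp_add]
    have : (D s : ℂ) * (-l s z / D s) + l s z = 0 := by field_simp; ring
    rw [this, Complex.exp_zero]
  have ht0 : ∀ s z, t z s ≠ 0 := fun s z => Complex.exp_ne_zero _
  have htd : ∀ s, Differentiable ℂ fun z => t z s := fun s => ((hl s).neg.div_const _).cexp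
  set v : ℂ → Fin m → ℂ := fun z => actP w (t z) (u z) with hv
  have hvd : ∀ i, Differentiable ℂ fun z => v z i := fun i => by
    have h1 : Differentiable ℂ fun z => ∏ s, t z s ^ w s i :=
      Differentiable.fun_finsetProd fun s _ => (htd s).pow _
    exact h1.mul (hu i)
  have hvf : ∀ z s j, eval (v z) (f s j) = eval (u 0) (f s j) := by
    intro z s j
    rw [hv]
    simp only
    rw [eval_actP (h.homogeneous s j)]
    have h1 : ∏ s', t z s' ^ (if s' = s then D s else 0) = t z s ^ D s := by
      rw [Finset.prod_eq_single s]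
      · rw [if_pos rfl]
      · intro s' _ hs'
        rw [if_neg hs', pow_zero]
      · intro h0
        exact absurd (Finset.mem_univ s) h0
    rw [h1, hgz s z j, ← mul_assoc, htD, one_mul]
  obtain ⟨M, hM⟩ := bounded_of_f h (∑ s, ∑ j, ‖eval (u 0) (f s j)‖)
  have hb : ∀ z i, ‖v z i‖ ≤ M := by
    intro z
    refine hM (v z) (actP_mem h.multihomogeneous (huX z).1 (t z)) fun s j => ?_
    rw [hvf z s j]
    calc ‖eval (u 0) (f s j)‖ ≤ ∑ j, ‖eval (u 0) (f s j)‖ :=
          Finset.single_le_sum (f := fun j => ‖eval (u 0) (f s j)‖) (fun _ _ => norm_nonneg _)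
            (Finset.mem_univ j)
      _ ≤ _ := Finset.single_le_sum (f := fun s => ∑ j, ‖eval (u 0) (f s j)‖)
            (fun _ _ => Finset.sum_nonneg fun _ _ => norm_nonneg _) (Finset.mem_univ s)
  have hconst : ∀ z z' i, v z i = v z' i := by
    intro z z' i
    refine (hvd i).apply_eq_apply_of_bounded ?_ z z'
    rw [isBounded_iff_forall_norm_le]
    refine ⟨M, ?_⟩
    rintro _ ⟨z, rfl⟩
    exact hb z i
  obtain ⟨z, z', hzz⟩ := hnc
  apply hzz fun s => t z s / t z' s
  funext i
  have h1 := hconst z' z i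
  rw [hv] at h1
  simp only [actP] at h1 ⊢
  have h2 : ∏ s, t z' s ^ w s i ≠ 0 :=
    Finset.prod_ne_zero_iff.2 fun s _ => pow_ne_zero _ (ht0 s z')
  have h3 : ∏ s, (t z s / t z' s) ^ w s i = (∏ s, t z s ^ w s i) / ∏ s, t z' s ^ w s i := by
    rw [← Finset.prod_div_distrib]
    exact Finset.prod_congr rfl fun s _ => div_pow _ _ _
  rw [h3, div_mul_eq_mul_div, eq_div_iff h2, mul_comm, h1]

/-- CHUNK T3b (S/M).  A curve which is constant in projective space has constant characteristic:
`y z = g z • y 0` with `g` entire without zeros (`g z = y z j / y 0 j` where `y 0 j ≠ 0`), `g = exp h`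
(`H89T.exists_log`), `log ‖y z‖ = Re (h z) + log ‖y 0‖`, and the mean value of a harmonic function (or
`circleAverage` of the entire function `h`: its real part) is its value at `0`. -/
theorem chi_const {n : ℕ} {y : ℂ → Fin n → ℂ} (hy : IsHol y) (hc : ∀ z w, ∃ c : ℂ, y w = c • y z)
    (r : ℝ) : chi y r = log ‖y 0‖ := by
  obtain ⟨j, hj⟩ : ∃ j, y 0 j ≠ 0 := Function.ne_iff.1 (hy.ne_zero 0)
  have hg : ∀ z, y z = (y z j / y 0 j) • y 0 := by
    intro z
    obtain ⟨c, hc⟩ := hc 0 z
    have h1 : y z j = c * y 0 j := by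
      have h2 := congrFun hc j
      rwa [Pi.smul_apply, smul_eq_mul] at h2
    rw [h1, mul_div_assoc, div_self hj, mul_one]
    exact hc
  have hgd : Differentiable ℂ fun z => y z j / y 0 j := (hy.diff j).div_const _
  have hg0 : ∀ z, y z j / y 0 j ≠ 0 := by
    intro z h0
    apply hy.ne_zero z
    rw [hg z, h0, zero_smul]
  have h1 : (fun z => log ‖y z‖) = fun z => log ‖y z j / y 0 j‖ + log ‖y 0‖ := by
    funext z
    rw [hg z, norm_smul, log_mul (norm_ne_zero_iff.2 (hg0 z)) (norm_ne_zero_iff.2 (hy.ne_zero 0))]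
    congr 2
    rw [Pi.smul_apply, smul_eq_mul, mul_div_assoc, div_self hj, mul_one]
  have hci : CircleIntegrable (fun z => log ‖y z j / y 0 j‖) 0 r := by
    have h2 : Continuous fun z => log ‖y z j / y 0 j‖ :=
      hgd.continuous.norm.log fun z => norm_ne_zero_iff.2 (hg0 z)
    exact h2.continuousOn.circleIntegrable'
  have h3 : circleAverage (fun z => log ‖y z j / y 0 j‖) 0 r = log ‖y 0 j / y 0 j‖ :=
    AnalyticOnNhd.circleAverage_log_norm_of_ne_zero (g := fun z => y z j / y 0 j)
      (fun z _ => hgd.analyticAt z) fun z _ => hg0 z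
  unfold chi
  rw [h1, circleAverage_fun_add hci (circleIntegrable_const _ _ _), h3, circleAverage_const,
    div_self hj, norm_one, log_one, zero_add]

end Pool.Agent.H53R
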