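import Pool.Agent.Lib.H53R.ST
import Pool.Agent.Lib.H89T.DP5
import Pool.Agent.Lib.H89T.T3

set_option autoImplicit false

/-!
H53R, Part T (covers): definitions.  The multigraded cone `V (J) ⊆ ℂ ^ m` with weights `w s`, `s : τ`, of a
variety which is finite over a product of projective spaces, the morphisms being given by the
forms `f s j` (multihomogeneous of degree `D s` in the grading `s` and of degree `0` in the others).
-/

open MvPolynomial Real MeasureTheory

namespace Pool.Agent.H53R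

open Pool.Agent.H89T Pool.Agent.H67T

variable {τ : Type} [Fintype τ] {m : ℕ}

/-- The action of the vector `t` of numbers, with weights `w s`. -/
def actP (w : τ → Fin m → ℕ) (t : τ → ℂ) (x : Fin m → ℂ) : Fin m → ℂ :=
  fun i => (∏ s, t s ^ w s i) * x i

/-- The zeros of `J` at which no family `f s` vanishes. -/
def coneP {n : τ → ℕ} (J : Ideal (MvPolynomial (Fin m) ℂ))
    (f : (s : τ) → Fin (n s + 1) → MvPolynomial (Fin m) ℂ) : Set (Fin m → ℂ) :=
  {x | (∀ F ∈ J, eval x F = 0) ∧ ∀ s, ∃ j, eval x (f s j) ≠ 0}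

/-- The hypotheses on `w`, `J`, `D`, `f`. -/
structure CovP [DecidableEq τ] {n : τ → ℕ} (w : τ → Fin m → ℕ) (J : Ideal (MvPolynomial (Fin m) ℂ))
    (D : τ → ℕ) (f : (s : τ) → Fin (n s + 1) → MvPolynomial (Fin m) ℂ) : Prop where
  weights : ∀ i, ∃ s, 1 ≤ w s i
  multihomogeneous : ∀ s, ∀ F ∈ J, ∀ d, weightedHomogeneousComponent (w s) d F ∈ J
  pos : ∀ s, 1 ≤ D s
  homogeneous : ∀ s j s', (f s j).IsWeightedHomogeneous (w s') (if s' = s then D s else 0)
  finite : ∀ x : Fin m → ℂ, (∀ F ∈ J, eval x F = 0) → (∀ s j, eval x (f s j) = 0) → x = 0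

end Pool.Agent.H53R
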